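import Pool.Agent.H27.Spread.Flatten

set_option autoImplicit false

/-! Sums of `NN j` level-`b` functionals have norm at most `2·4^j`. -/

namespace Pool.Agent.H27.Spread
open Finset

/-- one element of the `op` family -/
lemma SN.op_one {b k j : ℕ} {x : ℕ → ℝ} (hj : j ∈ Ico b k) (h : SN (NN j) k x)
    (h0 : ∀ n < k, x n = 0) : SN 1 b (fun n => aw j * x n) := by
  have := SN.op (b := b) (k := k) (X := fun i => if i = j then x else fun _ => 0) (by
    intro i hi
    by_cases hij : i = j
    · subst hij; simpa using h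
    · simp only [hij, if_false]; exact SN.zero _ _) (by
    intro i hi n hn
    by_cases hij : i = j
    · subst hij; simpa using h0 n hn
    · simp only [hij, if_false])
  refine this.solid (fun n => mul_nonneg (aw_nonneg j) (h.nonneg n)) (fun n => ?_)
  rw [sum_eq_single j]
  · simp
  · intro i _ hij; simp [hij]
  · intro hj'; exact absurd hj hj'

lemma two_mul_le_four_pow {j : ℕ} (h5 : 3 ≤ j) : 2 * (j + 1) ≤ 4 ^ j := by
  induction j, h5 using Nat.le_induction with
  | base => norm_num
  | succ j hj ihj => rw [pow_succ]; omega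

lemma BN_aux : ∀ d b j L : ℕ, 3 ≤ b → b ≤ j → L ≤ j + 1 + d → ∀ x, SN (NN j) b x →
    (∀ n, L ≤ n → x n = 0) → SR 1 b (2 * 4 ^ j) x := by
  intro d
  induction d with
  | zero =>
      intro b j L hb hbj hL x hx hx0
      have h1 := SR.of_bdd (b := b) (κ := j + 1) (x := x) (hx.le_one (by omega))
        (fun n hn => (hx0 n (by omega)).le)
      refine h1.mono_r ?_
      have h2 : j + 1 ≤ 4 ^ j := by
        have := Nat.lt_pow_self (n := j) (show 1 < 4 by norm_num); omega
      have h3 : ((j + 1 : ℕ) : ℝ) ≤ ((4 ^ j : ℕ) : ℝ) := by exact_mod_cast h2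
      push_cast at h3 ⊢
      have h4 : (0:ℝ) < 4 ^ j := by positivity
      linarith
  | succ d ih =>
      intro b j L hb hbj hL x hx hx0
      obtain ⟨β, hβ⟩ := hx
      -- low part
      have hlow : SR 1 b ((j + 1 : ℕ) : ℝ) (fun n => if n < j + 1 then x n else 0) := by
        apply SR.of_bdd
        · intro n; by_cases h : n < j + 1 <;> simp [h, hβ.le_one (by omega) n]
        · intro n hn; simp [not_lt.2 hn]
      obtain ⟨V, X, hV, hV0, hX, hX0, hxx⟩ := hβ.flatten' (by omega) (κ := j + 1) (by omega)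
      -- the `x_{≥ κ}` part treated by `op`
      have hVb : SR 1 b (4 ^ j) V := by
        have h1 : SN 1 b (fun n => aw j * V n) :=
          SN.op_one (k := j + 1) (by simp; omega) ⟨_, hV⟩ hV0
        have h2 := (SR.of_SN h1).smul (c := 4 ^ j) (by positivity)
        rw [mul_one] at h2
        refine h2.le (fun n => ?_)
        rw [← mul_assoc, mul_comm (4 ^ j) (aw j), aw_mul, one_mul]
      have hXb : SR 1 b (∑ i ∈ Ico b (j + 1), aw i * (2 * 4 ^ (j + 1)))
          (fun n => ∑ i ∈ Ico b (j + 1), aw i * (if n < L then X i n else 0)) := by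
        apply SR.sum
        intro i hi
        simp only [mem_Ico] at hi
        have h1 : SN (NN (j + 1)) (j + 1) (fun n => if n < L then X i n else 0) := by
          refine ((hX i (by simp only [mem_Ico]; exact hi)).restrict (fun n => n < L)).mono_N ?_
          calc NN j * PP b i ≤ NN j * PP b j := by
                apply Nat.mul_le_mul_left
                unfold PP
                apply Nat.le_of_dvd (prod_pos (fun i _ => NN_pos i))
                apply prod_dvd_prod_of_subset
                exact Icc_subset_Icc le_rfl (by omega)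
            _ ≤ NN (j + 1) := mul_PP_le hbj le_rfl
        have h2 := ih (j + 1) (j + 1) L (by omega) le_rfl (by omega) _ h1
          (fun n hn => by simp [not_lt.2 hn])
        exact (h2.mono_b (by omega)).smul (aw_nonneg i)
      have htot := SR.add hlow (SR.add hVb hXb)
      refine (htot.mono_r ?_).le (fun n => ?_)
      · rw [← sum_mul]
        have h1 : ∑ i ∈ Ico b (j + 1), aw i ≤ 4 / 3 * aw 3 :=
          (aw_sum_Ico b (j + 1)).trans (mul_le_mul_of_nonneg_left (aw_anti hb) (by norm_num))
        have h2 : aw 3 = 1 / 64 := by unfold aw; norm_num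
        have h3 : (((j + 1 : ℕ)) : ℝ) ≤ (4 ^ j) / 2 := by
          have h4 : 2 * (j + 1) ≤ 4 ^ j := two_mul_le_four_pow (by omega)
          have h6 : ((2 * (j + 1) : ℕ) : ℝ) ≤ ((4 ^ j : ℕ) : ℝ) := by exact_mod_cast h4
          push_cast at h6 ⊢; linarith
        have h4 : (0:ℝ) < 4 ^ j := by positivity
        have h5 : (4:ℝ) ^ (j + 1) = 4 * 4 ^ j := by ring
        rw [h5]
        rw [h2] at h1
        have h6 : (∑ i ∈ Ico b (j + 1), aw i) * (2 * (4 * 4 ^ j)) ≤ (4 / 3 * (1 / 64)) * (2 * (4 * 4 ^ j)) :=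
          mul_le_mul_of_nonneg_right h1 (by positivity)
        linarith
      · by_cases hn : n < j + 1
        · simp only [hn, if_true]
          have h1 : V n = 0 := hV0 n hn
          have h2 : ∑ i ∈ Ico b (j + 1), aw i * (if n < L then X i n else 0) = 0 := by
            apply sum_eq_zero; intro i _; rw [hX0 i n hn]; simp
          rw [h1, h2]; simp
        · simp only [hn, if_false, zero_add]
          by_cases hnL : n < L
          · simp only [hnL, if_true]; exact hxx n (by omega)
          · rw [hx0 n (by omega)]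
            simp only [hnL, if_false, mul_zero, sum_const_zero, add_zero]
            exact hV.nonneg n

/-- `BN`: for `3 ≤ b ≤ j`, sums of `NN j` level-`b` functionals have `ρ ≤ 2·4^j` at level `b`. -/
theorem BN {b j : ℕ} (hb : 3 ≤ b) (hbj : b ≤ j) {x : ℕ → ℝ} (hx : SN (NN j) b x) :
    SR 1 b (2 * 4 ^ j) x := by
  obtain ⟨L, hL⟩ := hx.fin
  exact BN_aux L b j L hb hbj (by omega) x hx hL

theorem BN_SR {b j : ℕ} (hb : 3 ≤ b) (hbj : b ≤ j) {r : ℝ} {x : ℕ → ℝ} (hx : SR (NN j) b r x) :
    SR 1 b (r * (2 * 4 ^ j)) x := by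
  obtain ⟨hr, y, hy, hxy⟩ := hx
  exact ((BN hb hbj hy).smul hr).le hxy

/-- general form: sums of at most `2^e` functionals of level `3` have `ρ ≤ 128 + 8 e`. -/
theorem BN' {Q e : ℕ} (hQ : Q ≤ 2 ^ e) {x : ℕ → ℝ} (hx : SN Q 3 x) :
    SR 1 3 (128 + 8 * e) x := by
  by_cases he : e ≤ 64
  · have h1 : Q ≤ NN 3 := by
      refine hQ.trans ?_
      unfold NN
      exact Nat.pow_le_pow_right (by norm_num) he
    have := BN (le_refl 3) (le_refl 3) (hx.mono_N h1)
    refine this.mono_r ?_
    have : (0:ℝ) ≤ e := Nat.cast_nonneg e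
    norm_num
  · push Not at he
    -- choose j with 4^(j-1) < e ≤ 4^j
    have hex : ∃ j, e ≤ 4 ^ j := ⟨e, (Nat.lt_pow_self (by norm_num)).le⟩
    classical
    set j := Nat.find hex with hj
    have h1 : e ≤ 4 ^ j := Nat.find_spec hex
    have h3 : 3 < j := by
      by_contra hcon
      push Not at hcon
      have : 4 ^ j ≤ 4 ^ 3 := Nat.pow_le_pow_right (by norm_num) hcon
      norm_num at this; omega
    have h2 : ¬ e ≤ 4 ^ (j - 1) := Nat.find_min hex (by omega)
    have h4 : Q ≤ NN j := by
      refine hQ.trans ?_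
      unfold NN
      exact Nat.pow_le_pow_right (by norm_num) h1
    have := BN (le_refl 3) h3.le (hx.mono_N h4)
    refine this.mono_r ?_
    have h5 : 4 ^ j = 4 * 4 ^ (j - 1) := by
      conv_lhs => rw [show j = (j - 1) + 1 by omega]
      rw [pow_succ]; ring
    have h6 : (4:ℝ) ^ j ≤ 4 * e := by
      have : 4 ^ j ≤ 4 * e := by omega
      exact_mod_cast this
    linarith

theorem BN'_SR {Q e : ℕ} (hQ : Q ≤ 2 ^ e) {r : ℝ} {x : ℕ → ℝ} (hx : SR Q 3 r x) :
    SR 1 3 (r * (128 + 8 * e)) x := by
  obtain ⟨hr, y, hy, hxy⟩ := hx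
  exact ((BN' hQ hy).smul hr).le hxy

end Pool.Agent.H27.Spread
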