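import Mathlib

set_option autoImplicit false

/-! Basic definitions for the counterexample to the countable spreading model problem. -/

namespace Pool.Agent.H27.Spread
open Finset

/-- weights `4^{-j}` -/
noncomputable def aw (j : ℕ) : ℝ := (1 / 4 : ℝ) ^ j

/-- admissible numbers of summands `2^(4^j)` -/
def NN (j : ℕ) : ℕ := 2 ^ (4 ^ j)

/-- the point mass at `n` -/
noncomputable def sg (n : ℕ) : ℕ → ℝ := fun m => if m = n then 1 else 0

/-- `GS N b β x`: the function `x` is in the solid convex hull of the disjoint sums of `N` level-`b`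
functionals; `β` is the (distribution of the) anchors. -/
inductive GS : ℕ → ℕ → (ℕ → ℝ) → (ℕ → ℝ) → Prop
  | zero (N b : ℕ) : GS N b (fun _ => 0) (fun _ => 0)
  | single (b n : ℕ) : GS 1 b (sg n) (sg n)
  | op (b k : ℕ) (B X : ℕ → ℕ → ℝ) (h : ∀ j ∈ Ico b k, GS (NN j) k (B j) (X j))
      (h0 : ∀ j ∈ Ico b k, ∀ n < k, X j n = 0) :
      GS 1 b (sg k) (fun n => ∑ j ∈ Ico b k, aw j * X j n)
  | add (N N' b : ℕ) (β β' x x' : ℕ → ℝ) (h : GS N b β x) (h' : GS N' b β' x')
      (hd : ∀ n, x n = 0 ∨ x' n = 0) :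
      GS (N + N') b (fun n => β n + β' n) (fun n => x n + x' n)
  | comb (N b : ℕ) (β β' x x' : ℕ → ℝ) (s t : ℝ) (hs : 0 ≤ s) (ht : 0 ≤ t) (hst : s + t ≤ 1)
      (h : GS N b β x) (h' : GS N b β' x') :
      GS N b (fun n => s * β n + t * β' n) (fun n => s * x n + t * x' n)
  | solid (N b : ℕ) (β x x' : ℕ → ℝ) (h : GS N b β x) (h0 : ∀ n, 0 ≤ x' n)
      (hx : ∀ n, x' n ≤ x n) : GS N b β x'

/-- forgetting the anchors -/
def SN (N b : ℕ) (x : ℕ → ℝ) : Prop := ∃ β, GS N b β x

/-- `z ∈ r · S_N(b)` up to solidity -/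
def SR (N b : ℕ) (r : ℝ) (z : ℕ → ℝ) : Prop := 0 ≤ r ∧ ∃ x, SN N b x ∧ ∀ n, z n ≤ r * x n

/-! ### numerics -/

lemma aw_pos (j : ℕ) : 0 < aw j := by unfold aw; positivity
lemma aw_nonneg (j : ℕ) : 0 ≤ aw j := (aw_pos j).le
lemma aw_succ (j : ℕ) : aw (j + 1) = aw j / 4 := by unfold aw; rw [pow_succ]; ring
lemma aw_four (j : ℕ) : aw j = 4 * aw (j + 1) := by rw [aw_succ]; ring
lemma aw_mul (j : ℕ) : aw j * 4 ^ j = 1 := by
  unfold aw; rw [← mul_pow]; norm_num
lemma aw_anti {i j : ℕ} (h : i ≤ j) : aw j ≤ aw i := by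
  unfold aw; exact pow_le_pow_of_le_one (by norm_num) (by norm_num) h
lemma aw_le_one (j : ℕ) : aw j ≤ 1 := by
  unfold aw; exact pow_le_one₀ (by norm_num) (by norm_num)

/-- geometric sum of the weights -/
lemma aw_sum_Ico (b k : ℕ) : ∑ j ∈ Ico b k, aw j ≤ 4 / 3 * aw b := by
  rcases le_total k b with h | h
  · rw [Ico_eq_empty_of_le h]; simp; exact aw_nonneg b
  · have : ∀ k, b ≤ k → ∑ j ∈ Ico b k, aw j = 4 / 3 * (aw b - aw k) := by
      intro k hk
      induction k, hk using Nat.le_induction with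
      | base => simp
      | succ k hk ih => rw [sum_Ico_succ_top hk, ih, aw_succ]; ring
    rw [this k h]; nlinarith [aw_nonneg k]

lemma aw_sum_Icc (b k : ℕ) : ∑ j ∈ Icc b k, aw j ≤ 4 / 3 * aw b := by
  have : Icc b k = Ico b (k + 1) := by ext; simp
  rw [this]; exact aw_sum_Ico _ _

lemma aw_sum_le_one {b : ℕ} (hb : 1 ≤ b) (k : ℕ) : ∑ j ∈ Ico b k, aw j ≤ 1 := by
  have h1 := aw_sum_Ico b k
  have h2 : aw b ≤ aw 1 := aw_anti hb
  have h3 : aw 1 = 1 / 4 := by unfold aw; norm_num
  linarith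

lemma NN_pos (j : ℕ) : 0 < NN j := by unfold NN; positivity
lemma NN_mono {i j : ℕ} (h : i ≤ j) : NN i ≤ NN j := by
  unfold NN; exact Nat.pow_le_pow_right (by norm_num) (Nat.pow_le_pow_right (by norm_num) h)

/-- products of the admissible numbers -/
def PP (b j : ℕ) : ℕ := ∏ i ∈ Icc b j, NN i

lemma PP_pos (b j : ℕ) : 0 < PP b j := by
  unfold PP; exact prod_pos (fun i _ => NN_pos i)

lemma PP_eq (b j : ℕ) : PP b j = 2 ^ (∑ i ∈ Icc b j, 4 ^ i) := by
  unfold PP NN; rw [prod_pow_eq_pow_sum]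

lemma four_sum (b j : ℕ) (h : b ≤ j) : 3 * ∑ i ∈ Icc b j, 4 ^ i + 4 ^ b = 4 ^ (j + 1) := by
  induction j, h using Nat.le_induction with
  | base => simp; ring
  | succ j hj ih => rw [sum_Icc_succ_top (by omega), mul_add]; rw [pow_succ 4 (j+1)]; omega

/-- `n · P b j ≤ NN (j+1)` for `n ≤ NN j`. -/
lemma mul_PP_le {n b j : ℕ} (hb : b ≤ j) (hn : n ≤ NN j) : n * PP b j ≤ NN (j + 1) := by
  calc n * PP b j ≤ NN j * PP b j := Nat.mul_le_mul_right _ hn
    _ = 2 ^ (4 ^ j + ∑ i ∈ Icc b j, 4 ^ i) := by rw [PP_eq]; unfold NN; rw [pow_add]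
    _ ≤ 2 ^ (4 ^ (j + 1)) := by
        apply Nat.pow_le_pow_right (by norm_num)
        have := four_sum b j hb
        have h2 : 4 ^ (j+1) = 4 * 4 ^ j := by ring
        linarith [Nat.zero_le (4 ^ b), Nat.zero_le (4 ^ j)]
    _ = NN (j + 1) := rfl

lemma PP_le {b j : ℕ} (hb : b ≤ j) : PP b j ≤ NN (j + 1) := by
  have := mul_PP_le (n := 1) hb (NN_pos j)
  simpa using this

/-- `PP b j ≤ 2^(2·4^j)` -/
lemma PP_le_two (b j : ℕ) (hb : b ≤ j) : PP b j ≤ 2 ^ (2 * 4 ^ j) := by
  rw [PP_eq]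
  apply Nat.pow_le_pow_right (by norm_num)
  have := four_sum b j hb
  have h2 : 4 ^ (j+1) = 4 * 4 ^ j := by ring
  linarith [Nat.zero_le (4 ^ b), Nat.zero_le (4 ^ j)]

lemma NN_mul_NN_le {n κ j : ℕ} (hn : n ≤ NN κ) (h : κ ≤ j) : n * NN j ≤ NN (j + 1) := by
  calc n * NN j ≤ NN j * NN j := Nat.mul_le_mul_right _ (hn.trans (NN_mono h))
    _ = 2 ^ (4 ^ j + 4 ^ j) := by unfold NN; rw [pow_add]
    _ ≤ 2 ^ (4 ^ (j + 1)) := by
        apply Nat.pow_le_pow_right (by norm_num)
        have h2 : 4 ^ (j+1) = 4 * 4 ^ j := by ring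
        omega
    _ = NN (j + 1) := rfl

lemma NN_le_PP {b j : ℕ} (hb : b ≤ j) : NN j ≤ PP b j := by
  have h : NN j ∣ PP b j := dvd_prod_of_mem _ (by simp [hb])
  exact Nat.le_of_dvd (PP_pos b j) h

/-- `NN j * PP k i ≤ PP b i` for `b ≤ j < k ≤ i`. -/
lemma NN_mul_PP {b j k i : ℕ} (h1 : b ≤ j) (h2 : j < k) (h3 : k ≤ i) : NN j * PP k i ≤ PP b i := by
  unfold PP
  have hsub : insert j (Icc k i) ⊆ Icc b i := by
    intro x hx
    simp only [mem_insert, mem_Icc] at hx ⊢
    omega
  calc NN j * ∏ i ∈ Icc k i, NN i = ∏ i ∈ insert j (Icc k i), NN i := by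
        rw [prod_insert]; simp; omega
    _ ≤ ∏ i ∈ Icc b i, NN i := by
        apply Nat.le_of_dvd (prod_pos (fun i _ => NN_pos i))
        exact prod_dvd_prod_of_subset _ _ _ hsub

/-! ### basic properties of `GS` -/

lemma sg_nonneg (k n : ℕ) : 0 ≤ sg k n := by unfold sg; split_ifs <;> norm_num
lemma sg_le_one (k n : ℕ) : sg k n ≤ 1 := by unfold sg; split_ifs <;> norm_num
lemma sg_self (k : ℕ) : sg k k = 1 := by simp [sg]
lemma sg_ne {k n : ℕ} (h : n ≠ k) : sg k n = 0 := by simp [sg, h]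

lemma GS.nonneg {N b : ℕ} {β x : ℕ → ℝ} (h : GS N b β x) : ∀ n, 0 ≤ x n := by
  induction h with
  | zero => simp
  | single b n => exact sg_nonneg n
  | op b k B X h h0 ih =>
      intro n; exact sum_nonneg (fun j hj => mul_nonneg (aw_nonneg j) (ih j hj n))
  | add N N' b β β' x x' h h' hd ih ih' => intro n; exact add_nonneg (ih n) (ih' n)
  | comb N b β β' x x' s t hs ht hst h h' ih ih' =>
      intro n; exact add_nonneg (mul_nonneg hs (ih n)) (mul_nonneg ht (ih' n))
  | solid N b β x x' h h0 hx ih => exact h0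

lemma GS.meas_nonneg {N b : ℕ} {β x : ℕ → ℝ} (h : GS N b β x) : ∀ n, 0 ≤ β n := by
  induction h with
  | zero => simp
  | single b n => exact sg_nonneg n
  | op b k B X h h0 ih => exact sg_nonneg k
  | add N N' b β β' x x' h h' hd ih ih' => intro n; exact add_nonneg (ih n) (ih' n)
  | comb N b β β' x x' s t hs ht hst h h' ih ih' =>
      intro n; exact add_nonneg (mul_nonneg hs (ih n)) (mul_nonneg ht (ih' n))
  | solid N b β x x' h h0 hx ih => exact ih

lemma sum_sg_le (k : ℕ) (s : Finset ℕ) : ∑ n ∈ s, sg k n ≤ 1 := by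
  unfold sg
  rw [sum_ite_eq' s k (fun _ => (1:ℝ))]
  split_ifs <;> norm_num

lemma GS.mass_le {N b : ℕ} {β x : ℕ → ℝ} (h : GS N b β x) : ∀ s : Finset ℕ, ∑ n ∈ s, β n ≤ N := by
  induction h with
  | zero N b => intro s; simp
  | single b n => intro s; simpa using sum_sg_le n s
  | op b k B X h h0 ih => intro s; simpa using sum_sg_le k s
  | add N N' b β β' x x' h h' hd ih ih' =>
      intro s; rw [sum_add_distrib]; push_cast; exact add_le_add (ih s) (ih' s)
  | comb N b β β' x x' s t hs ht hst h h' ih ih' =>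
      intro u
      rw [sum_add_distrib, ← mul_sum, ← mul_sum]
      have h1 := mul_le_mul_of_nonneg_left (ih u) hs
      have h2 := mul_le_mul_of_nonneg_left (ih' u) ht
      have h3 : (0:ℝ) ≤ N := Nat.cast_nonneg N
      nlinarith
  | solid N b β x x' h h0 hx ih => exact ih

lemma GS.le_one {N b : ℕ} {β x : ℕ → ℝ} (h : GS N b β x) : 1 ≤ b → ∀ n, x n ≤ 1 := by
  induction h with
  | zero N b => intro _ n; simp
  | single b n => intro _; exact sg_le_one n
  | op b k B X h h0 ih =>
      intro hb n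
      calc ∑ j ∈ Ico b k, aw j * X j n ≤ ∑ j ∈ Ico b k, aw j := by
            apply sum_le_sum
            intro j hj
            have hk : 1 ≤ k := by simp only [mem_Ico] at hj; omega
            have := ih j hj hk n
            nlinarith [aw_nonneg j]
        _ ≤ 1 := aw_sum_le_one hb k
  | add N N' b β β' x x' h h' hd ih ih' =>
      intro hb n
      rcases hd n with h1 | h1
      · simp only [h1, zero_add]; exact ih' hb n
      · simp only [h1, add_zero]; exact ih hb n
  | comb N b β β' x x' s t hs ht hst h h' ih ih' =>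
      intro hb n
      have h1 := mul_le_mul_of_nonneg_left (ih hb n) hs
      have h2 := mul_le_mul_of_nonneg_left (ih' hb n) ht
      show s * x n + t * x' n ≤ 1
      linarith
  | solid N b β x x' h h0 hx ih => intro hb n; exact (hx n).trans (ih hb n)

lemma GS.fin {N b : ℕ} {β x : ℕ → ℝ} (h : GS N b β x) : ∃ L, ∀ n, L ≤ n → β n = 0 ∧ x n = 0 := by
  induction h with
  | zero N b => exact ⟨0, by simp⟩
  | single b n => exact ⟨n+1, fun m hm => ⟨sg_ne (by omega), sg_ne (by omega)⟩⟩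
  | op b k B X h h0 ih =>
      choose! L hL using ih
      refine ⟨(k + 1) ⊔ (Ico b k).sup L, fun n hn => ⟨sg_ne ?_, ?_⟩⟩
      · have : k + 1 ≤ n := le_trans le_sup_left hn
        omega
      · apply sum_eq_zero
        intro j hj
        have h1 : L j ≤ n := (le_sup (f := L) hj).trans (le_trans le_sup_right hn)
        rw [(hL j hj n h1).2, mul_zero]
  | add N N' b β β' x x' h h' hd ih ih' =>
      obtain ⟨L, hL⟩ := ih
      obtain ⟨L', hL'⟩ := ih'
      refine ⟨L ⊔ L', fun n hn => ?_⟩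
      have h1 := hL n (le_trans le_sup_left hn)
      have h2 := hL' n (le_trans le_sup_right hn)
      simp [h1.1, h1.2, h2.1, h2.2]
  | comb N b β β' x x' s t hs ht hst h h' ih ih' =>
      obtain ⟨L, hL⟩ := ih
      obtain ⟨L', hL'⟩ := ih'
      refine ⟨L ⊔ L', fun n hn => ?_⟩
      have h1 := hL n (le_trans le_sup_left hn)
      have h2 := hL' n (le_trans le_sup_right hn)
      simp [h1.1, h1.2, h2.1, h2.2]
  | solid N b β x x' h h0 hx ih =>
      obtain ⟨L, hL⟩ := ih
      refine ⟨L, fun n hn => ⟨(hL n hn).1, le_antisymm ?_ (h0 n)⟩⟩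
      have := hx n
      rw [(hL n hn).2] at this
      exact this

lemma GS.mono_N {N N' b : ℕ} {β x : ℕ → ℝ} (h : GS N b β x) (hN : N ≤ N') : GS N' b β x := by
  obtain ⟨M, rfl⟩ := Nat.exists_eq_add_of_le hN
  have := GS.add N M b β (fun _ => 0) x (fun _ => 0) h (GS.zero M b) (fun n => Or.inr rfl)
  simpa using this

lemma GS.mono_b {N b' : ℕ} {β x : ℕ → ℝ} (h : GS N b' β x) : ∀ b, b ≤ b' → GS N b β x := by
  induction h with
  | zero N b' => intro b hb; exact GS.zero N b
  | single b' n => intro b hb; exact GS.single b n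
  | op b' k B X h h0 ih =>
      intro b hb
      have := GS.op b k (fun j => if j ∈ Ico b' k then B j else fun _ => 0)
        (fun j => if j ∈ Ico b' k then X j else fun _ => 0) (by
          intro j hj
          by_cases hj' : j ∈ Ico b' k
          · simp only [hj', if_true]; exact h j hj'
          · simp only [hj', if_false]; exact GS.zero _ _) (by
          intro j hj n hn
          by_cases hj' : j ∈ Ico b' k
          · simp only [hj', if_true]; exact h0 j hj' n hn
          · simp only [hj', if_false])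
      refine GS.solid _ _ _ _ _ this ?_ ?_
      · intro n; exact sum_nonneg (fun j hj => mul_nonneg (aw_nonneg j) ((h j hj).nonneg n))
      · intro n
        have hsub : Ico b' k ⊆ Ico b k := Ico_subset_Ico hb le_rfl
        rw [← sum_subset hsub (f := fun j => aw j * (if j ∈ Ico b' k then X j else fun _ => 0) n)]
        · apply le_of_eq
          apply sum_congr rfl
          intro j hj; simp only [hj, if_true]
        · intro j _ hj; simp only [hj, if_false, mul_zero]
  | add N N' b' β β' x x' h h' hd ih ih' => intro b hb; exact GS.add _ _ _ _ _ _ _ (ih b hb) (ih' b hb) hd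
  | comb N b' β β' x x' s t hs ht hst h h' ih ih' =>
      intro b hb; exact GS.comb _ _ _ _ _ _ s t hs ht hst (ih b hb) (ih' b hb)
  | solid N b' β x x' h h0 hx ih => intro b hb; exact GS.solid _ _ _ _ _ (ih b hb) h0 hx

/-- restricting to an arbitrary set keeps the anchors -/
lemma GS.restrict {N b : ℕ} {β x : ℕ → ℝ} (h : GS N b β x) (p : ℕ → Prop) [DecidablePred p] :
    GS N b β (fun n => if p n then x n else 0) := by
  refine GS.solid _ _ _ _ _ h ?_ ?_ <;> intro n <;> by_cases hp : p n <;> simp [hp, h.nonneg n]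

/-- restricting to an initial segment also cuts the anchors -/
lemma GS.restrict_lt {N b : ℕ} {β x : ℕ → ℝ} (h : GS N b β x) (τ : ℕ) :
    GS N b (fun n => if n < τ then β n else 0) (fun n => if n < τ then x n else 0) := by
  induction h with
  | zero N b => simpa using GS.zero N b
  | single b n =>
      by_cases hn : n < τ
      · have h1 : (fun m => if m < τ then sg n m else 0) = sg n := by
          funext m
          by_cases hm : m = n
          · subst hm; simp [hn]
          · simp [sg_ne hm]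
        rw [h1]; exact GS.single b n
      · have h1 : (fun m => if m < τ then sg n m else 0) = fun _ => 0 := by
          funext m
          by_cases hm : m = n
          · subst hm; simp [hn]
          · simp [sg_ne hm]
        rw [h1]; exact GS.zero 1 b
  | op b k B X h h0 ih =>
      by_cases hk : k < τ
      · have h1 : (fun m => if m < τ then sg k m else 0) = sg k := by
          funext m
          by_cases hm : m = k
          · subst hm; simp [hk]
          · simp [sg_ne hm]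
        rw [h1]
        exact (GS.op b k B X h h0).restrict (fun n => n < τ)
      · have h1 : (fun m => if m < τ then sg k m else 0) = fun _ => 0 := by
          funext m
          by_cases hm : m = k
          · subst hm; simp [hk]
          · simp [sg_ne hm]
        rw [h1]
        have h2 : (fun n => if n < τ then ∑ j ∈ Ico b k, aw j * X j n else 0) = fun _ => 0 := by
          funext n
          by_cases hn : n < τ
          · simp only [hn, if_true]
            apply sum_eq_zero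
            intro j hj
            rw [h0 j hj n (by omega), mul_zero]
          · simp [hn]
        rw [h2]; exact GS.zero 1 b
  | add N N' b β β' x x' h h' hd ih ih' =>
      have := GS.add _ _ _ _ _ _ _ ih ih' (by
        intro n
        rcases hd n with h1 | h1
        · left; simp [h1]
        · right; simp [h1])
      have e1 : (fun n => (if n < τ then β n else 0) + if n < τ then β' n else 0) =
          fun n => if n < τ then β n + β' n else 0 := by funext n; split_ifs <;> simp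
      have e2 : (fun n => (if n < τ then x n else 0) + if n < τ then x' n else 0) =
          fun n => if n < τ then x n + x' n else 0 := by funext n; split_ifs <;> simp
      rwa [e1, e2] at this
  | comb N b β β' x x' s t hs ht hst h h' ih ih' =>
      have := GS.comb _ _ _ _ _ _ s t hs ht hst ih ih'
      have e1 : (fun n => s * (if n < τ then β n else 0) + t * if n < τ then β' n else 0) =
          fun n => if n < τ then s * β n + t * β' n else 0 := by funext n; split_ifs <;> simp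
      have e2 : (fun n => s * (if n < τ then x n else 0) + t * if n < τ then x' n else 0) =
          fun n => if n < τ then s * x n + t * x' n else 0 := by funext n; split_ifs <;> simp
      rwa [e1, e2] at this
  | solid N b β x x' h h0 hx ih =>
      refine GS.solid _ _ _ _ _ ih ?_ ?_ <;> intro n <;> by_cases hn : n < τ <;> simp [hn, h0 n, hx n]

/-! ### `SN` -/

lemma SN.nonneg {N b : ℕ} {x : ℕ → ℝ} (h : SN N b x) : ∀ n, 0 ≤ x n := by
  obtain ⟨β, h⟩ := h; exact h.nonneg
lemma SN.le_one {N b : ℕ} {x : ℕ → ℝ} (h : SN N b x) (hb : 1 ≤ b) : ∀ n, x n ≤ 1 := by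
  obtain ⟨β, h⟩ := h; exact h.le_one hb
lemma SN.mono_N {N N' b : ℕ} {x : ℕ → ℝ} (h : SN N b x) (hN : N ≤ N') : SN N' b x := by
  obtain ⟨β, h⟩ := h; exact ⟨β, h.mono_N hN⟩
lemma SN.mono_b {N b b' : ℕ} {x : ℕ → ℝ} (h : SN N b' x) (hb : b ≤ b') : SN N b x := by
  obtain ⟨β, h⟩ := h; exact ⟨β, h.mono_b b hb⟩
lemma SN.zero (N b : ℕ) : SN N b (fun _ => 0) := ⟨_, GS.zero N b⟩
lemma SN.single (b n : ℕ) : SN 1 b (sg n) := ⟨_, GS.single b n⟩
lemma SN.solid {N b : ℕ} {x x' : ℕ → ℝ} (h : SN N b x) (h0 : ∀ n, 0 ≤ x' n)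
    (hx : ∀ n, x' n ≤ x n) : SN N b x' := by
  obtain ⟨β, h⟩ := h; exact ⟨β, GS.solid _ _ _ _ _ h h0 hx⟩
lemma SN.restrict {N b : ℕ} {x : ℕ → ℝ} (h : SN N b x) (p : ℕ → Prop) [DecidablePred p] :
    SN N b (fun n => if p n then x n else 0) := by
  obtain ⟨β, h⟩ := h; exact ⟨β, h.restrict p⟩
lemma SN.op {b k : ℕ} {X : ℕ → ℕ → ℝ} (h : ∀ j ∈ Ico b k, SN (NN j) k (X j))
    (h0 : ∀ j ∈ Ico b k, ∀ n < k, X j n = 0) : SN 1 b (fun n => ∑ j ∈ Ico b k, aw j * X j n) := by
  choose! B hB using h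
  exact ⟨_, GS.op b k B X hB h0⟩
lemma SN.comb {N b : ℕ} {x x' : ℕ → ℝ} {s t : ℝ} (hs : 0 ≤ s) (ht : 0 ≤ t) (hst : s + t ≤ 1)
    (h : SN N b x) (h' : SN N b x') : SN N b (fun n => s * x n + t * x' n) := by
  obtain ⟨β, h⟩ := h; obtain ⟨β', h'⟩ := h'; exact ⟨_, GS.comb _ _ _ _ _ _ s t hs ht hst h h'⟩
lemma SN.add {N N' b : ℕ} {x x' : ℕ → ℝ} (h : SN N b x) (h' : SN N' b x')
    (hd : ∀ n, x n = 0 ∨ x' n = 0) : SN (N + N') b (fun n => x n + x' n) := by
  obtain ⟨β, h⟩ := h; obtain ⟨β', h'⟩ := h'; exact ⟨_, GS.add _ _ _ _ _ _ _ h h' hd⟩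
lemma SN.fin {N b : ℕ} {x : ℕ → ℝ} (h : SN N b x) : ∃ L, ∀ n, L ≤ n → x n = 0 := by
  obtain ⟨β, h⟩ := h; obtain ⟨L, hL⟩ := h.fin; exact ⟨L, fun n hn => (hL n hn).2⟩

/-- weighted averages stay in `SN` -/
lemma SN.sum_comb {ι : Type*} {N b : ℕ} (s : Finset ι) (c : ι → ℝ) (X : ι → ℕ → ℝ)
    (hc : ∀ i ∈ s, 0 ≤ c i) (hc1 : ∑ i ∈ s, c i ≤ 1) (h : ∀ i ∈ s, SN N b (X i)) :
    SN N b (fun n => ∑ i ∈ s, c i * X i n) := by
  classical
  induction s using Finset.induction_on generalizing c with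
  | empty => simpa using SN.zero N b
  | insert a s ha ih =>
      have hca : 0 ≤ c a := hc a (mem_insert_self a s)
      rw [sum_insert ha] at hc1
      have hcs : ∀ i ∈ s, 0 ≤ c i := fun i hi => hc i (mem_insert_of_mem hi)
      by_cases hS : ∑ i ∈ s, c i = 0
      · have hz : ∀ i ∈ s, c i = 0 := (sum_eq_zero_iff_of_nonneg hcs).1 hS
        have e : (fun n => ∑ i ∈ insert a s, c i * X i n) = fun n => c a * X a n + 0 * X a n := by
          funext n
          rw [sum_insert ha, sum_eq_zero (s := s) (fun i hi => by rw [hz i hi, zero_mul])]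
          ring
        rw [e]
        exact SN.comb hca le_rfl (by linarith) (h a (mem_insert_self a s)) (h a (mem_insert_self a s))
      · have hSpos : 0 < ∑ i ∈ s, c i := lt_of_le_of_ne (sum_nonneg hcs) (Ne.symm hS)
        have := ih (fun i => c i / ∑ i ∈ s, c i) (fun i hi => div_nonneg (hcs i hi) hSpos.le)
          (by rw [← sum_div, div_self hS]) (fun i hi => h i (mem_insert_of_mem hi))
        have h2 := SN.comb hca hSpos.le hc1 (h a (mem_insert_self a s)) this
        have e : (fun n => ∑ i ∈ insert a s, c i * X i n) =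
            fun n => c a * X a n + (∑ i ∈ s, c i) * ∑ i ∈ s, c i / (∑ i ∈ s, c i) * X i n := by
          funext n
          rw [sum_insert ha, mul_sum]
          congr 1
          apply sum_congr rfl
          intro i hi
          field_simp
        rw [e]; exact h2

/-! ### `SR` -/

lemma SR.of_SN {N b : ℕ} {x : ℕ → ℝ} (h : SN N b x) : SR N b 1 x :=
  ⟨zero_le_one, x, h, fun n => by simp⟩
lemma SR.rnonneg {N b : ℕ} {r : ℝ} {x : ℕ → ℝ} (h : SR N b r x) : 0 ≤ r := h.1
lemma SR.zero (N b : ℕ) {r : ℝ} (hr : 0 ≤ r) : SR N b r (fun _ => 0) :=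
  ⟨hr, _, SN.zero N b, fun n => by simp⟩
lemma SR.le {N b : ℕ} {r : ℝ} {x x' : ℕ → ℝ} (h : SR N b r x) (hx : ∀ n, x' n ≤ x n) :
    SR N b r x' := by
  obtain ⟨hr, y, hy, hxy⟩ := h; exact ⟨hr, y, hy, fun n => (hx n).trans (hxy n)⟩
lemma SR.mono_r {N b : ℕ} {r r' : ℝ} {x : ℕ → ℝ} (h : SR N b r x) (hr : r ≤ r') : SR N b r' x := by
  obtain ⟨hr0, y, hy, hxy⟩ := h
  exact ⟨hr0.trans hr, y, hy, fun n => (hxy n).trans (mul_le_mul_of_nonneg_right hr (hy.nonneg n))⟩
lemma SR.mono_N {N N' b : ℕ} {r : ℝ} {x : ℕ → ℝ} (h : SR N b r x) (hN : N ≤ N') : SR N' b r x := by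
  obtain ⟨hr0, y, hy, hxy⟩ := h; exact ⟨hr0, y, hy.mono_N hN, hxy⟩
lemma SR.mono_b {N b b' : ℕ} {r : ℝ} {x : ℕ → ℝ} (h : SR N b' r x) (hb : b ≤ b') : SR N b r x := by
  obtain ⟨hr0, y, hy, hxy⟩ := h; exact ⟨hr0, y, hy.mono_b hb, hxy⟩
lemma SR.smul {N b : ℕ} {r : ℝ} {x : ℕ → ℝ} (h : SR N b r x) {c : ℝ} (hc : 0 ≤ c) :
    SR N b (c * r) (fun n => c * x n) := by
  obtain ⟨hr0, y, hy, hxy⟩ := h
  exact ⟨mul_nonneg hc hr0, y, hy, fun n => by rw [mul_assoc]; exact mul_le_mul_of_nonneg_left (hxy n) hc⟩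
lemma SR.add {N b : ℕ} {r r' : ℝ} {x x' : ℕ → ℝ} (h : SR N b r x) (h' : SR N b r' x') :
    SR N b (r + r') (fun n => x n + x' n) := by
  obtain ⟨hr, y, hy, hxy⟩ := h
  obtain ⟨hr', y', hy', hxy'⟩ := h'
  rcases (add_nonneg hr hr').eq_or_lt with h0 | h0
  · have h1 : r = 0 := by linarith
    have h2 : r' = 0 := by linarith
    subst h1 h2
    refine ⟨by norm_num, y, hy, fun n => ?_⟩
    have := hxy n; have := hxy' n
    simp at *; linarith
  · refine ⟨h0.le, _, SN.comb (s := r / (r + r')) (t := r' / (r + r')) (by positivity) (by positivity)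
      (by rw [← add_div, div_self h0.ne']) hy hy', fun n => ?_⟩
    have e : (r + r') * (r / (r + r') * y n + r' / (r + r') * y' n) = r * y n + r' * y' n := by
      field_simp
    rw [e]; exact add_le_add (hxy n) (hxy' n)
lemma SR.sum {ι : Type*} {N b : ℕ} (s : Finset ι) (r : ι → ℝ) (X : ι → ℕ → ℝ)
    (h : ∀ i ∈ s, SR N b (r i) (X i)) : SR N b (∑ i ∈ s, r i) (fun n => ∑ i ∈ s, X i n) := by
  classical
  induction s using Finset.induction_on with
  | empty => simpa using SR.zero N b le_rfl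
  | insert a s ha ih =>
      have h1 := SR.add (h a (mem_insert_self a s)) (ih (fun i hi => h i (mem_insert_of_mem hi)))
      simpa [sum_insert ha] using h1
lemma SR.addDisj {N N' b : ℕ} {r : ℝ} {x x' : ℕ → ℝ} (h : SR N b r x) (h' : SR N' b r x')
    (hd : ∀ n, x n = 0 ∨ x' n = 0) : SR (N + N') b r (fun n => x n + x' n) := by
  classical
  obtain ⟨hr, y, hy, hxy⟩ := h
  obtain ⟨hr', y', hy', hxy'⟩ := h'
  refine ⟨hr, _, SN.add (hy.restrict (fun n => x' n = 0)) (hy'.restrict (fun n => x' n ≠ 0)) ?_, ?_⟩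
  · intro n
    by_cases h1 : x' n = 0
    · right; simp [h1]
    · left; simp [h1]
  · intro n
    by_cases h1 : x' n = 0
    · simp only [h1, if_true, ne_eq, not_true_eq_false, if_false, add_zero]; exact hxy n
    · have h2 : x n = 0 := (hd n).resolve_right h1
      simp only [h1, if_false, ne_eq, not_false_eq_true, if_true, zero_add, h2]; exact hxy' n
lemma SR.sumDisj {ι : Type*} {b : ℕ} {r : ℝ} (hr : 0 ≤ r) (s : Finset ι) (N : ι → ℕ)
    (X : ι → ℕ → ℝ) (h : ∀ i ∈ s, SR (N i) b r (X i))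
    (hd : ∀ i ∈ s, ∀ j ∈ s, i ≠ j → ∀ n, X i n = 0 ∨ X j n = 0) :
    SR (∑ i ∈ s, N i) b r (fun n => ∑ i ∈ s, X i n) := by
  classical
  induction s using Finset.induction_on with
  | empty => simpa using SR.zero 0 b hr
  | insert a s ha ih =>
      have h0 := ih (fun i hi => h i (mem_insert_of_mem hi))
        (fun i hi j hj => hd i (mem_insert_of_mem hi) j (mem_insert_of_mem hj))
      have h1 := SR.addDisj (h a (mem_insert_self a s)) h0 (by
        intro n
        by_cases h2 : X a n = 0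
        · left; exact h2
        · right
          apply sum_eq_zero
          intro i hi
          have hne : a ≠ i := by rintro rfl; exact ha hi
          exact (hd a (mem_insert_self a s) i (mem_insert_of_mem hi) hne n).resolve_left h2)
      simpa [sum_insert ha] using h1
lemma SR.restrict {N b : ℕ} {r : ℝ} {x : ℕ → ℝ} (h : SR N b r x) (p : ℕ → Prop) [DecidablePred p]  :
    SR N b r (fun n => if p n then x n else 0) := by
  obtain ⟨hr, y, hy, hxy⟩ := h
  refine ⟨hr, _, hy.restrict p, fun n => ?_⟩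
  by_cases hp : p n
  · simp only [hp, if_true]; exact hxy n
  · simp [hp]
/-- from `SR` to `SN` after scaling -/
lemma SR.to_SN {N b : ℕ} {r : ℝ} {x : ℕ → ℝ} (h : SR N b r x) {c : ℝ} (hc : 0 ≤ c) (hcr : c * r ≤ 1)
    (hx : ∀ n, 0 ≤ x n) : SN N b (fun n => c * x n) := by
  obtain ⟨hr, y, hy, hxy⟩ := h
  refine hy.solid (fun n => mul_nonneg hc (hx n)) (fun n => ?_)
  calc c * x n ≤ c * (r * y n) := mul_le_mul_of_nonneg_left (hxy n) hc
    _ = (c * r) * y n := by ring
    _ ≤ 1 * y n := mul_le_mul_of_nonneg_right hcr (hy.nonneg n)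
    _ = y n := one_mul _

/-- a function bounded by `1` and supported in `[0, κ)` -/
lemma SR.of_bdd {b κ : ℕ} {x : ℕ → ℝ} (hx1 : ∀ n, x n ≤ 1) (hx : ∀ n, κ ≤ n → x n ≤ 0) :
    SR 1 b κ x := by
  have h := SR.sum (range κ) (fun _ => (1:ℝ)) sg (fun i _ => SR.of_SN (SN.single b i))
  simp only [sum_const, card_range, nsmul_eq_mul, mul_one] at h
  refine h.le (fun n => ?_)
  by_cases hn : κ ≤ n
  · exact (hx n hn).trans (sum_nonneg (fun i _ => sg_nonneg i n))
  · have : sg n n ≤ ∑ i ∈ range κ, sg i n :=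
      single_le_sum (f := fun i => sg i n) (fun i _ => sg_nonneg i n) (by simp; omega)
    rw [sg_self] at this
    exact (hx1 n).trans this

/-- `ρ ≤` mass of the anchors -/
lemma GS.rho_le {N b : ℕ} {β x : ℕ → ℝ} (h : GS N b β x) :
    ∃ L₀, ∀ L, L₀ ≤ L → SR 1 b (∑ n ∈ range L, β n) x := by
  induction h with
  | zero N b => exact ⟨0, fun L _ => by simpa using SR.zero 1 b le_rfl⟩
  | single b n =>
      refine ⟨n + 1, fun L hL => ?_⟩
      have : ∑ m ∈ range L, sg n m = 1 := by
        unfold sg; rw [sum_ite_eq' (range L) n (fun _ => (1:ℝ))]; simp; omega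
      rw [this]; exact SR.of_SN (SN.single b n)
  | op b k B X h h0 ih =>
      refine ⟨k + 1, fun L hL => ?_⟩
      have : ∑ m ∈ range L, sg k m = 1 := by
        unfold sg; rw [sum_ite_eq' (range L) k (fun _ => (1:ℝ))]; simp; omega
      rw [this]; exact SR.of_SN ⟨_, GS.op b k B X h h0⟩
  | add N N' b β β' x x' h h' hd ih ih' =>
      obtain ⟨L, hL⟩ := ih
      obtain ⟨L', hL'⟩ := ih'
      refine ⟨L ⊔ L', fun M hM => ?_⟩
      rw [sum_add_distrib]
      exact SR.add (hL M (le_trans le_sup_left hM)) (hL' M (le_trans le_sup_right hM))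
  | comb N b β β' x x' s t hs ht hst h h' ih ih' =>
      obtain ⟨L, hL⟩ := ih
      obtain ⟨L', hL'⟩ := ih'
      refine ⟨L ⊔ L', fun M hM => ?_⟩
      rw [sum_add_distrib, ← mul_sum, ← mul_sum]
      exact SR.add ((hL M (le_trans le_sup_left hM)).smul hs) ((hL' M (le_trans le_sup_right hM)).smul ht)
  | solid N b β x x' h h0 hx ih =>
      obtain ⟨L, hL⟩ := ih
      exact ⟨L, fun M hM => (hL M hM).le hx⟩

lemma GS.rho_le_mass {N b : ℕ} {β x : ℕ → ℝ} (h : GS N b β x) {r : ℝ}
    (hr : ∀ L, ∑ n ∈ range L, β n ≤ r) : SR 1 b r x := by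
  obtain ⟨L, hL⟩ := h.rho_le
  exact (hL L le_rfl).mono_r (hr L)

/-- every element of `SN N b` has `ρ ≤ N` -/
lemma SN.rho_le {N b : ℕ} {x : ℕ → ℝ} (h : SN N b x) : SR 1 b N x := by
  obtain ⟨β, h⟩ := h
  exact h.rho_le_mass (fun L => h.mass_le _)

end Pool.Agent.H27.Spread
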