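import Pool.Agent.H27.Spread.DD

set_option autoImplicit false

/-! The comparison lemma: `min (ω, ε x)` for a decomposable `ω` and a sum `x` of few functionals. -/

namespace Pool.Agent.H27.Spread
open Finset

lemma min_sum_le {ι : Type*} (s : Finset ι) (a : ι → ℝ) (ha : ∀ i ∈ s, 0 ≤ a i) {t : ℝ} (ht : 0 ≤ t) :
    min (∑ i ∈ s, a i) t ≤ ∑ i ∈ s, min (a i) t := by
  classical
  induction s using Finset.induction_on with
  | empty => simp [ht]
  | insert j s hj ih =>
      rw [sum_insert hj, sum_insert hj]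
      have h1 := ih (fun i hi => ha i (mem_insert_of_mem hi))
      have h2 : 0 ≤ a j := ha j (mem_insert_self j s)
      have h3 : 0 ≤ ∑ i ∈ s, a i := sum_nonneg (fun i hi => ha i (mem_insert_of_mem hi))
      rcases le_total (a j + ∑ i ∈ s, a i) t with h | h
      · have : ∑ i ∈ s, a i ≤ t := by linarith
        have h4 : a j ≤ t := by linarith
        rw [min_eq_left h, min_eq_left h4]
        rw [min_eq_left this] at h1
        linarith
      · rw [min_eq_right h]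
        rcases le_total (a j) t with h4 | h4
        · rw [min_eq_left h4]
          rcases le_total (∑ i ∈ s, a i) t with h5 | h5
          · rw [min_eq_left h5] at h1; linarith
          · rw [min_eq_right h5] at h1; linarith
        · rw [min_eq_right h4]
          have : 0 ≤ min (∑ i ∈ s, a i) t := le_min h3 ht
          linarith

lemma min_comb_le {ι : Type*} (s : Finset ι) (a : ι → ℝ) (ha : ∀ i ∈ s, 0 ≤ a i) {t u v w z : ℝ}
    (ht : 0 ≤ t) (hu : 0 ≤ u) (hv : 0 ≤ v) (hw : w ≤ ∑ i ∈ s, a i + u) (hz : z ≤ v + t) :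
    min w z ≤ v + u + ∑ i ∈ s, min (a i) t := by
  have h1 := min_sum_le s a ha ht
  rcases le_total (∑ i ∈ s, a i) t with h | h
  · rw [min_eq_left h] at h1
    have := min_le_left w z
    linarith
  · rw [min_eq_right h] at h1
    have := min_le_right w z
    linarith

/-- restriction to a window of the positive part -/
noncomputable def rp (s t : ℕ) (f : ℕ → ℝ) : ℕ → ℝ := fun n => if s ≤ n ∧ n < t then max (f n) 0 else 0

lemma rp_nonneg (s t : ℕ) (f : ℕ → ℝ) (n : ℕ) : 0 ≤ rp s t f n := by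
  unfold rp; split_ifs
  · exact le_max_right _ _
  · exact le_rfl
lemma rp_off {s t : ℕ} {f : ℕ → ℝ} {n : ℕ} (h : ¬ (s ≤ n ∧ n < t)) : rp s t f n = 0 := by
  unfold rp; simp only [h, if_false]
lemma le_rp {s t : ℕ} {f : ℕ → ℝ} {n : ℕ} (h : s ≤ n ∧ n < t) : f n ≤ rp s t f n := by
  unfold rp; rw [if_pos h]
  exact le_max_left _ _
lemma SR.rp {N b : ℕ} {r : ℝ} {x : ℕ → ℝ} (h : SR N b r x) (s t : ℕ) : SR N b r (rp s t x) := by
  obtain ⟨hr, y, hy, hxy⟩ := h
  refine ⟨hr, y, hy, fun n => ?_⟩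
  unfold Spread.rp
  split_ifs
  · exact max_le (hxy n) (mul_nonneg hr (hy.nonneg n))
  · exact mul_nonneg hr (hy.nonneg n)

/-- sums over the windows of a partition -/
lemma SR.sum_windows {b : ℕ} {r : ℝ} (hr : 0 ≤ r) {τ : ℕ → ℕ} (hτ : Monotone τ) (T : ℕ) (N : ℕ → ℕ)
    (X : ℕ → ℕ → ℝ) (h : ∀ g < T, SR (N g) b r (X g)) :
    SR (∑ g ∈ range T, N g) b r (fun n => ∑ g ∈ range T, Spread.rp (τ g) (τ (g + 1)) (X g) n) := by
  apply SR.sumDisj hr
  · intro g hg; exact (h g (mem_range.1 hg)).rp _ _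
  · intro g _ g' _ hne n
    exact windows_disj hτ (X := fun g => Spread.rp (τ g) (τ (g + 1)) (X g)) (fun g n hn => rp_off hn) hne n

/-- the output on one window -/
def Region (b κ : ℕ) (γ : ℕ → ℕ → ℝ) (ε : ℝ) (ω x' : ℕ → ℝ) (s t L : ℕ) : Prop :=
  ∃ (V A : ℕ → ℝ) (A' : ℕ → ℕ → ℝ) (q : ℕ → ℕ),
  SR 1 3 (aw b) V ∧ SR 1 3 (136 * aw b) A ∧
  (∀ i ∈ Icc b κ, SR (q i) 3 (136 * aw (κ + 11)) (A' i)) ∧
  (∀ i ∈ Icc b κ, (q i : ℝ) ≤ 2 * (∑ m ∈ Ico s t, γ i m) * 4 ^ (κ + 11) + 2) ∧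
  (∀ m, s ≤ m → m < t → m < L →
    min (ω m) (ε * x' m) ≤ ε * V m + A m + ∑ i ∈ Icc b κ, (4 * ε) * A' i m)

lemma cs_num {κ : ℕ} (h : 3 ≤ κ) : (κ + 1) * (328 + 16 * κ) ≤ 24 * 4 ^ κ := by
  induction κ, h using Nat.le_induction with
  | base => norm_num
  | succ j hj ih =>
      rw [pow_succ]
      nlinarith

lemma cs_num2 (b κ : ℕ) (hb : b ≤ κ) : ∑ i ∈ Icc b κ, (4:ℝ) ^ i ≤ 4 / 3 * 4 ^ κ := by
  have h := four_sum b κ hb
  have h2 : 3 * ∑ i ∈ Icc b κ, (4:ℝ) ^ i + 4 ^ b = 4 ^ (κ + 1) := by exact_mod_cast h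
  have h3 : (4:ℝ) ^ (κ + 1) = 4 * 4 ^ κ := by ring
  have h4 : (0:ℝ) < 4 ^ b := by positivity
  linarith

/-- total of the recursive contributions -/
lemma cs_num3 {b κ : ℕ} (hb : 3 ≤ b) (hκ : b ≤ κ) :
    ∑ i ∈ Icc b κ, 4 * (136 * aw (κ + 11) * (128 + 8 * ((2 * κ + 25 + 4 ^ i : ℕ) : ℝ))) ≤ 2 := by
  have e : ∀ i ∈ Icc b κ, 4 * (136 * aw (κ + 11) * (128 + 8 * ((2 * κ + 25 + 4 ^ i : ℕ) : ℝ))) =
      544 * aw (κ + 11) * ((328 + 16 * κ) + 8 * 4 ^ i) := by
    intro i _; push_cast; ring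
  rw [sum_congr rfl e, ← mul_sum, sum_add_distrib, sum_const, ← mul_sum]
  have hc : ((Icc b κ).card : ℝ) ≤ κ + 1 := by
    have : (Icc b κ).card ≤ κ + 1 := by simp
    exact_mod_cast this
  have h1 : ((κ + 1 : ℕ) : ℝ) * (328 + 16 * κ) ≤ 24 * 4 ^ κ := by
    exact_mod_cast cs_num (κ := κ) (by omega)
  have h2 := cs_num2 b κ hκ
  have h3 : aw (κ + 11) * 4 ^ κ = 1 / 4194304 := by
    unfold aw
    rw [pow_add, mul_comm, ← mul_assoc, ← mul_pow]; norm_num
  have h4 : (Icc b κ).card • ((328:ℝ) + 16 * κ) ≤ 24 * 4 ^ κ := by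
    rw [nsmul_eq_mul]
    refine (mul_le_mul_of_nonneg_right hc (by positivity)).trans ?_
    push_cast at h1; exact h1
  calc 544 * aw (κ + 11) * ((Icc b κ).card • ((328:ℝ) + 16 * κ) + 8 * ∑ i ∈ Icc b κ, (4:ℝ) ^ i)
      ≤ 544 * aw (κ + 11) * (24 * 4 ^ κ + 8 * (4 / 3 * 4 ^ κ)) := by
        apply mul_le_mul_of_nonneg_left _ (mul_nonneg (by norm_num) (aw_nonneg _))
        linarith
    _ = 544 * (24 + 32 / 3) * (aw (κ + 11) * 4 ^ κ) := by ring
    _ ≤ 2 := by rw [h3]; norm_num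

lemma cs_numT {b T : ℕ} (hb : 3 ≤ b) {mass : ℝ} (hm : mass ≤ NN b) (hT : (T : ℝ) ≤ 2 * mass * 4 ^ b + 2) :
    T ≤ NN (b + 1) := by
  have h1 : (T : ℝ) ≤ ((2 * NN b * 4 ^ b + 2 : ℕ) : ℝ) := by
    push_cast
    refine hT.trans ?_
    have : mass * 4 ^ b ≤ NN b * 4 ^ b := mul_le_mul_of_nonneg_right hm (by positivity)
    nlinarith
  have h2 : T ≤ 2 * NN b * 4 ^ b + 2 := by exact_mod_cast h1
  refine h2.trans ?_
  have h4 : 2 ≤ 2 * NN b * 4 ^ b := by
    have := NN_pos b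
    have h5 : 0 < 4 ^ b := by positivity
    nlinarith [Nat.mul_pos this h5]
  calc 2 * NN b * 4 ^ b + 2 ≤ 2 * (2 * NN b * 4 ^ b) := by omega
    _ = 2 ^ (4 ^ b + 2 * b + 2) := by
        unfold NN
        rw [pow_add, pow_add, pow_mul 2 2 b]
        generalize 2 ^ (4 ^ b) = y
        norm_num; ring
    _ ≤ 2 ^ (4 ^ (b + 1)) := by
        apply Nat.pow_le_pow_right (by norm_num)
        have := two_mul_le_four_pow hb
        rw [pow_succ]; linarith
    _ = NN (b + 1) := rfl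

/-- Assembly of the windows. -/
lemma cs_assemble {b κ n L T : ℕ} (hb : 3 ≤ b) (hκ : b ≤ κ) (hn : n ≤ NN b) {ω x β x' : ℕ → ℝ}
    {γ X : ℕ → ℕ → ℝ} {ε : ℝ} (hε : 0 < ε) (hx : GS n κ β x)
    (hX : ∀ j ∈ Ico κ (κ + 10), SN (n * NN j) (j + 1) (X j))
    (hsplit : ∀ m, x m ≤ (∑ j ∈ Ico κ (κ + 10), aw j * X j m) + x' m)
    (hγ : ∀ i ∈ Icc b κ, ∀ s : Finset ℕ, ∑ m ∈ s, γ i m ≤ NN i)
    {τ : ℕ → ℕ} (hτ0 : τ 0 = κ) (hτT : τ T = L) (hτ : Monotone τ)
    (hT : (T : ℝ) ≤ 2 * (∑ m ∈ Ico κ L, β m) * 4 ^ b + 2)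
    (hreg : ∀ g < T, Region b κ γ ε ω x' (τ g) (τ (g + 1)) L) :
    ∃ (A B : ℕ → ℝ) (q : ℕ), (∀ m, κ ≤ m → m < L → min (ω m) (ε * x m) ≤ A m + B m) ∧
      SR 1 3 (90 * ε) B ∧ (q : ℝ) ≤ 2 * (∑ m ∈ Ico κ L, β m) * 4 ^ b + 2 ∧
      SR q 3 (136 * aw b) A := by
  choose! V A A' q hV hA hA' hq hle using hreg
  have hmass : ∑ m ∈ Ico κ L, β m ≤ NN b := (hx.mass_le _).trans (by exact_mod_cast hn)
  refine ⟨fun m => ∑ g ∈ range T, rp (τ g) (τ (g + 1)) (A g) m,
    fun m => ε * (∑ j ∈ Ico κ (κ + 10), aw j * X j m) +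
      (ε * ∑ g ∈ range T, rp (τ g) (τ (g + 1)) (V g) m +
       ∑ i ∈ Icc b κ, (4 * ε) * ∑ g ∈ range T, rp (τ g) (τ (g + 1)) (A' g i) m), T, ?_, ?_, hT, ?_⟩
  · intro m hm1 hm2
    obtain ⟨g, hg, hg1, hg2⟩ := exists_window (τ := τ) (m := m) T (by omega) (by omega)
    have h1 := hle g hg m hg1 hg2 hm2
    have hS : 0 ≤ ∑ j ∈ Ico κ (κ + 10), aw j * X j m :=
      sum_nonneg (fun j hj => mul_nonneg (aw_nonneg j) ((hX j hj).nonneg m))
    have h2 : min (ω m) (ε * x m) ≤ ε * (∑ j ∈ Ico κ (κ + 10), aw j * X j m) + min (ω m) (ε * x' m) := by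
      have h3 : ε * x m ≤ ε * (∑ j ∈ Ico κ (κ + 10), aw j * X j m) + ε * x' m := by
        rw [← mul_add]; exact mul_le_mul_of_nonneg_left (hsplit m) hε.le
      have h4 : 0 ≤ ε * (∑ j ∈ Ico κ (κ + 10), aw j * X j m) := mul_nonneg hε.le hS
      rcases le_total (ω m) (ε * x' m) with h5 | h5
      · rw [min_eq_left h5]; have := min_le_left (ω m) (ε * x m); linarith
      · rw [min_eq_right h5]; have := min_le_right (ω m) (ε * x m); linarith
    have hsing : ∀ f : ℕ → ℕ → ℝ, f g m ≤ ∑ g ∈ range T, rp (τ g) (τ (g + 1)) (f g) m := by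
      intro f
      refine (le_rp (s := τ g) (t := τ (g + 1)) ⟨hg1, hg2⟩).trans ?_
      exact single_le_sum (f := fun g => rp (τ g) (τ (g + 1)) (f g) m)
        (fun g' _ => rp_nonneg _ _ _ _) (mem_range.2 hg)
    have h5 := hsing A
    have h6 := mul_le_mul_of_nonneg_left (hsing V) hε.le
    have h7 : ∑ i ∈ Icc b κ, (4 * ε) * A' g i m ≤
        ∑ i ∈ Icc b κ, (4 * ε) * ∑ g ∈ range T, rp (τ g) (τ (g + 1)) (A' g i) m := by
      apply sum_le_sum
      intro i _
      exact mul_le_mul_of_nonneg_left (hsing (fun g => A' g i)) (by linarith)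
    linarith
  · have s1 : SR 1 3 (ε * (8 * (10 : ℕ))) (fun m => ε * (∑ j ∈ Ico κ (κ + 10), aw j * X j m)) :=
      (split_rho (g := 10) (by omega) (hn.trans (NN_mono hκ)) hX).smul hε.le
    have s2 : SR 1 3 (ε * 8) (fun m => ε * ∑ g ∈ range T, rp (τ g) (τ (g + 1)) (V g) m) := by
      have h1 := SR.sum_windows (aw_nonneg b) hτ T (fun _ => 1) V hV
      simp only [sum_const, card_range, smul_eq_mul, mul_one] at h1
      have h2 := BN_SR (le_refl 3) (show 3 ≤ b + 1 by omega) (h1.mono_N (cs_numT hb hmass hT))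
      refine (h2.smul hε.le).mono_r (le_of_eq ?_)
      have := aw_mul b
      have e : aw b * (2 * 4 ^ (b + 1)) = 8 * (aw b * 4 ^ b) := by ring
      rw [e, this]; ring
    have s3 : SR 1 3 (∑ i ∈ Icc b κ, (4 * ε) * (136 * aw (κ + 11) * (128 + 8 * ((2 * κ + 25 + 4 ^ i : ℕ) : ℝ))))
        (fun m => ∑ i ∈ Icc b κ, (4 * ε) * ∑ g ∈ range T, rp (τ g) (τ (g + 1)) (A' g i) m) := by
      apply SR.sum
      intro i hi
      have h1 := SR.sum_windows (r := 136 * aw (κ + 11)) (by have := aw_nonneg (κ + 11); positivity) hτ T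
        (fun g => q g i) (fun g => A' g i) (fun g hg => hA' g hg i hi)
      refine (BN'_SR ?_ h1).smul (by linarith)
      -- counting
      have hi' := hi
      simp only [mem_Icc] at hi'
      have h2 : ((∑ g ∈ range T, q g i : ℕ) : ℝ) ≤
          2 * (∑ g ∈ range T, ∑ m ∈ Ico (τ g) (τ (g + 1)), γ i m) * 4 ^ (κ + 11) + 2 * T := by
        push_cast
        calc ∑ g ∈ range T, (q g i : ℝ) ≤
            ∑ g ∈ range T, (2 * (∑ m ∈ Ico (τ g) (τ (g + 1)), γ i m) * 4 ^ (κ + 11) + 2) :=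
              sum_le_sum (fun g hg => hq g (mem_range.1 hg) i hi)
          _ = _ := by
              rw [sum_add_distrib, ← sum_mul, ← mul_sum]; simp; ring
      rw [Spread.sum_windows _ hτ] at h2
      have h3 := hγ i hi (Ico (τ 0) (τ T))
      have h4 : (T : ℝ) ≤ 2 * NN i * 4 ^ (κ + 11) + 2 := by
        refine hT.trans ?_
        have h5 : ∑ m ∈ Ico κ L, β m ≤ NN i := hmass.trans (by exact_mod_cast NN_mono hi'.1)
        have h6 : (4:ℝ) ^ b ≤ 4 ^ (κ + 11) := pow_le_pow_right₀ (by norm_num) (by omega)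
        have h7 : (0:ℝ) ≤ ∑ m ∈ Ico κ L, β m := sum_nonneg (fun m _ => hx.meas_nonneg m)
        have h8 : (∑ m ∈ Ico κ L, β m) * 4 ^ b ≤ NN i * 4 ^ (κ + 11) :=
          mul_le_mul h5 h6 (by positivity) (Nat.cast_nonneg _)
        linarith
      have h9 : (4:ℝ) ≤ NN i * 4 ^ (κ + 11) := by
        have h10 : (1:ℝ) ≤ NN i := by exact_mod_cast NN_pos i
        have h11 : (4:ℝ) ^ 1 ≤ 4 ^ (κ + 11) := pow_le_pow_right₀ (by norm_num) (by omega)
        nlinarith
      have h12 : ((∑ g ∈ range T, q g i : ℕ) : ℝ) ≤ 8 * (NN i * 4 ^ (κ + 11)) := by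
        have h13 : (∑ m ∈ Ico (τ 0) (τ T), γ i m) * 4 ^ (κ + 11) ≤ NN i * 4 ^ (κ + 11) :=
          mul_le_mul_of_nonneg_right h3 (by positivity)
        linarith
      have h14 : (8 * (NN i * 4 ^ (κ + 11)) : ℝ) = ((2 ^ (2 * κ + 25 + 4 ^ i) : ℕ) : ℝ) := by
        have : (4:ℝ) ^ (κ + 11) = 2 ^ (2 * κ + 22) := by
          rw [show 2 * κ + 22 = 2 * (κ + 11) by ring, pow_mul]; norm_num
        unfold NN
        rw [this, show 2 * κ + 25 + 4 ^ i = 3 + (4 ^ i + (2 * κ + 22)) by ring]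
        rw [pow_add 2 3, pow_add 2 (4 ^ i)]
        push_cast
        norm_num
      rw [h14] at h12
      exact_mod_cast h12
    refine (SR.add s1 (SR.add s2 s3)).mono_r ?_
    have h1 := cs_num3 hb hκ
    have e : ∑ i ∈ Icc b κ, (4 * ε) * (136 * aw (κ + 11) * (128 + 8 * ((2 * κ + 25 + 4 ^ i : ℕ) : ℝ))) =
        ε * ∑ i ∈ Icc b κ, 4 * (136 * aw (κ + 11) * (128 + 8 * ((2 * κ + 25 + 4 ^ i : ℕ) : ℝ))) := by
      rw [mul_sum]; apply sum_congr rfl; intro i _; ring
    rw [e]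
    have h2 := mul_le_mul_of_nonneg_left h1 hε.le
    push_cast at *
    linarith
  · have h1 := SR.sum_windows (r := 136 * aw b) (by have := aw_nonneg b; positivity) hτ T (fun _ => 1) A hA
    simpa using h1

/-- the singleton windows -/
lemma region_singleton {b κ : ℕ} {γ : ℕ → ℕ → ℝ} {ε : ℝ} {ω x' : ℕ → ℝ} {s t L : ℕ}
    (hb : 1 ≤ b) (hκ : b ≤ κ) (hω : DD b κ ω) (hγ0 : ∀ i ∈ Icc b κ, ∀ m, 0 ≤ γ i m) (hst : t ≤ s + 1) :
    Region b κ γ ε ω x' s t L := by
  obtain ⟨W, hW, hW0, hωW⟩ := hω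
  refine ⟨fun _ => 0, fun m => (4 / 3 * aw b) * sg s m, fun _ _ => 0, fun _ => 0,
    SR.zero _ _ (aw_nonneg b), ?_, fun i _ => SR.zero _ _ (mul_nonneg (by norm_num) (aw_nonneg _)),
    fun i hi => ?_, fun m hm1 hm2 _ => ?_⟩
  · have h1 := (SR.of_SN (SN.single 3 s)).smul (c := 4 / 3 * aw b) (by have := aw_nonneg b; positivity)
    exact h1.mono_r (by have := aw_nonneg b; linarith)
  · have : 0 ≤ ∑ m ∈ Ico s t, γ i m := sum_nonneg (fun m _ => hγ0 i hi m)
    push_cast; positivity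
  · have : m = s := by omega
    subst this
    simp only [sg_self, mul_zero, mul_one, zero_add, sum_const_zero, add_zero]
    refine (min_le_left _ _).trans ((hωW m).trans ?_)
    refine le_trans ?_ (aw_sum_Icc b κ)
    apply sum_le_sum
    intro i hi
    have h1 := (hW i hi).le_one (by omega) m
    nlinarith [aw_nonneg i]

/-- **The comparison lemma.** -/
theorem CS (L : ℕ) : ∀ d b κ n : ℕ, 3 ≤ b → b ≤ κ → L ≤ κ + d → n ≤ NN b →
    ∀ (ω x β : ℕ → ℝ) (ε : ℝ), 0 < ε → DD b κ ω → GS n κ β x →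
    ∃ (A B : ℕ → ℝ) (q : ℕ), (∀ m, κ ≤ m → m < L → min (ω m) (ε * x m) ≤ A m + B m) ∧
      SR 1 3 (90 * ε) B ∧ (q : ℝ) ≤ 2 * (∑ m ∈ Ico κ L, β m) * 4 ^ b + 2 ∧
      SR q 3 (136 * aw b) A := by
  intro d
  induction d with
  | zero =>
      intro b κ n hb hκ hL hn ω x β ε hε hω hx
      refine ⟨fun _ => 0, fun _ => 0, 0, fun m h1 h2 => by omega,
        SR.zero _ _ (by positivity), ?_, SR.zero _ _ (mul_nonneg (by norm_num) (aw_nonneg _))⟩
      have : (0:ℝ) ≤ ∑ m ∈ Ico κ L, β m := sum_nonneg (fun m _ => hx.meas_nonneg m)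
      push_cast; positivity
  | succ d ih =>
      intro b κ n hb hκ hL hn ω x β ε hε hω hx
      by_cases hLκ : L ≤ κ
      · exact ih b κ n hb hκ (by omega) hn ω x β ε hε hω hx
      push Not at hLκ
      obtain ⟨X, x', hX, hx', hsplit⟩ := hx.weight_split 10
      have hω' := hω
      obtain ⟨W, hW, hW0, hωW⟩ := hω'
      choose! γ hγ using hW
      obtain ⟨T, τ, hτ0, hτT, hτ, hT, hwin⟩ := partition (β := β) hx.meas_nonneg (aw_pos b) L L κ hLκ.le (by omega)
      have hT' : (T : ℝ) ≤ 2 * (∑ m ∈ Ico κ L, β m) * 4 ^ b + 2 := by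
        have e : 2 * (∑ m ∈ Ico κ L, β m) / aw b = 2 * (∑ m ∈ Ico κ L, β m) * 4 ^ b := by
          rw [div_eq_iff (aw_pos b).ne', mul_assoc, mul_comm (4 ^ b) (aw b), aw_mul, mul_one]
        rw [e] at hT; exact hT
      have hγ0 : ∀ i ∈ Icc b κ, ∀ m, 0 ≤ γ i m := fun i hi m => (hγ i hi).meas_nonneg m
      have hγm : ∀ i ∈ Icc b κ, ∀ s : Finset ℕ, ∑ m ∈ s, γ i m ≤ NN i := fun i hi s => (hγ i hi).mass_le s
      refine cs_assemble hb hκ hn hε hx hX hsplit hγm hτ0 hτT hτ hT' (fun g hg => ?_)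
      -- the windows
      have hκg : κ ≤ τ g := by rw [← hτ0]; exact hτ (Nat.zero_le g)
      rcases hwin g hg with hs | hlight
      · exact region_singleton (by omega) hκ hω hγ0 hs
      -- light windows
      by_cases hbig : τ g ≤ κ + 10
      · -- no further weights
        obtain ⟨V, Y, hV, hV0, hY, hY0, hle⟩ :=
          (hx'.mono_b (τ g) hbig).flatten_window (by omega) (le_refl (τ g)) (τ (g + 1))
        refine ⟨V, fun _ => 0, fun _ _ => 0, fun _ => 0, ?_, SR.zero _ _ (mul_nonneg (by norm_num) (aw_nonneg _)),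
          fun i _ => SR.zero _ _ (mul_nonneg (by norm_num) (aw_nonneg _)), fun i hi => ?_, fun m hm1 hm2 _ => ?_⟩
        · refine (hV.rho_le_mass (fun L' => ?_)).mono_b (by omega)
          refine le_trans ?_ hlight
          rw [← sum_filter]
          apply sum_le_sum_of_subset_of_nonneg
          · intro m hm; simp only [mem_filter, mem_Ico] at hm ⊢; exact hm.2
          · intro m _ _; exact hx.meas_nonneg m
        · have : 0 ≤ ∑ m ∈ Ico (τ g) (τ (g + 1)), γ i m := sum_nonneg (fun m _ => hγ0 i hi m)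
          push_cast; positivity
        · have h1 := hle m hm1 hm2
          simp only [Ico_self, sum_empty, add_zero] at h1
          simp only [mul_zero, sum_const_zero, add_zero]
          exact (min_le_right _ _).trans (mul_le_mul_of_nonneg_left h1 hε.le)
      · push Not at hbig
        obtain ⟨Vx, Dx, hVx, hVx0, hDx, hDxn, hDx0, hxle⟩ :=
          hx'.flatDD (by omega) (hn.trans (NN_mono (by omega))) hbig.le (τ (g + 1))
        -- flatten the parts of ω
        have hWi : ∀ i ∈ Icc b κ, ∃ V D : ℕ → ℝ,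
            GS (NN i) (τ g) (fun n => if τ g ≤ n ∧ n < τ (g + 1) then γ i n else 0) V ∧
            DD (κ + 1) (τ g) D ∧ (∀ n, 0 ≤ D n) ∧
            (∀ n, τ g ≤ n → n < τ (g + 1) → W i n ≤ V n + 4 * D n) := by
          intro i hi
          have hi' := hi
          simp only [mem_Icc] at hi'
          obtain ⟨V, D, h1, h2, h3, h4, h5, h6⟩ := (hγ i hi).flatDD (by omega) (NN_mono hi'.2)
            (show κ ≤ τ g by omega) (τ (g + 1))
          exact ⟨V, D, h1, h3, h4, h6⟩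
        choose! Vw Dw hVw hDw hDwn hWle using hWi
        -- induction hypothesis
        have hIH : ∀ i ∈ Icc b κ, ∃ (A B : ℕ → ℝ) (q : ℕ),
            (∀ m, τ g ≤ m → m < L → min (Dx m) ((aw i / (4 * ε)) * Vw i m) ≤ A m + B m) ∧
            SR 1 3 (90 * (aw i / (4 * ε))) B ∧
            (q : ℝ) ≤ 2 * (∑ m ∈ Ico (τ g) (τ (g + 1)), γ i m) * 4 ^ (κ + 11) + 2 ∧
            SR q 3 (136 * aw (κ + 11)) A := by
          intro i hi
          have hi' := hi
          simp only [mem_Icc] at hi'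
          obtain ⟨A, B, q, h1, h2, h3, h4⟩ := ih (κ + 11) (τ g) (NN i) (by omega) (by omega) (by omega)
            (NN_mono (by omega)) Dx (Vw i) _ (aw i / (4 * ε)) (div_pos (aw_pos i) (by linarith)) hDx (hVw i hi)
          refine ⟨A, B, q, h1, h2, h3.trans ?_, h4⟩
          have h5 : ∑ m ∈ Ico (τ g) L, (if τ g ≤ m ∧ m < τ (g + 1) then γ i m else 0) ≤
              ∑ m ∈ Ico (τ g) (τ (g + 1)), γ i m := by
            rw [← sum_filter]
            apply sum_le_sum_of_subset_of_nonneg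
            · intro m hm; simp only [mem_filter, mem_Ico] at hm ⊢; exact hm.2
            · intro m _ _; exact hγ0 i hi m
          have h6 : (0:ℝ) ≤ 4 ^ (κ + 11) := by positivity
          nlinarith [mul_le_mul_of_nonneg_right h5 h6]
        choose! Ai Bi qi hmin hBi hqi hAi using hIH
        refine ⟨Vx, fun m => ∑ i ∈ Icc b κ, (aw i * (4 * Dw i m) + (4 * ε) * Bi i m), Ai, qi,
          ?_, ?_, hAi, hqi, fun m hm1 hm2 hmL => ?_⟩
        · refine (hVx.rho_le_mass (fun L' => ?_)).mono_b (by omega)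
          refine le_trans ?_ hlight
          rw [← sum_filter]
          apply sum_le_sum_of_subset_of_nonneg
          · intro m hm; simp only [mem_filter, mem_Ico] at hm ⊢; exact hm.2
          · intro m _ _; exact hx.meas_nonneg m
        · have h1 : SR 1 3 (∑ i ∈ Icc b κ, (aw i * (4 * 3) + (4 * ε) * (90 * (aw i / (4 * ε)))))
              (fun m => ∑ i ∈ Icc b κ, (aw i * (4 * Dw i m) + (4 * ε) * Bi i m)) := by
            apply SR.sum
            intro i hi
            apply SR.add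
            · exact ((((hDw i hi).rho (by omega) (by omega)).mono_b (by omega)).smul (by norm_num)).smul (aw_nonneg i)
            · exact (hBi i hi).smul (by linarith)
          refine h1.mono_r ?_
          have h2 : ∀ i ∈ Icc b κ, aw i * (4 * 3) + (4 * ε) * (90 * (aw i / (4 * ε))) = 102 * aw i := by
            intro i _; field_simp; ring
          rw [sum_congr rfl h2, ← mul_sum]
          have := aw_sum_Icc b κ
          linarith
        · have h1 := hxle m hm1 hm2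
          have h2 : ω m ≤ ∑ i ∈ Icc b κ, aw i * Vw i m + ∑ i ∈ Icc b κ, aw i * (4 * Dw i m) := by
            refine (hωW m).trans ?_
            rw [← sum_add_distrib]
            apply sum_le_sum
            intro i hi
            rw [← mul_add]
            exact mul_le_mul_of_nonneg_left (hWle i hi m hm1 hm2) (aw_nonneg i)
          have h3 : ε * x' m ≤ ε * Vx m + 4 * ε * Dx m := by
            have := mul_le_mul_of_nonneg_left h1 hε.le
            linarith
          have h4 := min_comb_le (Icc b κ) (fun i => aw i * Vw i m)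
            (fun i hi => mul_nonneg (aw_nonneg i) ((hVw i hi).nonneg m))
            (t := 4 * ε * Dx m) (u := ∑ i ∈ Icc b κ, aw i * (4 * Dw i m)) (v := ε * Vx m)
            (mul_nonneg (by linarith) (hDxn m))
            (sum_nonneg (fun i hi => mul_nonneg (aw_nonneg i) (mul_nonneg (by norm_num) (hDwn i hi m))))
            (mul_nonneg hε.le (hVx.nonneg m)) h2 h3
          refine h4.trans ?_
          have h5 : ∑ i ∈ Icc b κ, min (aw i * Vw i m) (4 * ε * Dx m) ≤
              ∑ i ∈ Icc b κ, (4 * ε) * (Ai i m + Bi i m) := by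
            apply sum_le_sum
            intro i hi
            have h6 := mul_le_mul_of_nonneg_left (hmin i hi m hm1 hmL) (show 0 ≤ 4 * ε by linarith)
            refine le_trans (le_of_eq ?_) h6
            rw [mul_min_of_nonneg _ _ (show 0 ≤ 4 * ε by linarith), min_comm]
            congr 1
            field_simp
          have h7 : ∑ i ∈ Icc b κ, (4 * ε) * (Ai i m + Bi i m) =
              ∑ i ∈ Icc b κ, (4 * ε) * Ai i m + ∑ i ∈ Icc b κ, (4 * ε) * Bi i m := by
            rw [← sum_add_distrib]; apply sum_congr rfl; intro i _; ring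
          beta_reduce
          rw [sum_add_distrib]
          linarith

end Pool.Agent.H27.Spread
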