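import Pool.Agent.H27.Spread.Space

set_option autoImplicit false

/-! Construction of the Banach space. -/

namespace Pool.Agent.H27.Spread
open Finset Filter Topology

/-- norming set -/
def Gam : Set (ℕ → ℝ) := {y | ∀ x, SN 1 3 x → ∀ L, ∑ n ∈ range L, x n * |y n| ≤ 1}

lemma sg_mem_Gam (n : ℕ) : sg n ∈ Gam := by
  intro x hx L
  calc ∑ m ∈ range L, x m * |sg n m| ≤ ∑ m ∈ range L, sg n m := by
        apply sum_le_sum
        intro m _
        rw [abs_of_nonneg (sg_nonneg n m)]
        have := hx.le_one (by norm_num) m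
        nlinarith [sg_nonneg n m]
    _ ≤ 1 := sum_sg_le _ _

lemma abs_lin_le (y : Gam) (a : ℕ →₀ ℝ) : |Finsupp.linearCombination ℝ y.1 a| ≤ gg 1 a := by
  apply le_csInf (gg_nonempty one_pos a)
  rintro r ⟨hr, x, hx, hax⟩
  rw [Finsupp.linearCombination_apply, Finsupp.sum]
  have h1 : ∀ n ∈ a.support, n ∈ range (a.support.sup id + 1) := by
    intro n hn
    have := le_sup (f := id) hn
    simp only [id] at this
    simp only [mem_range]; omega
  calc |∑ n ∈ a.support, a n • y.1 n| ≤ ∑ n ∈ a.support, |a n • y.1 n| := abs_sum_le_sum_abs _ _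
    _ = ∑ n ∈ a.support, |a n| * |y.1 n| := by
        apply sum_congr rfl; intro n _; rw [smul_eq_mul, abs_mul]
    _ ≤ ∑ n ∈ range (a.support.sup id + 1), |a n| * |y.1 n| :=
        sum_le_sum_of_subset_of_nonneg h1 (fun n _ _ => mul_nonneg (abs_nonneg _) (abs_nonneg _))
    _ ≤ ∑ n ∈ range (a.support.sup id + 1), r * (x n * |y.1 n|) := by
        apply sum_le_sum; intro n _
        rw [← mul_assoc]
        exact mul_le_mul_of_nonneg_right (hax n) (abs_nonneg _)
    _ = r * ∑ n ∈ range (a.support.sup id + 1), x n * |y.1 n| := by rw [mul_sum]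
    _ ≤ r * 1 := mul_le_mul_of_nonneg_left (y.2 x hx _) hr
    _ = r := mul_one r

/-- the ambient space -/
abbrev Amb : Type := lp (fun _ : Gam => ℝ) ⊤

lemma mem_amb (a : ℕ →₀ ℝ) : Memℓp (fun y : Gam => Finsupp.linearCombination ℝ y.1 a) ⊤ := by
  apply memℓp_infty
  refine ⟨gg 1 a, ?_⟩
  rintro _ ⟨y, rfl⟩
  exact abs_lin_le y a

/-- the embedding of `c₀₀` -/
noncomputable def emb0 : (ℕ →₀ ℝ) →ₗ[ℝ] Amb where
  toFun a := ⟨fun y => Finsupp.linearCombination ℝ y.1 a, mem_amb a⟩
  map_add' a b := by
    apply lp.ext; funext y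
    show Finsupp.linearCombination ℝ y.1 (a + b) = _
    rw [map_add]; rfl
  map_smul' c a := by
    apply lp.ext; funext y
    show Finsupp.linearCombination ℝ y.1 (c • a) = _
    rw [map_smul]; rfl

lemma emb0_apply (a : ℕ →₀ ℝ) (y : Gam) : (emb0 a : Gam → ℝ) y = Finsupp.linearCombination ℝ y.1 a := rfl

lemma norm_emb0 (a : ℕ →₀ ℝ) : ‖emb0 a‖ = gg 1 a := by
  apply le_antisymm
  · apply lp.norm_le_of_forall_le (gg_nonneg 1 a)
    intro y
    exact abs_lin_le y a
  · apply le_of_forall_lt
    intro r hr
    -- choose r' between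
    by_cases hrneg : r < 0
    · exact lt_of_lt_of_le hrneg (norm_nonneg _)
    push Not at hrneg
    obtain ⟨r', h1, h2⟩ := exists_between hr
    refine lt_of_lt_of_le h1 ?_
    have hnot : ¬ SR 1 3 r' (fun n => |a n|) := fun h => absurd (gg_le h) (not_le.2 h2)
    obtain ⟨y, hy0, -, hyx, hyr⟩ := exists_functional one_pos (L := a.support.sup id + 1)
      (a := fun n => |a n|) (fun n => abs_nonneg _) (fun n hn => by
        have : n ∉ a.support := by
          intro hmem
          have := le_sup (f := id) hmem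
          simp only [id] at this; omega
        rw [Finsupp.notMem_support_iff.1 this, abs_zero]) (lt_of_le_of_lt hrneg h1) hnot
    set y' : ℕ → ℝ := fun n => SignType.sign (a n) * y n with hy'
    have habs : ∀ n, |y' n| ≤ y n := by
      intro n
      rw [hy', abs_mul, abs_of_nonneg (hy0 n)]
      have h4 : |((SignType.sign (a n) : SignType) : ℝ)| ≤ 1 := by
        rcases lt_trichotomy (a n) 0 with h5 | h5 | h5
        · rw [sign_neg h5]; simp
        · rw [h5]; simp
        · rw [sign_pos h5]; simp
      have := hy0 n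
      nlinarith
    have hmem : y' ∈ Gam := by
      intro x hx L
      refine le_trans (sum_le_sum (fun n _ => mul_le_mul_of_nonneg_left (habs n) (hx.nonneg n))) (hyx x hx L)
    have h3 : (emb0 a : Gam → ℝ) ⟨y', hmem⟩ = ∑ n ∈ range (a.support.sup id + 1), |a n| * y n := by
      rw [emb0_apply, Finsupp.linearCombination_apply, Finsupp.sum]
      rw [sum_subset (s₂ := range (a.support.sup id + 1))]
      · apply sum_congr rfl; intro n _
        show a n * (SignType.sign (a n) * y n) = |a n| * y n
        rw [← mul_assoc, mul_comm (a n), sign_mul_self]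
      · intro n hn
        have := le_sup (f := id) hn
        simp only [id] at this
        simp only [mem_range]; omega
      · intro n _ hn
        rw [Finsupp.notMem_support_iff.1 hn, zero_smul]
    calc r' ≤ ∑ n ∈ range (a.support.sup id + 1), |a n| * y n := hyr
      _ = (emb0 a : Gam → ℝ) ⟨y', hmem⟩ := h3.symm
      _ ≤ ‖(emb0 a : Gam → ℝ) ⟨y', hmem⟩‖ := Real.le_norm_self _
      _ ≤ ‖emb0 a‖ := lp.norm_apply_le_norm ENNReal.top_ne_zero _ _

/-- **The space.** -/
abbrev XX : Type := (LinearMap.range emb0).topologicalClosure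

noncomputable instance : CompleteSpace XX := inferInstance

/-- the structure on the space -/
noncomputable def theSp : Sp XX where
  emb := LinearMap.codRestrict _ emb0 (fun a =>
    (LinearMap.range emb0).le_topologicalClosure (LinearMap.mem_range_self _ a))
  norm_emb a := norm_emb0 a
  dense := by
    rw [Metric.denseRange_iff]
    rintro ⟨x, hx⟩ r hr
    have hx' : x ∈ closure ((LinearMap.range emb0 : Submodule ℝ Amb) : Set Amb) := hx
    obtain ⟨b, ⟨a, rfl⟩, hb⟩ := Metric.mem_closure_iff.1 hx' r hr
    exact ⟨a, hb⟩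
  δ n := LinearMap.mkContinuous
    { toFun := fun x : XX => (x.1 : Gam → ℝ) ⟨sg n, sg_mem_Gam n⟩
      map_add' := fun x y => rfl
      map_smul' := fun c x => rfl } 1 (fun x => by
        rw [one_mul]
        exact lp.norm_apply_le_norm ENNReal.top_ne_zero x.1 ⟨sg n, sg_mem_Gam n⟩)
  δ_emb n a := by
    show Finsupp.linearCombination ℝ (sg n) a = a n
    rw [Finsupp.linearCombination_apply, Finsupp.sum]
    by_cases hn : n ∈ a.support
    · rw [sum_eq_single n]
      · simp [sg_self]
      · intro m _ hm; rw [sg_ne hm, smul_zero]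
      · intro h; exact absurd hn h
    · rw [Finsupp.notMem_support_iff.1 hn]
      apply sum_eq_zero
      intro m hm
      rw [sg_ne (by rintro rfl; exact hn hm), smul_zero]

end Pool.Agent.H27.Spread
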