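import Pool.Agent.H27.Spread.BN

set_option autoImplicit false

/-! Decomposable elements, weight splitting and the quantile partition. -/

namespace Pool.Agent.H27.Spread
open Finset

/-- `ω` is dominated by a simultaneous weighted sum with weights in `[b, κ]` of sums of level-`κ`
functionals supported in `[κ, ∞)`. -/
def DD (b κ : ℕ) (ω : ℕ → ℝ) : Prop :=
  ∃ W : ℕ → ℕ → ℝ, (∀ i ∈ Icc b κ, SN (NN i) κ (W i)) ∧ (∀ i, ∀ n < κ, W i n = 0) ∧
    ∀ n, ω n ≤ ∑ i ∈ Icc b κ, aw i * W i n

theorem DD.rho {b κ : ℕ} (hb : 3 ≤ b) (hκ : b ≤ κ) {ω : ℕ → ℝ} (h : DD b κ ω) : SR 1 b 3 ω := by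
  obtain ⟨W, hW, hW0, hω⟩ := h
  have h1 : SR 1 b 1 (fun n => ∑ i ∈ Ico b κ, aw i * W i n) :=
    SR.of_SN (SN.op (k := κ) (fun i hi => hW i (by simp only [mem_Ico, mem_Icc] at hi ⊢; omega))
      (fun i _ n hn => hW0 i n hn))
  have h2 : SR 1 b (aw κ * (2 * 4 ^ κ)) (fun n => aw κ * W κ n) :=
    ((BN (b := κ) (by omega) le_rfl (hW κ (by simp [hκ]))).mono_b hκ).smul (aw_nonneg κ)
  have h3 := SR.add h1 h2
  refine (h3.mono_r ?_).le (fun n => ?_)
  · have := aw_mul κ; nlinarith
  · refine (hω n).trans (le_of_eq ?_)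
    have e : Icc b κ = Ico b (κ + 1) := by ext; simp
    rw [e, sum_Ico_succ_top hκ]

/-- shifted weights -/
theorem DD.of_succ {b κ : ℕ} {X : ℕ → ℕ → ℝ}
    (hX : ∀ j ∈ Ico b κ, SN (NN (j + 1)) κ (X j)) (hX0 : ∀ j, ∀ m < κ, X j m = 0) :
    DD (b + 1) κ (fun m => ∑ j ∈ Ico b κ, aw (j + 1) * X j m) := by
  refine ⟨fun i => X (i - 1), fun i hi => ?_, fun i m hm => hX0 _ m hm, fun m => le_of_eq ?_⟩
  · simp only [mem_Icc] at hi
    have := hX (i - 1) (by simp only [mem_Ico]; omega)
    rwa [show i - 1 + 1 = i by omega] at this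
  · have e : Icc (b + 1) κ = Ico (b + 1) (κ + 1) := by ext; simp
    rw [e, ← sum_Ico_add' (fun i => aw i * X (i - 1) m) b κ 1]
    simp

/-- the flattened parts form `4 • DD` -/
theorem flat_DD {n b κ : ℕ} (hn : n ≤ NN b) {X : ℕ → ℕ → ℝ}
    (hX : ∀ j ∈ Ico b κ, SN (n * PP b j) κ (X j)) (hX0 : ∀ j, ∀ m < κ, X j m = 0) :
    DD (b + 1) κ (fun m => ∑ j ∈ Ico b κ, aw (j + 1) * X j m) := by
  refine DD.of_succ (fun j hj => ?_) hX0
  have hj' := hj
  simp only [mem_Ico] at hj'
  exact (hX j hj).mono_N (mul_PP_le (n := n) (b := b) (j := j) (by omega) (hn.trans (NN_mono (by omega))))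

/-- flattening on a window, with the weighted part expressed by `DD` -/
theorem GS.flatDD {n b : ℕ} {β x : ℕ → ℝ} (h : GS n b β x) (hb : 1 ≤ b) (hn : n ≤ NN b) {κ : ℕ}
    (hκ : b ≤ κ) (τ : ℕ) :
    ∃ V D : ℕ → ℝ, GS n κ (fun n => if κ ≤ n ∧ n < τ then β n else 0) V ∧
      (∀ n, ¬ (κ ≤ n ∧ n < τ) → V n = 0) ∧ DD (b + 1) κ D ∧ (∀ n, 0 ≤ D n) ∧
      (∀ n, ¬ (κ ≤ n ∧ n < τ) → D n = 0) ∧
      (∀ n, κ ≤ n → n < τ → x n ≤ V n + 4 * D n) := by
  obtain ⟨V, X, h1, h2, h3, h4, h5⟩ := h.flatten_window hb hκ τ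
  refine ⟨V, fun m => ∑ j ∈ Ico b κ, aw (j + 1) * X j m, h1, h2,
    flat_DD hn h3 (fun j m hm => h4 j m (by omega)), fun m => ?_, fun m hm => ?_, fun m hm hm2 => ?_⟩
  · exact sum_nonneg (fun j hj => mul_nonneg (aw_nonneg _) ((h3 j hj).nonneg m))
  · exact sum_eq_zero (fun j _ => by rw [h4 j m hm, mul_zero])
  · refine (h5 m hm hm2).trans (le_of_eq ?_)
    rw [mul_sum]
    congr 1
    apply sum_congr rfl
    intro j _
    rw [aw_four j]; ring

/-- splitting off the weights in `[κ, κ+g)` of the anchors-level functionals -/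
theorem GS.weight_split {n κ : ℕ} {β x : ℕ → ℝ} (h : GS n κ β x) (g : ℕ) :
    ∃ (X : ℕ → ℕ → ℝ) (x' : ℕ → ℝ), (∀ j ∈ Ico κ (κ + g), SN (n * NN j) (j + 1) (X j)) ∧
      GS n (κ + g) β x' ∧ ∀ m, x m ≤ (∑ j ∈ Ico κ (κ + g), aw j * X j m) + x' m := by
  induction h with
  | zero N b =>
      exact ⟨fun _ _ => 0, fun _ => 0, fun j _ => SN.zero _ _, GS.zero _ _, fun m => by simp⟩
  | single b n =>
      exact ⟨fun _ _ => 0, sg n, fun j _ => SN.zero _ _, GS.single _ _, fun m => by simp⟩
  | op b k B X h h0 ih =>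
      refine ⟨fun j => if j ∈ Ico b k then X j else fun _ => 0,
        fun m => ∑ j ∈ Ico (b + g) k, aw j * X j m, ?_, ?_, ?_⟩
      · intro j hj
        by_cases hj' : j ∈ Ico b k
        · simp only [hj', if_true]
          have h1 : SN (NN j) k (X j) := ⟨_, h j hj'⟩
          rw [one_mul]
          exact h1.mono_b (by simp only [mem_Ico] at hj'; omega)
        · simp only [hj', if_false]; exact SN.zero _ _
      · exact GS.op (b + g) k B X (fun j hj => h j (by simp only [mem_Ico] at hj ⊢; omega))
          (fun j hj => h0 j (by simp only [mem_Ico] at hj ⊢; omega))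
      · intro m
        beta_reduce
        have hn : ∀ j ∈ Ico b k, 0 ≤ aw j * X j m := fun j hj =>
          mul_nonneg (aw_nonneg j) ((h j hj).nonneg m)
        rcases le_total k (b + g) with hk | hk
        · have h1 : ∑ j ∈ Ico b k, aw j * X j m =
              ∑ j ∈ Ico b (b + g), aw j * (if j ∈ Ico b k then X j else fun _ => 0) m := by
            have hsub : Ico b k ⊆ Ico b (b + g) := Ico_subset_Ico le_rfl hk
            rw [← sum_subset hsub]
            · apply sum_congr rfl
              intro j hj; simp only [hj, if_true]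
            · intro j _ hj; simp only [hj, if_false, mul_zero]
          rw [h1]
          have h2 : 0 ≤ ∑ j ∈ Ico (b + g) k, aw j * X j m := by
            rw [Ico_eq_empty_of_le hk]; simp
          linarith
        · rw [← sum_Ico_consecutive (fun j => aw j * X j m) (show b ≤ b + g by omega) hk]
          apply le_of_eq
          congr 1
          apply sum_congr rfl
          intro j hj
          have hj' : j ∈ Ico b k := by simp only [mem_Ico] at hj ⊢; omega
          simp only [hj', if_true]
  | add N N' b β β' x x' h h' hd ih ih' =>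
      classical
      obtain ⟨X, y, hX, hy, hx⟩ := ih
      obtain ⟨X', y', hX', hy', hx'⟩ := ih'
      refine ⟨fun j n => (if x' n = 0 then X j n else 0) + (if x' n ≠ 0 then X' j n else 0),
        fun n => (if x' n = 0 then y n else 0) + (if x' n ≠ 0 then y' n else 0), ?_, ?_, ?_⟩
      · intro j hj
        rw [add_mul]
        exact SN.add ((hX j hj).restrict (fun n => x' n = 0)) ((hX' j hj).restrict (fun n => x' n ≠ 0)) (by
            intro n
            by_cases h1 : x' n = 0
            · right; simp [h1]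
            · left; simp [h1])
      · exact GS.add _ _ _ _ _ _ _ (hy.restrict (fun n => x' n = 0))
          (hy'.restrict (fun n => x' n ≠ 0)) (by
            intro n
            by_cases h1 : x' n = 0
            · right; simp [h1]
            · left; simp [h1])
      · intro m
        by_cases h1 : x' m = 0
        · simp only [h1, if_true, ne_eq, not_true_eq_false, if_false, add_zero]
          exact hx m
        · have h2 : x m = 0 := (hd m).resolve_right h1
          simp only [h1, if_false, ne_eq, not_false_eq_true, if_true, zero_add, h2]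
          exact hx' m
  | comb N b β β' x x' s t hs ht hst h h' ih ih' =>
      obtain ⟨X, y, hX, hy, hx⟩ := ih
      obtain ⟨X', y', hX', hy', hx'⟩ := ih'
      refine ⟨fun j n => s * X j n + t * X' j n, fun n => s * y n + t * y' n, ?_, ?_, ?_⟩
      · intro j hj
        exact SN.comb hs ht hst (hX j hj) (hX' j hj)
      · exact GS.comb _ _ _ _ _ _ s t hs ht hst hy hy'
      · intro m
        have h1 := mul_le_mul_of_nonneg_left (hx m) hs
        have h2 := mul_le_mul_of_nonneg_left (hx' m) ht
        have e : ∑ j ∈ Ico b (b + g), aw j * (s * X j m + t * X' j m) =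
            s * ∑ j ∈ Ico b (b + g), aw j * X j m + t * ∑ j ∈ Ico b (b + g), aw j * X' j m := by
          rw [mul_sum, mul_sum, ← sum_add_distrib]
          apply sum_congr rfl; intro j _; ring
        rw [e]; linarith
  | solid N b β x x' h h0 hx ih =>
      obtain ⟨X, y, hX, hy, h3⟩ := ih
      exact ⟨X, y, hX, hy, fun n => (hx n).trans (h3 n)⟩

/-- the split-off part is bounded -/
theorem split_rho {n κ g : ℕ} (hκ : 2 ≤ κ) (hn : n ≤ NN κ) {X : ℕ → ℕ → ℝ}
    (hX : ∀ j ∈ Ico κ (κ + g), SN (n * NN j) (j + 1) (X j)) :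
    SR 1 3 (8 * g) (fun m => ∑ j ∈ Ico κ (κ + g), aw j * X j m) := by
  have h := SR.sum (N := 1) (b := 3) (Ico κ (κ + g)) (fun j => aw j * (2 * 4 ^ (j + 1)))
    (fun j m => aw j * X j m) (by
      intro j hj
      have hj' := hj
      simp only [mem_Ico] at hj'
      have h1 : SN (NN (j + 1)) (j + 1) (X j) := (hX j hj).mono_N (NN_mul_NN_le hn hj'.1)
      exact ((BN (by omega) le_rfl h1).mono_b (by omega)).smul (aw_nonneg j))
  refine h.mono_r (le_of_eq ?_)
  have : ∀ j ∈ Ico κ (κ + g), aw j * (2 * 4 ^ (j + 1)) = 8 := by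
    intro j _
    have := aw_mul j
    calc aw j * (2 * 4 ^ (j + 1)) = 8 * (aw j * 4 ^ j) := by ring
      _ = 8 := by rw [this]; ring
  rw [sum_congr rfl this]
  simp; ring

/-- quantile partition of `[κ, L)` -/
theorem partition {β : ℕ → ℝ} (hβ : ∀ n, 0 ≤ β n) {δ : ℝ} (hδ : 0 < δ) (L : ℕ) :
    ∀ d κ : ℕ, κ ≤ L → L ≤ κ + d → ∃ (T : ℕ) (τ : ℕ → ℕ), τ 0 = κ ∧ τ T = L ∧ Monotone τ ∧
      (T : ℝ) ≤ 2 * (∑ m ∈ Ico κ L, β m) / δ + 2 ∧
      ∀ g < T, τ (g + 1) ≤ τ g + 1 ∨ ∑ m ∈ Ico (τ g) (τ (g + 1)), β m ≤ δ := by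
  intro d
  induction d with
  | zero =>
      intro κ h1 h2
      have : κ = L := by omega
      subst this
      refine ⟨0, fun _ => κ, rfl, rfl, fun _ _ _ => le_rfl, ?_, fun g hg => absurd hg (by omega)⟩
      simp
  | succ d ih =>
      intro κ h1 h2
      by_cases hle : ∑ m ∈ Ico κ L, β m ≤ δ
      · refine ⟨1, fun g => if g = 0 then κ else L, by simp, by simp, ?_, ?_, ?_⟩
        · intro a b hab
          by_cases ha : a = 0
          · by_cases hb : b = 0
            · simp [ha, hb]
            · simp [ha, hb, h1]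
          · have hb : b ≠ 0 := by omega
            simp [ha, hb]
        · have : 0 ≤ ∑ m ∈ Ico κ L, β m := sum_nonneg (fun m _ => hβ m)
          have h3 : 0 ≤ 2 * (∑ m ∈ Ico κ L, β m) / δ := by positivity
          push_cast; linarith
        · intro g hg
          have : g = 0 := by omega
          subst this
          right; simpa using hle
      · push Not at hle
        -- first place where the mass exceeds δ
        have hex : ∃ σ, δ < ∑ m ∈ Ico κ (σ + 1), β m := by
          refine ⟨L, hle.trans_le ?_⟩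
          exact sum_le_sum_of_subset_of_nonneg (Ico_subset_Ico le_rfl (by omega)) (fun m _ _ => hβ m)
        classical
        set σ := Nat.find hex with hσ
        have h3 : δ < ∑ m ∈ Ico κ (σ + 1), β m := Nat.find_spec hex
        have hκσ : κ ≤ σ := by
          by_contra hcon
          rw [Ico_eq_empty_of_le (by omega)] at h3
          simp at h3; linarith
        have h4 : ∑ m ∈ Ico κ σ, β m ≤ δ := by
          by_cases h0 : σ = 0
          · rw [h0]; simp; exact hδ.le
          · have := Nat.find_min hex (m := σ - 1) (by omega)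
            push Not at this
            rwa [show σ - 1 + 1 = σ by omega] at this
        have hσL : σ < L := by
          by_contra hcon
          have : ∑ m ∈ Ico κ L, β m ≤ ∑ m ∈ Ico κ σ, β m :=
            sum_le_sum_of_subset_of_nonneg (Ico_subset_Ico le_rfl (by omega)) (fun m _ _ => hβ m)
          linarith
        obtain ⟨T, τ, hτ0, hτT, hmono, hT, hg⟩ := ih (σ + 1) (by omega) (by omega)
        refine ⟨T + 2, fun g => if g = 0 then κ else if g = 1 then σ else τ (g - 2), by simp, ?_, ?_, ?_, ?_⟩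
        · have h5 : T + 2 ≠ 0 := by omega
          have h6 : T + 2 ≠ 1 := by omega
          simp only [h5, h6, if_false]
          rw [show T + 2 - 2 = T by omega, hτT]
        · intro a b hab
          have hτσ : ∀ c, σ + 1 ≤ τ c := fun c => by rw [← hτ0]; exact hmono (Nat.zero_le c)
          by_cases ha : a = 0
          · by_cases hb : b = 0
            · simp [ha, hb]
            · by_cases hb1 : b = 1
              · simp [ha, hb1, hκσ]
              · simp only [ha, hb, hb1, if_true, if_false]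
                have := hτσ (b - 2); omega
          · have hb : b ≠ 0 := by omega
            by_cases ha1 : a = 1
            · by_cases hb1 : b = 1
              · simp [ha1, hb1]
              · simp only [ha1, hb, hb1, if_true, if_false, one_ne_zero]
                have := hτσ (b - 2); omega
            · have hb1 : b ≠ 1 := by omega
              simp only [ha, hb, ha1, hb1, if_false]
              exact hmono (by omega)
        · have h5 : ∑ m ∈ Ico κ (σ + 1), β m + ∑ m ∈ Ico (σ + 1) L, β m = ∑ m ∈ Ico κ L, β m :=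
            sum_Ico_consecutive _ (by omega) (by omega)
          have h6 : 2 * (∑ m ∈ Ico (σ + 1) L, β m) / δ ≤ 2 * (∑ m ∈ Ico κ L, β m) / δ - 2 := by
            rw [div_le_iff₀ hδ, sub_mul, div_mul_cancel₀ _ hδ.ne']
            linarith
          push_cast; linarith
        · intro g hgT
          by_cases h5 : g = 0
          · subst h5; right; simpa using h4
          · by_cases h6 : g = 1
            · subst h6; left; simp [hτ0]
            · have h7 : g + 1 ≠ 0 := by omega
              have h8 : g + 1 ≠ 1 := by omega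
              simp only [h5, h6, h7, h8, if_false]
              have := hg (g - 2) (by omega)
              rwa [show g - 2 + 1 = g + 1 - 2 by omega] at this

/-- every point is in a window -/
lemma exists_window {τ : ℕ → ℕ} {m : ℕ} : ∀ T : ℕ, τ 0 ≤ m → m < τ T → ∃ g < T, τ g ≤ m ∧ m < τ (g + 1) := by
  intro T
  induction T with
  | zero => intro h1 h2; omega
  | succ T ih =>
      intro h1 h2
      by_cases h : m < τ T
      · obtain ⟨g, hg, h3⟩ := ih h1 h; exact ⟨g, by omega, h3⟩
      · exact ⟨T, by omega, by omega, h2⟩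

/-- additivity over the windows -/
lemma sum_windows (β : ℕ → ℝ) {τ : ℕ → ℕ} (hτ : Monotone τ) (T : ℕ) :
    ∑ g ∈ range T, ∑ m ∈ Ico (τ g) (τ (g + 1)), β m = ∑ m ∈ Ico (τ 0) (τ T), β m := by
  induction T with
  | zero => simp
  | succ T ih =>
      rw [sum_range_succ, ih, sum_Ico_consecutive _ (hτ (Nat.zero_le T)) (hτ (Nat.le_succ T))]

/-- windows are disjoint -/
lemma windows_disj {τ : ℕ → ℕ} (hτ : Monotone τ) {X : ℕ → ℕ → ℝ}
    (hX : ∀ g n, ¬ (τ g ≤ n ∧ n < τ (g + 1)) → X g n = 0) {g g' : ℕ} (hne : g ≠ g') (n : ℕ) :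
    X g n = 0 ∨ X g' n = 0 := by
  by_cases h1 : τ g ≤ n ∧ n < τ (g + 1)
  · right
    apply hX
    rintro ⟨h2, h3⟩
    rcases lt_or_gt_of_ne hne with h | h
    · have := hτ (show g + 1 ≤ g' by omega); omega
    · have := hτ (show g' + 1 ≤ g by omega); omega
  · left; exact hX g n h1

end Pool.Agent.H27.Spread
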