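import Pool.Agent.H27.Spread.Basic

set_option autoImplicit false

/-! The flattening lemma. -/

namespace Pool.Agent.H27.Spread
open Finset

lemma sg_restrict_ge {k κ : ℕ} (h : κ ≤ k) : (fun n => if κ ≤ n then sg k n else 0) = sg k := by
  funext m
  by_cases hm : m = k
  · subst hm; simp [h]
  · simp [sg_ne hm]

lemma sg_restrict_ge' {k κ : ℕ} (h : ¬ κ ≤ k) : (fun n => if κ ≤ n then sg k n else 0) = fun _ => 0 := by
  funext m
  by_cases hm : m = k
  · subst hm; simp [h]
  · simp [sg_ne hm]

/-- Flattening at `κ`: on `[κ, ∞)`, a sum `x` of `N` level-`b` functionals is dominated by a level-`κ` part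
`V` carrying the anchors in `[κ, ∞)`, plus a weighted average of larger sums of level-`κ` functionals. -/
theorem GS.flatten {N b : ℕ} {β x : ℕ → ℝ} (h : GS N b β x) :
    1 ≤ b → ∀ κ, b ≤ κ → ∃ (V : ℕ → ℝ) (X : ℕ → ℕ → ℝ),
      GS N κ (fun n => if κ ≤ n then β n else 0) V ∧
      (∀ j ∈ Ico b κ, SN (N * PP b j) κ (X j)) ∧
      (∀ n, κ ≤ n → x n ≤ V n + ∑ j ∈ Ico b κ, aw j * X j n) := by
  induction h with
  | zero N b =>
      intro hb κ hκ
      refine ⟨fun _ => 0, fun _ _ => 0, ?_, fun j _ => SN.zero _ _, fun n _ => by simp⟩
      simpa using GS.zero N κ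
  | single b n =>
      intro hb κ hκ
      by_cases hn : κ ≤ n
      · refine ⟨sg n, fun _ _ => 0, ?_, fun j _ => SN.zero _ _, fun m _ => by simp⟩
        rw [sg_restrict_ge hn]; exact GS.single κ n
      · refine ⟨fun _ => 0, fun _ _ => 0, ?_, fun j _ => SN.zero _ _, fun m hm => ?_⟩
        · rw [sg_restrict_ge' hn]; exact GS.zero 1 κ
        · rw [sg_ne (by omega)]; simp
  | op b k B X h h0 ih =>
      intro hb κ hκ
      by_cases hk : κ ≤ k
      · -- split the weights
        refine ⟨fun n => ∑ j ∈ Ico κ k, aw j * X j n,
          fun j => if j ∈ Ico b k then X j else fun _ => 0, ?_, ?_, ?_⟩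
        · rw [sg_restrict_ge hk]
          exact GS.op κ k B X (fun j hj => h j (by simp only [mem_Ico] at hj ⊢; omega))
            (fun j hj => h0 j (by simp only [mem_Ico] at hj ⊢; omega))
        · intro j hj
          have hj' : j ∈ Ico b k := by simp only [mem_Ico] at hj ⊢; omega
          simp only [hj', if_true]
          have h1 : SN (NN j) k (X j) := ⟨_, h j hj'⟩
          refine (h1.mono_b hk).mono_N ?_
          rw [one_mul]
          exact NN_le_PP (by simp only [mem_Ico] at hj; omega)
        · intro n _
          beta_reduce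
          rw [← sum_Ico_consecutive (fun j => aw j * X j n) hκ hk, add_comm]
          apply le_of_eq
          congr 1
          apply sum_congr rfl
          intro j hj
          have hj' : j ∈ Ico b k := by simp only [mem_Ico] at hj ⊢; omega
          simp only [hj', if_true]
      · push Not at hk
        -- flatten the children
        have hbk : ∀ j ∈ Ico b k, ∃ (V : ℕ → ℝ) (Y : ℕ → ℕ → ℝ),
            SN (NN j) κ V ∧ (∀ i ∈ Ico k κ, SN (NN j * PP k i) κ (Y i)) ∧
            (∀ n, κ ≤ n → X j n ≤ V n + ∑ i ∈ Ico k κ, aw i * Y i n) := by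
          intro j hj
          have hj' := hj
          simp only [mem_Ico] at hj'
          obtain ⟨V, Y, h1, h2, h3⟩ := ih j hj (by omega) κ hk.le
          exact ⟨V, Y, ⟨_, h1⟩, h2, h3⟩
        choose! V Y hV hY hXY using hbk
        refine ⟨fun _ => 0,
          fun i => if i < k then V i else fun n => ∑ j ∈ Ico b k, aw j * Y j i n, ?_, ?_, ?_⟩
        · rw [sg_restrict_ge' (by omega)]; exact GS.zero 1 κ
        · intro i hi
          simp only [mem_Ico] at hi
          by_cases hik : i < k
          · simp only [hik, if_true]
            refine (hV i (by simp only [mem_Ico]; omega)).mono_N ?_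
            rw [one_mul]; exact NN_le_PP hi.1
          · simp only [hik, if_false]
            refine SN.sum_comb _ _ _ (fun j _ => aw_nonneg j) (aw_sum_le_one hb k) (fun j hj => ?_)
            refine (hY j hj i (by simp only [mem_Ico]; omega)).mono_N ?_
            rw [one_mul]
            simp only [mem_Ico] at hj
            exact NN_mul_PP hj.1 hj.2 (by omega)
        · intro n hn
          beta_reduce
          rw [zero_add]
          by_cases hbk : b ≤ k
          · rw [← sum_Ico_consecutive _ hbk hk.le]
            have e1 : ∑ i ∈ Ico b k, aw i * (if i < k then V i else fun n => ∑ j ∈ Ico b k, aw j * Y j i n) n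
                = ∑ i ∈ Ico b k, aw i * V i n := by
              apply sum_congr rfl
              intro i hi
              have : i < k := by simp only [mem_Ico] at hi; omega
              simp only [this, if_true]
            have e2 : ∑ i ∈ Ico k κ, aw i * (if i < k then V i else fun n => ∑ j ∈ Ico b k, aw j * Y j i n) n
                = ∑ j ∈ Ico b k, aw j * ∑ i ∈ Ico k κ, aw i * Y j i n := by
              simp only [mul_sum]
              rw [sum_comm]
              apply sum_congr rfl
              intro i hi
              have : ¬ i < k := by simp only [mem_Ico] at hi; omega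
              simp only [this, if_false, mul_sum]
              apply sum_congr rfl
              intro j _; ring
            rw [e1, e2, ← sum_add_distrib]
            apply sum_le_sum
            intro j hj
            rw [← mul_add]
            exact mul_le_mul_of_nonneg_left (hXY j hj n hn) (aw_nonneg j)
          · rw [Ico_eq_empty_of_le (by omega : k ≤ b), sum_empty]
            apply sum_nonneg
            intro i hi
            have hik : ¬ i < k := by simp only [mem_Ico] at hi; omega
            simp only [hik, if_false, sum_empty, mul_zero, le_refl]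
  | add N N' b β β' x x' h h' hd ih ih' =>
      intro hb κ hκ
      classical
      obtain ⟨V, X, hV, hX, hx⟩ := ih hb κ hκ
      obtain ⟨V', X', hV', hX', hx'⟩ := ih' hb κ hκ
      -- restrict to the supports
      refine ⟨fun n => (if x' n = 0 then V n else 0) + (if x' n ≠ 0 then V' n else 0),
        fun j n => (if x' n = 0 then X j n else 0) + (if x' n ≠ 0 then X' j n else 0), ?_, ?_, ?_⟩
      · have := GS.add _ _ _ _ _ _ _ (hV.restrict (fun n => x' n = 0))
          (hV'.restrict (fun n => x' n ≠ 0)) (by
            intro n
            by_cases h1 : x' n = 0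
            · right; simp [h1]
            · left; simp [h1])
        have e1 : (fun n => (if κ ≤ n then β n else 0) + if κ ≤ n then β' n else 0) =
          fun n => if κ ≤ n then β n + β' n else 0 := by funext n; split_ifs <;> simp
        rwa [e1] at this
      · intro j hj
        rw [add_mul]
        exact SN.add ((hX j hj).restrict (fun n => x' n = 0)) ((hX' j hj).restrict (fun n => x' n ≠ 0)) (by
            intro n
            by_cases h1 : x' n = 0
            · right; simp [h1]
            · left; simp [h1])
      · intro n hn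
        by_cases h1 : x' n = 0
        · simp only [h1, if_true, ne_eq, not_true_eq_false, if_false, add_zero]
          exact hx n hn
        · have h2 : x n = 0 := (hd n).resolve_right h1
          simp only [h1, if_false, ne_eq, not_false_eq_true, if_true, zero_add, h2]
          exact hx' n hn
  | comb N b β β' x x' s t hs ht hst h h' ih ih' =>
      intro hb κ hκ
      obtain ⟨V, X, hV, hX, hx⟩ := ih hb κ hκ
      obtain ⟨V', X', hV', hX', hx'⟩ := ih' hb κ hκ
      refine ⟨fun n => s * V n + t * V' n, fun j n => s * X j n + t * X' j n, ?_, ?_, ?_⟩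
      · have := GS.comb _ _ _ _ _ _ s t hs ht hst hV hV'
        have e1 : (fun n => s * (if κ ≤ n then β n else 0) + t * if κ ≤ n then β' n else 0) =
          fun n => if κ ≤ n then s * β n + t * β' n else 0 := by funext n; split_ifs <;> simp
        rwa [e1] at this
      · intro j hj
        exact SN.comb hs ht hst (hX j hj) (hX' j hj)
      · intro n hn
        have h1 := mul_le_mul_of_nonneg_left (hx n hn) hs
        have h2 := mul_le_mul_of_nonneg_left (hx' n hn) ht
        have e : ∑ j ∈ Ico b κ, aw j * (s * X j n + t * X' j n) =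
            s * ∑ j ∈ Ico b κ, aw j * X j n + t * ∑ j ∈ Ico b κ, aw j * X' j n := by
          rw [mul_sum, mul_sum, ← sum_add_distrib]
          apply sum_congr rfl; intro j _; ring
        rw [e]; linarith
  | solid N b β x x' h h0 hx ih =>
      intro hb κ hκ
      obtain ⟨V, X, hV, hX, h3⟩ := ih hb κ hκ
      exact ⟨V, X, hV, hX, fun n hn => (hx n).trans (h3 n hn)⟩

/-- restricting to a final segment starting below the level also cuts the anchors -/
lemma GS.restrict_ge {N b : ℕ} {β x : ℕ → ℝ} (h : GS N b β x) (s : ℕ) : s ≤ b →
    GS N b (fun n => if s ≤ n then β n else 0) (fun n => if s ≤ n then x n else 0) := by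
  induction h with
  | zero N b => intro _; simpa using GS.zero N b
  | single b n =>
      intro hs
      by_cases hn : s ≤ n
      · rw [sg_restrict_ge hn]; exact GS.single b n
      · rw [sg_restrict_ge' hn]; exact GS.zero 1 b
  | op b k B X h h0 ih =>
      intro hs
      by_cases hk : s ≤ k
      · rw [sg_restrict_ge hk]
        exact (GS.op b k B X h h0).restrict (fun n => s ≤ n)
      · rw [sg_restrict_ge' hk]
        have h2 : (fun n => if s ≤ n then ∑ j ∈ Ico b k, aw j * X j n else 0) = fun _ => 0 := by
          funext n
          rw [Ico_eq_empty_of_le (by omega : k ≤ b)]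
          simp
        rw [h2]; exact GS.zero 1 b
  | add N N' b β β' x x' h h' hd ih ih' =>
      intro hs
      have := GS.add _ _ _ _ _ _ _ (ih hs) (ih' hs) (by
        intro n
        rcases hd n with h1 | h1
        · left; simp [h1]
        · right; simp [h1])
      have e1 : (fun n => (if s ≤ n then β n else 0) + if s ≤ n then β' n else 0) =
          fun n => if s ≤ n then β n + β' n else 0 := by funext n; split_ifs <;> simp
      have e2 : (fun n => (if s ≤ n then x n else 0) + if s ≤ n then x' n else 0) =
          fun n => if s ≤ n then x n + x' n else 0 := by funext n; split_ifs <;> simp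
      rwa [e1, e2] at this
  | comb N b β β' x x' u t hs ht hst h h' ih ih' =>
      intro hs'
      have := GS.comb _ _ _ _ _ _ u t hs ht hst (ih hs') (ih' hs')
      have e1 : (fun n => u * (if s ≤ n then β n else 0) + t * if s ≤ n then β' n else 0) =
          fun n => if s ≤ n then u * β n + t * β' n else 0 := by funext n; split_ifs <;> simp
      have e2 : (fun n => u * (if s ≤ n then x n else 0) + t * if s ≤ n then x' n else 0) =
          fun n => if s ≤ n then u * x n + t * x' n else 0 := by funext n; split_ifs <;> simp
      rwa [e1, e2] at this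
  | solid N b β x x' h h0 hx ih =>
      intro hs
      refine GS.solid _ _ _ _ _ (ih hs) ?_ ?_ <;> intro n <;> by_cases hn : s ≤ n <;> simp [hn, h0 n, hx n]

/-- Flattening with all parts supported in `[κ, ∞)`. -/
theorem GS.flatten' {N b : ℕ} {β x : ℕ → ℝ} (h : GS N b β x) (hb : 1 ≤ b) {κ : ℕ} (hκ : b ≤ κ) :
    ∃ (V : ℕ → ℝ) (X : ℕ → ℕ → ℝ),
      GS N κ (fun n => if κ ≤ n then β n else 0) V ∧
      (∀ n < κ, V n = 0) ∧
      (∀ j ∈ Ico b κ, SN (N * PP b j) κ (X j)) ∧
      (∀ j, ∀ n < κ, X j n = 0) ∧
      (∀ n, κ ≤ n → x n ≤ V n + ∑ j ∈ Ico b κ, aw j * X j n) := by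
  obtain ⟨V, X, hV, hX, hx⟩ := h.flatten hb κ hκ
  refine ⟨fun n => if κ ≤ n then V n else 0, fun j n => if κ ≤ n then X j n else 0,
    hV.restrict _, fun n hn => by simp [not_le.2 hn], fun j hj => (hX j hj).restrict _,
    fun j n hn => by simp [not_le.2 hn], fun n hn => ?_⟩
  simp only [hn, if_true]; exact hx n hn

/-- Flattening on a window `[κ, τ)`: the anchors of the level-`κ` part are those in the window. -/
theorem GS.flatten_window {N b : ℕ} {β x : ℕ → ℝ} (h : GS N b β x) (hb : 1 ≤ b) {κ : ℕ} (hκ : b ≤ κ)
    (τ : ℕ) :
    ∃ (V : ℕ → ℝ) (X : ℕ → ℕ → ℝ),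
      GS N κ (fun n => if κ ≤ n ∧ n < τ then β n else 0) V ∧
      (∀ n, ¬ (κ ≤ n ∧ n < τ) → V n = 0) ∧
      (∀ j ∈ Ico b κ, SN (N * PP b j) κ (X j)) ∧
      (∀ j n, ¬ (κ ≤ n ∧ n < τ) → X j n = 0) ∧
      (∀ n, κ ≤ n → n < τ → x n ≤ V n + ∑ j ∈ Ico b κ, aw j * X j n) := by
  obtain ⟨V, X, hV, hV0, hX, hX0, hx⟩ := h.flatten' hb hκ
  refine ⟨fun n => if n < τ then V n else 0, fun j n => if n < τ then X j n else 0, ?_, ?_,
    fun j hj => (hX j hj).restrict _, ?_, ?_⟩
  · have := hV.restrict_lt τ
    have e : (fun n => if n < τ then if κ ≤ n then β n else 0 else 0) =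
        fun n => if κ ≤ n ∧ n < τ then β n else 0 := by
      funext n; by_cases h1 : κ ≤ n <;> by_cases h2 : n < τ <;> simp [h1, h2]
    rwa [e] at this
  · intro n hn
    by_cases h2 : n < τ
    · simp only [h2, if_true]; exact hV0 n (by by_contra h3; exact hn ⟨by omega, h2⟩)
    · simp [h2]
  · intro j n hn
    by_cases h2 : n < τ
    · simp only [h2, if_true]; exact hX0 j n (by by_contra h3; exact hn ⟨by omega, h2⟩)
    · simp [h2]
  · intro n hn hn2
    simp only [hn2, if_true]; exact hx n hn

end Pool.Agent.H27.Spread
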