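import Pool.Agent.H27.Spread.Basic

set_option autoImplicit false

/-! Separation of a finitely supported function from `r • S_N(3)`. -/

namespace Pool.Agent.H27.Spread
open Finset

/-- the gauge of `S_N(3)` on finitely supported signed functions -/
noncomputable def gg (N : ℕ) (w : ℕ →₀ ℝ) : ℝ := sInf {r : ℝ | SR N 3 r (fun n => |w n|)}

lemma gg_mem_nonempty {N : ℕ} (hN : 0 < N) (w : ℕ →₀ ℝ) :
    SR N 3 (∑ n ∈ w.support, |w n|) (fun n => |w n|) := by
  have h := SR.sum (N := N) (b := 3) w.support (fun i => |w i| * 1) (fun i n => |w i| * sg i n)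
    (fun i _ => (SR.of_SN ((SN.single 3 i).mono_N hN)).smul (abs_nonneg _))
  simp only [mul_one] at h
  refine h.le (fun n => ?_)
  by_cases hn : n ∈ w.support
  · refine le_trans ?_ (single_le_sum (f := fun i => |w i| * sg i n)
      (fun i _ => mul_nonneg (abs_nonneg _) (sg_nonneg i n)) hn)
    simp [sg_self]
  · rw [Finsupp.notMem_support_iff.1 hn, abs_zero]
    exact sum_nonneg (fun i _ => mul_nonneg (abs_nonneg _) (sg_nonneg i n))

lemma gg_nonempty {N : ℕ} (hN : 0 < N) (w : ℕ →₀ ℝ) : {r : ℝ | SR N 3 r (fun n => |w n|)}.Nonempty :=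
  ⟨_, gg_mem_nonempty hN w⟩
lemma gg_bdd (N : ℕ) (w : ℕ →₀ ℝ) : BddBelow {r : ℝ | SR N 3 r (fun n => |w n|)} :=
  ⟨0, fun _ hr => hr.1⟩
lemma gg_nonneg (N : ℕ) (w : ℕ →₀ ℝ) : 0 ≤ gg N w := Real.sInf_nonneg (fun _ hr => hr.1)
lemma gg_le {N : ℕ} {w : ℕ →₀ ℝ} {r : ℝ} (h : SR N 3 r (fun n => |w n|)) : gg N w ≤ r :=
  csInf_le (gg_bdd N w) h
lemma SR_of_gg_lt {N : ℕ} (hN : 0 < N) {w : ℕ →₀ ℝ} {r : ℝ} (h : gg N w < r) : SR N 3 r (fun n => |w n|) := by
  obtain ⟨r', hr', hlt⟩ := exists_lt_of_csInf_lt (gg_nonempty hN w) h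
  exact SR.mono_r hr' hlt.le
lemma le_gg {N : ℕ} (hN : 0 < N) {w : ℕ →₀ ℝ} {r : ℝ} (h : ¬ SR N 3 r (fun n => |w n|)) : r ≤ gg N w := by
  by_contra hcon
  push Not at hcon
  exact h (SR_of_gg_lt hN hcon)

lemma gg_smul_le {N : ℕ} (hN : 0 < N) {c : ℝ} (hc : 0 < c) (w : ℕ →₀ ℝ) : gg N (c • w) ≤ c * gg N w := by
  have h1 : gg N (c • w) / c ≤ gg N w := by
    apply le_csInf (gg_nonempty hN w)
    intro r hr
    rw [div_le_iff₀ hc, mul_comm]
    apply gg_le
    have := SR.smul hr hc.le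
    refine this.le (fun n => le_of_eq ?_)
    rw [Finsupp.smul_apply, smul_eq_mul, abs_mul, abs_of_pos hc]
  rwa [div_le_iff₀ hc, mul_comm] at h1

lemma gg_smul {N : ℕ} (hN : 0 < N) {c : ℝ} (hc : 0 < c) (w : ℕ →₀ ℝ) : gg N (c • w) = c * gg N w := by
  apply le_antisymm (gg_smul_le hN hc w)
  have := gg_smul_le hN (inv_pos.2 hc) (c • w)
  rw [smul_smul, inv_mul_cancel₀ hc.ne', one_smul] at this
  have h2 := mul_le_mul_of_nonneg_left this hc.le
  rwa [← mul_assoc, mul_inv_cancel₀ hc.ne', one_mul] at h2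

lemma gg_add {N : ℕ} (hN : 0 < N) (w w' : ℕ →₀ ℝ) : gg N (w + w') ≤ gg N w + gg N w' := by
  have h1 : gg N (w + w') - gg N w ≤ gg N w' := by
    apply le_csInf (gg_nonempty hN w')
    intro r' hr'
    have h2 : gg N (w + w') - r' ≤ gg N w := by
      apply le_csInf (gg_nonempty hN w)
      intro r hr
      have h3 : gg N (w + w') ≤ r + r' := by
        apply gg_le
        refine (SR.add hr hr').le (fun n => ?_)
        rw [Finsupp.add_apply]; exact abs_add_le _ _
      linarith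
    linarith
  linarith

lemma sum_single_apply (L : ℕ) (c : ℕ → ℝ) (m : ℕ) :
    (∑ n ∈ range L, c n • Finsupp.single n (1:ℝ)) m = if m < L then c m else 0 := by
  rw [Finsupp.finsetSum_apply]
  simp only [Finsupp.smul_apply, smul_eq_mul, Finsupp.single_apply, mul_ite, mul_one, mul_zero]
  rw [sum_ite_eq']
  simp

/-- **Separation.** -/
theorem exists_functional {N : ℕ} (hN : 0 < N) {L : ℕ} {a : ℕ → ℝ} (ha : ∀ n, 0 ≤ a n)
    (haL : ∀ n, L ≤ n → a n = 0) {r : ℝ} (hr : 0 < r) (h : ¬ SR N 3 r a) :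
    ∃ y : ℕ → ℝ, (∀ n, 0 ≤ y n) ∧ (∀ n, a n = 0 → y n = 0) ∧
      (∀ x, SN N 3 x → ∀ L', ∑ n ∈ range L', x n * y n ≤ 1) ∧ r ≤ ∑ n ∈ range L, a n * y n := by
  classical
  set a' : ℕ →₀ ℝ := ∑ n ∈ range L, a n • Finsupp.single n (1:ℝ) with ha'
  have ha'v : ∀ m, a' m = a m := by
    intro m
    rw [ha', sum_single_apply]
    by_cases hm : m < L
    · simp [hm]
    · simp [hm, haL m (by omega)]
  have hSR : ∀ {ρ : ℝ}, SR N 3 ρ (fun n => |a' n|) → SR N 3 ρ a := by
    intro ρ h1
    refine h1.le (fun n => ?_)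
    rw [ha'v]; exact le_abs_self _
  have hne : a' ≠ 0 := by
    intro h0
    apply h
    refine (SR.zero N 3 hr.le).le (fun n => ?_)
    rw [← ha'v, h0]; simp
  have hga : r ≤ gg N a' := le_gg hN (fun h1 => h (hSR h1))
  obtain ⟨g, hg1, hg2⟩ := exists_extension_of_le_sublinear
    (LinearPMap.mkSpanSingleton (K := ℝ) a' r hne) (gg N) (fun c hc x => gg_smul hN hc x)
    (fun x y => gg_add hN x y) (by
      rintro ⟨x, hx⟩
      obtain ⟨c, rfl⟩ := Submodule.mem_span_singleton.1 hx
      rw [LinearPMap.mkSpanSingleton'_apply]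
      simp only [RingHom.id_apply, smul_eq_mul]
      rcases le_or_gt c 0 with hc | hc
      · exact le_trans (mul_nonpos_of_nonpos_of_nonneg hc hr.le) (gg_nonneg N _)
      · rw [gg_smul hN hc]
        exact mul_le_mul_of_nonneg_left hga hc.le)
  have hga' : g a' = r := by
    have h2 := hg1 ⟨a', (Submodule.mem_span_singleton_self a' : a' ∈ Submodule.span ℝ {a'})⟩
    rw [h2]
    exact LinearPMap.mkSpanSingleton_apply ℝ ℝ hne r
  set G : ℕ → ℝ := fun n => g (Finsupp.single n (1:ℝ)) with hG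
  refine ⟨fun n => if a n = 0 then 0 else |G n|, fun n => ?_, fun n hn => by simp [hn], ?_, ?_⟩
  · dsimp only; split_ifs
    · exact le_rfl
    · exact abs_nonneg _
  · intro x hx L'
    set c : ℕ → ℝ := fun n => if a n = 0 then 0 else x n * SignType.sign (G n) with hc
    set w : ℕ →₀ ℝ := ∑ n ∈ range L', c n • Finsupp.single n (1:ℝ) with hw
    have h1 : g w = ∑ n ∈ range L', x n * (if a n = 0 then 0 else |G n|) := by
      rw [hw, map_sum]
      apply sum_congr rfl
      intro n _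
      rw [map_smul, smul_eq_mul, hc]
      by_cases h0 : a n = 0
      · simp [h0]
      · simp only [h0, if_false]
        rw [mul_assoc]
        congr 1
        exact sign_mul_self (G n)
    have h2 : SR N 3 1 (fun n => |w n|) := by
      refine (SR.of_SN hx).le (fun n => ?_)
      rw [hw, sum_single_apply]
      by_cases h3 : n < L'
      · simp only [h3, if_true, hc]
        by_cases h0 : a n = 0
        · simp [h0, hx.nonneg n]
        · simp only [h0, if_false]
          rw [abs_mul, abs_of_nonneg (hx.nonneg n)]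
          have h4 : |((SignType.sign (G n) : SignType) : ℝ)| ≤ 1 := by
            rcases lt_trichotomy (G n) 0 with h5 | h5 | h5
            · rw [sign_neg h5]; simp
            · rw [h5]; simp
            · rw [sign_pos h5]; simp
          have := hx.nonneg n
          nlinarith
      · simp [h3, hx.nonneg n]
    rw [← h1]
    exact (hg2 w).trans (gg_le h2)
  · rw [← hga', ha', map_sum]
    apply sum_le_sum
    intro n _
    rw [map_smul, smul_eq_mul]
    by_cases h0 : a n = 0
    · simp [h0]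
    · simp only [h0, if_false]
      exact mul_le_mul_of_nonneg_left (le_abs_self _) (ha n)

end Pool.Agent.H27.Spread
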