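import Pool.Agent.H27.Spread.CS

set_option autoImplicit false

/-! The key claim: a flat functional with large weights dominated by a small multiple of a sum of `m`
functionals has small norm. -/

namespace Pool.Agent.H27.Spread
open Finset

/-- estimate on one light window beyond `a` -/
lemma key_window {a m J : ℕ} (hm : m ≤ NN J) (hJ3 : 3 ≤ J) (hJ : J ≤ a) {β z : ℕ → ℝ} (hz : GS 1 a β z)
    {t : ℝ} (ht : 0 < t) {y : ℕ → ℝ} (hy : SN m 3 y) (hzy : ∀ n, z n ≤ t * y n) {s u : ℕ} (hs : a < s)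
    {e : ℕ} (he : 2 * NN (J + 1) * 4 ^ (a + 1) + 2 ≤ 2 ^ e) :
    ∃ V U : ℕ → ℝ, GS 1 s (fun n => if s ≤ n ∧ n < u then β n else 0) V ∧
      SR 1 3 (192 * t + 544 * aw (a + 1) * (128 + 8 * e)) U ∧
      ∀ n, s ≤ n → n < u → z n ≤ V n + U n := by
  obtain ⟨V, D, hV, hV0, hD, hDn, hD0, hle⟩ := hz.flatDD (by omega) (NN_pos a) hs.le u
  obtain ⟨γ, hγ⟩ := hy
  obtain ⟨Vy, X, hVy, hVy0, hX, hX0, hyle⟩ := hγ.flatten_window (by norm_num) (show 3 ≤ s by omega) u
  -- low part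
  have hlow : SN (NN (J + 1)) s (fun n => ∑ j ∈ Ico 3 J, aw j * X j n) := by
    refine SN.sum_comb _ _ _ (fun j _ => aw_nonneg j) (aw_sum_le_one (by norm_num) J) (fun j hj => ?_)
    simp only [mem_Ico] at hj
    refine (hX j (by simp only [mem_Ico]; omega)).mono_N ?_
    calc m * PP 3 j ≤ NN J * NN J := by
          apply Nat.mul_le_mul hm
          exact (PP_le (b := 3) (j := j) hj.1).trans (NN_mono (by omega))
      _ ≤ NN (J + 1) := NN_mul_NN_le le_rfl le_rfl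
  have hy2 : SN (NN (J + 1)) s (fun n => (1 / 2 : ℝ) * Vy n + (1 / 2 : ℝ) * ∑ j ∈ Ico 3 J, aw j * X j n) :=
    SN.comb (by norm_num) (by norm_num) (by norm_num)
      (SN.mono_N (N := m) ⟨_, hVy⟩ (hm.trans (NN_mono (by omega)))) hlow
  -- high part
  have hhigh : DD (J + 1) s (fun n => ∑ j ∈ Ico J s, aw (j + 1) * X j n) := by
    refine DD.of_succ (fun j hj => ?_) (fun j n hn => hX0 j n (by omega))
    simp only [mem_Ico] at hj
    refine (hX j (by simp only [mem_Ico]; omega)).mono_N ?_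
    exact mul_PP_le (by omega) (hm.trans (NN_mono hj.1))
  obtain ⟨γ', hγ'⟩ := hy2
  obtain ⟨A, B, q, hmin, hB, hq, hA⟩ := CS u u (a + 1) s (NN (J + 1)) (by omega) (by omega) (by omega)
    (NN_mono (by omega)) D _ γ' (t / 2) (by linarith) hD hγ'
  refine ⟨V, fun n => t * (4 * ∑ j ∈ Ico J s, aw (j + 1) * X j n) + 4 * (A n + B n), hV, ?_, ?_⟩
  · have h1 : SR 1 3 (t * (4 * 3)) (fun n => t * (4 * ∑ j ∈ Ico J s, aw (j + 1) * X j n)) :=
      (((hhigh.rho (by omega) (by omega)).mono_b (by omega)).smul (by norm_num)).smul ht.le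
    have hqe : q ≤ 2 ^ e := by
      refine le_trans ?_ he
      have h2 : (q : ℝ) ≤ ((2 * NN (J + 1) * 4 ^ (a + 1) + 2 : ℕ) : ℝ) := by
        push_cast
        refine hq.trans ?_
        have h3 := hγ'.mass_le (Ico s u)
        have h4 : (0:ℝ) ≤ 4 ^ (a + 1) := by positivity
        nlinarith [mul_le_mul_of_nonneg_right h3 h4]
      exact_mod_cast h2
    have h2 := (SR.add (BN'_SR hqe hA) hB).smul (c := 4) (by norm_num)
    refine (SR.add h1 h2).mono_r (le_of_eq ?_)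
    ring
  · intro n hn1 hn2
    have h1 := hle n hn1 hn2
    have h2 := hzy n
    have h3 := hyle n hn1 hn2
    have h4 := hmin n hn1 hn2
    have hV' := hV.nonneg n
    rw [← sum_Ico_consecutive (fun j => aw j * X j n) hJ3 (show J ≤ s by omega)] at h3
    have e1 : ∑ j ∈ Ico J s, aw j * X j n = 4 * ∑ j ∈ Ico J s, aw (j + 1) * X j n := by
      rw [mul_sum]; apply sum_congr rfl; intro j _; rw [aw_four j]; ring
    rw [e1] at h3
    set Y := ∑ j ∈ Ico 3 J, aw j * X j n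
    set H := ∑ j ∈ Ico J s, aw (j + 1) * X j n with hH
    have hHn : 0 ≤ H := sum_nonneg (fun j hj => mul_nonneg (aw_nonneg _)
      ((hX j (by simp only [mem_Ico] at hj ⊢; omega)).nonneg n))
    have h5 : t * y n ≤ t * (Vy n + (Y + 4 * H)) := mul_le_mul_of_nonneg_left h3 ht.le
    rcases le_total (D n) (t / 2 * (1 / 2 * Vy n + 1 / 2 * Y)) with h6 | h6
    · rw [min_eq_left h6] at h4
      have : 0 ≤ t * (4 * H) := by positivity
      linarith
    · rw [min_eq_right h6] at h4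
      linarith

/-- quantitative key claim -/
theorem key_quant {a m J : ℕ} (hm : m ≤ NN J) (hJ3 : 3 ≤ J) (hJ : J ≤ a) {z : ℕ → ℝ} (hz : SN 1 a z)
    {t : ℝ} (ht : 0 < t) (hzt : SR m 3 t z) {s : ℝ} (hs : ∀ n, z n ≤ s) {η : ℝ} (hη : 0 < η)
    {e e' : ℕ} (he : 2 * NN (J + 1) * 4 ^ (a + 1) + 2 ≤ 2 ^ e) (he' : 2 / η + 2 ≤ 2 ^ e') :
    SR 1 3 (η * (128 + 8 * e') + 2 ^ e' * (s + (192 * t + 544 * aw (a + 1) * (128 + 8 * e)))) z := by
  obtain ⟨β, hβ⟩ := hz
  obtain ⟨-, y, hy, hzy⟩ := hzt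
  have hs0 : 0 ≤ s := (hβ.nonneg 0).trans (hs 0)
  obtain ⟨L, hL⟩ := hβ.fin
  have hpos : 0 ≤ 544 * aw (a + 1) * (128 + 8 * (e : ℝ)) := by have := aw_nonneg (a + 1); positivity
  obtain ⟨T, τ, hτ0, hτT, hτ, hT, hwin⟩ := partition (β := β) hβ.meas_nonneg hη L L 0 (by omega) (by omega)
  have hT2 : T ≤ 2 ^ e' := by
    have h1 : (T : ℝ) ≤ ((2 ^ e' : ℕ) : ℝ) := by
      push_cast
      refine hT.trans (le_trans ?_ he')
      have h2 := hβ.mass_le (Ico 0 L)
      have h3 : 2 * (∑ m ∈ Ico 0 L, β m) / η ≤ 2 / η := by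
        apply div_le_div_of_nonneg_right _ hη.le
        push_cast at h2; linarith
      linarith
    exact_mod_cast h1
  have hreg : ∀ g < T, ∃ V U : ℕ → ℝ, SR 1 3 η V ∧
      SR 1 3 (s + (192 * t + 544 * aw (a + 1) * (128 + 8 * e))) U ∧
      ∀ n, τ g ≤ n → n < τ (g + 1) → z n ≤ V n + U n := by
    intro g hg
    rcases hwin g hg with h1 | h1
    · refine ⟨fun _ => 0, fun n => s * sg (τ g) n, SR.zero _ _ hη.le, ?_, fun n hn1 hn2 => ?_⟩
      · have := (SR.of_SN (SN.single 3 (τ g))).smul hs0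
        refine this.mono_r ?_
        linarith
      · have : n = τ g := by omega
        subst this
        simpa [sg_self] using hs (τ g)
    · have hmassV : ∀ s' : ℕ, ∀ V : ℕ → ℝ, 3 ≤ s' →
          GS 1 s' (fun n => if τ g ≤ n ∧ n < τ (g + 1) then β n else 0) V → SR 1 3 η V := by
        intro s' V hs' hV
        refine (hV.rho_le_mass (fun L' => ?_)).mono_b hs'
        refine le_trans ?_ h1
        rw [← sum_filter]
        apply sum_le_sum_of_subset_of_nonneg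
        · intro m hm; simp only [mem_filter, mem_Ico] at hm ⊢; exact hm.2
        · intro m _ _; exact hβ.meas_nonneg m
      by_cases h2 : τ g ≤ a
      · -- here `z` itself is the level part
        have h3 : GS 1 a (fun n => if τ g ≤ n ∧ n < τ (g + 1) then β n else 0)
            (fun n => if τ g ≤ n ∧ n < τ (g + 1) then z n else 0) := by
          have h4 := (hβ.restrict_ge (τ g) h2).restrict_lt (τ (g + 1))
          have e1 : ∀ f : ℕ → ℝ, (fun n => if n < τ (g + 1) then if τ g ≤ n then f n else 0 else 0) =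
              fun n => if τ g ≤ n ∧ n < τ (g + 1) then f n else 0 := by
            intro f; funext n
            by_cases h5 : τ g ≤ n <;> by_cases h6 : n < τ (g + 1) <;> simp [h5, h6]
          rwa [e1, e1] at h4
        refine ⟨_, fun _ => 0, hmassV a _ (by omega) h3, SR.zero _ _ (by positivity), fun n hn1 hn2 => ?_⟩
        simp [hn1, hn2]
      · push Not at h2
        obtain ⟨V, U, hV, hU, hle⟩ := key_window hm hJ3 hJ hβ ht hy hzy (u := τ (g + 1)) h2 he
        exact ⟨V, U, hmassV _ V (by omega) hV, hU.mono_r (by linarith), hle⟩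
  choose! V U hV hU hle using hreg
  have h1 := SR.sum_windows hη.le hτ T (fun _ => 1) V hV
  simp only [sum_const, card_range, smul_eq_mul, mul_one] at h1
  have h2 := BN'_SR hT2 h1
  have h3 : SR 1 3 (∑ g ∈ range T, (s + (192 * t + 544 * aw (a + 1) * (128 + 8 * e))))
      (fun n => ∑ g ∈ range T, rp (τ g) (τ (g + 1)) (U g) n) :=
    SR.sum _ _ _ (fun g hg => (hU g (mem_range.1 hg)).rp _ _)
  refine ((SR.add h2 h3).mono_r ?_).le (fun n => ?_)
  · rw [sum_const, card_range, nsmul_eq_mul]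
    have h4 : (T : ℝ) ≤ 2 ^ e' := by exact_mod_cast hT2
    have h5 : 0 ≤ s + (192 * t + 544 * aw (a + 1) * (128 + 8 * (e:ℝ))) := by linarith
    have := mul_le_mul_of_nonneg_right h4 h5
    linarith
  · by_cases hn : n < L
    · obtain ⟨g, hg, hg1, hg2⟩ := exists_window (τ := τ) (m := n) T (by omega) (by omega)
      have h4 := hle g hg n hg1 hg2
      have h5 : V g n ≤ ∑ g ∈ range T, rp (τ g) (τ (g + 1)) (V g) n :=
        (le_rp (s := τ g) (t := τ (g + 1)) ⟨hg1, hg2⟩).trans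
          (single_le_sum (f := fun g => rp (τ g) (τ (g + 1)) (V g) n) (fun g' _ => rp_nonneg _ _ _ _)
            (mem_range.2 hg))
      have h6 : U g n ≤ ∑ g ∈ range T, rp (τ g) (τ (g + 1)) (U g) n :=
        (le_rp (s := τ g) (t := τ (g + 1)) ⟨hg1, hg2⟩).trans
          (single_le_sum (f := fun g => rp (τ g) (τ (g + 1)) (U g) n) (fun g' _ => rp_nonneg _ _ _ _)
            (mem_range.2 hg))
      linarith
    · rw [(hL n (by omega)).2]
      exact add_nonneg (sum_nonneg (fun g _ => rp_nonneg _ _ _ _)) (sum_nonneg (fun g _ => rp_nonneg _ _ _ _))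

/-- `r^n (A + B n) → 0` -/
lemma exists_small {r : ℝ} (hr : 0 ≤ r) (hr1 : r < 1) (A B : ℝ) {c : ℝ} (hc : 0 < c) :
    ∃ n₀ : ℕ, ∀ n, n₀ ≤ n → r ^ n * (A + B * n) < c := by
  have h1 := tendsto_self_mul_const_pow_of_lt_one hr hr1
  have h2 := tendsto_pow_atTop_nhds_zero_of_lt_one hr hr1
  have h3 : Filter.Tendsto (fun n : ℕ => A * r ^ n + B * (n * r ^ n)) Filter.atTop (nhds (A * 0 + B * 0)) :=
    (h2.const_mul A).add (h1.const_mul B)
  rw [mul_zero, mul_zero, add_zero] at h3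
  have h4 := h3.eventually (gt_mem_nhds hc)
  obtain ⟨n₀, hn₀⟩ := Filter.eventually_atTop.1 h4
  exact ⟨n₀, fun n hn => by have := hn₀ n hn; linarith⟩

/-- **Key claim.** -/
theorem key_claim {c : ℝ} (hc : 0 < c) : ∃ t > 0, ∃ s > 0, ∀ m : ℕ, ∃ a₀ : ℕ, ∀ a, a₀ ≤ a →
    ∀ z : ℕ → ℝ, SN 1 a z → (∀ n, z n ≤ s) → SR m 3 t z → SR 1 3 c z := by
  -- choose η = 2^{-p}
  obtain ⟨p, hp⟩ := exists_small (r := 1 / 2) (by norm_num) (by norm_num) 144 8 (show 0 < c / 2 by linarith)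
  have hp' := hp p le_rfl
  set K : ℝ := 2 ^ (p + 2) with hK
  have hKpos : 0 < K := by positivity
  refine ⟨c / (1536 * K), by positivity, c / (8 * K), by positivity, fun m => ?_⟩
  -- choose J
  obtain ⟨J, hJ3, hJm⟩ : ∃ J, 3 ≤ J ∧ m ≤ NN J := by
    refine ⟨max 3 m, le_max_left _ _, ?_⟩
    have h1 : m ≤ 4 ^ m := (Nat.lt_pow_self (by norm_num)).le
    have h2 : 4 ^ m ≤ 2 ^ (4 ^ m) := (Nat.lt_pow_self (by norm_num)).le
    exact (h1.trans h2).trans (NN_mono (le_max_right 3 m))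
  obtain ⟨a₁, ha₁⟩ := exists_small (r := 1 / 4) (by norm_num) (by norm_num)
    (544 * (128 + 8 * (4 ^ (J + 1) + 2))) (544 * 16) (show 0 < c / (4 * K) by positivity)
  refine ⟨max a₁ J, fun a ha z hz hzs hzm => ?_⟩
  have hJa : J ≤ a := (le_max_right _ _).trans ha
  have h1 := key_quant hJm hJ3 hJa hz (t := c / (1536 * K)) (by positivity) hzm hzs
    (η := (1 / 2) ^ p) (by positivity) (e := 4 ^ (J + 1) + 2 * (a + 1) + 2) (e' := p + 2) ?_ ?_
  · refine h1.mono_r ?_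
    have h2 := ha₁ (a + 1) ((le_max_left _ _).trans (ha.trans (Nat.le_succ a)))
    have e1 : 544 * aw (a + 1) * (128 + 8 * ((4 ^ (J + 1) + 2 * (a + 1) + 2 : ℕ) : ℝ)) =
        (1 / 4) ^ (a + 1) * (544 * (128 + 8 * (4 ^ (J + 1) + 2)) + 544 * 16 * ((a + 1 : ℕ) : ℝ)) := by
      unfold aw; push_cast; ring
    rw [e1]
    have e2 : K * (c / (8 * K) + (192 * (c / (1536 * K)) + c / (4 * K))) = c / 2 := by
      field_simp; norm_num
    have h3 := mul_le_mul_of_nonneg_left h2.le hKpos.le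
    have e3 : ((1:ℝ) / 2) ^ p * (128 + 8 * ((p + 2 : ℕ) : ℝ)) = (1 / 2) ^ p * (144 + 8 * p) := by
      push_cast; ring
    rw [e3, ← hK]
    linarith
  · -- 2 * NN (J+1) * 4^(a+1) + 2 ≤ 2^e
    have h2 : 2 ≤ 2 * NN (J + 1) * 4 ^ (a + 1) := by
      have h3 := NN_pos (J + 1)
      have h4 : 0 < 4 ^ (a + 1) := by positivity
      nlinarith [Nat.mul_pos h3 h4]
    calc 2 * NN (J + 1) * 4 ^ (a + 1) + 2 ≤ 2 * (2 * NN (J + 1) * 4 ^ (a + 1)) := by omega
      _ = 2 ^ (4 ^ (J + 1) + 2 * (a + 1) + 2) := by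
        unfold NN
        generalize 4 ^ (J + 1) = w
        rw [pow_add 2 (w + 2 * (a + 1)) 2, pow_add 2 w (2 * (a + 1)), pow_mul 2 2 (a + 1)]
        generalize 2 ^ w = y
        norm_num; ring
  · have e1 : (2:ℝ) / (1 / 2) ^ p = 2 * 2 ^ p := by
      rw [one_div, inv_pow, div_inv_eq_mul]
    rw [e1, pow_add]
    have : (1:ℝ) ≤ 2 ^ p := one_le_pow₀ (by norm_num)
    linarith

end Pool.Agent.H27.Spread
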