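import Pool.Agent.H27.Spread.BN

set_option autoImplicit false

/-! Rapidly increasing sequences of functionals. -/

namespace Pool.Agent.H27.Spread
open Finset

/-- A rapidly increasing sequence: `v i` is supported in `[κ i, κ (i+1))`, nonnegative and bounded by
one on sums of `NN (κ i)` functionals. -/
structure IsRIS (κ : ℕ → ℕ) (v : ℕ → ℕ → ℝ) : Prop where
  mono : Monotone κ
  nonneg : ∀ i n, 0 ≤ v i n
  supp : ∀ i n, ¬ (κ i ≤ n ∧ n < κ (i + 1)) → v i n = 0
  bdd : ∀ i x, SN (NN (κ i)) 3 x → ∀ L, ∑ n ∈ range L, x n * v i n ≤ 1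

lemma IsRIS.le_one {κ : ℕ → ℕ} {v : ℕ → ℕ → ℝ} (h : IsRIS κ v) (i n : ℕ) : v i n ≤ 1 := by
  have h1 := h.bdd i (sg n) ((SN.single 3 n).mono_N (NN_pos _)) (n + 1)
  rw [sum_eq_single n] at h1
  · simpa [sg_self] using h1
  · intro m _ hm; rw [sg_ne hm, zero_mul]
  · intro hn; simp at hn

lemma IsRIS.unique {κ : ℕ → ℕ} {v : ℕ → ℕ → ℝ} (h : IsRIS κ v) (A : Finset ℕ) (k : ℕ) :
    ∑ i ∈ A, (if κ i ≤ k ∧ k < κ (i + 1) then (1:ℝ) else 0) ≤ 1 := by
  rw [← sum_filter, sum_const, nsmul_eq_mul, mul_one]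
  have : (A.filter (fun i => κ i ≤ k ∧ k < κ (i + 1))).card ≤ 1 := by
    rw [card_le_one]
    intro i hi j hj
    simp only [mem_filter] at hi hj
    by_contra hne
    rcases lt_or_gt_of_ne hne with h1 | h1
    · have := h.mono (show i + 1 ≤ j by omega); omega
    · have := h.mono (show j + 1 ≤ i by omega); omega
  exact_mod_cast this

lemma IsRIS.sum_le_one {κ : ℕ → ℕ} {v : ℕ → ℕ → ℝ} (h : IsRIS κ v) (A : Finset ℕ) (n : ℕ) :
    ∑ i ∈ A, v i n ≤ 1 := by
  refine le_trans (sum_le_sum (fun i _ => ?_)) (h.unique A n)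
  by_cases h1 : κ i ≤ n ∧ n < κ (i + 1)
  · rw [if_pos h1]; exact h.le_one i n
  · rw [if_neg h1, h.supp i n h1]

/-- high-level functionals are essentially bounded on a RIS -/
lemma IsRIS.level {κ : ℕ → ℕ} {v : ℕ → ℕ → ℝ} (h : IsRIS κ v) {A : Finset ℕ} (h3 : 3 ≤ κ 0)
    (hA : (A.card : ℝ) * (4 / 3 * aw (κ 0)) ≤ 1) {N b : ℕ} {β u : ℕ → ℝ} (hu : GS N b β u) :
    κ 0 ≤ b → ∀ L, ∑ n ∈ range L, u n * ∑ i ∈ A, v i n ≤ 2 * N := by
  have hvn : ∀ n, 0 ≤ ∑ i ∈ A, v i n := fun n => sum_nonneg (fun i _ => h.nonneg i n)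
  induction hu with
  | zero N b => intro _ L; simp
  | single b n =>
      intro _ L
      have h1 : ∑ m ∈ range L, sg n m * ∑ i ∈ A, v i m ≤ ∑ m ∈ range L, sg n m := by
        apply sum_le_sum
        intro m _
        nlinarith [sg_nonneg n m, h.sum_le_one A m]
      have := sum_sg_le n (range L)
      push_cast; linarith
  | op b k B X hX h0 ih =>
      intro hb L
      have hu1 : SN 1 b (fun n => ∑ j ∈ Ico b k, aw j * X j n) := ⟨_, GS.op b k B X hX h0⟩
      have e1 : ∑ n ∈ range L, (∑ j ∈ Ico b k, aw j * X j n) * ∑ i ∈ A, v i n =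
          ∑ i ∈ A, ∑ n ∈ range L, (∑ j ∈ Ico b k, aw j * X j n) * v i n := by
        rw [sum_comm]; apply sum_congr rfl; intro n _; rw [mul_sum]
      rw [e1]
      have h1 : ∀ i ∈ A, ∑ n ∈ range L, (∑ j ∈ Ico b k, aw j * X j n) * v i n ≤
          4 / 3 * aw (κ 0) + (if κ i ≤ k ∧ k < κ (i + 1) then (1:ℝ) else 0) := by
        intro i _
        have hκi : κ 0 ≤ κ i := h.mono (Nat.zero_le i)
        by_cases hc : κ i ≤ k ∧ k < κ (i + 1)
        · rw [if_pos hc]
          have h2 := h.bdd i _ ((hu1.mono_b (show 3 ≤ b by omega)).mono_N (NN_pos _)) L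
          have := aw_nonneg (κ 0)
          linarith
        · rw [if_neg hc, add_zero]
          by_cases hk : k < κ i
          · have e2 : ∑ n ∈ range L, (∑ j ∈ Ico b k, aw j * X j n) * v i n =
                ∑ j ∈ Ico b k, aw j * ∑ n ∈ range L, X j n * v i n := by
              simp only [sum_mul, mul_sum]
              rw [sum_comm]; apply sum_congr rfl; intro j _; apply sum_congr rfl; intro n _; ring
            rw [e2]
            calc ∑ j ∈ Ico b k, aw j * ∑ n ∈ range L, X j n * v i n ≤ ∑ j ∈ Ico b k, aw j * 1 := by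
                  apply sum_le_sum
                  intro j hj
                  have hj' := hj
                  simp only [mem_Ico] at hj'
                  apply mul_le_mul_of_nonneg_left _ (aw_nonneg j)
                  have h2 : SN (NN j) k (X j) := ⟨_, hX j hj⟩
                  exact h.bdd i _ ((h2.mono_b (show 3 ≤ k by omega)).mono_N (NN_mono (by omega))) L
              _ ≤ 4 / 3 * aw b := by simpa using aw_sum_Ico b k
              _ ≤ 4 / 3 * aw (κ 0) := mul_le_mul_of_nonneg_left (aw_anti hb) (by norm_num)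
          · have e2 : ∑ n ∈ range L, (∑ j ∈ Ico b k, aw j * X j n) * v i n = 0 := by
              apply sum_eq_zero
              intro n _
              by_cases hn : n < k
              · rw [sum_eq_zero (fun j hj => by rw [h0 j hj n hn, mul_zero]), zero_mul]
              · rw [h.supp i n (by omega), mul_zero]
            rw [e2]; have := aw_nonneg (κ 0); positivity
      refine (sum_le_sum h1).trans ?_
      rw [sum_add_distrib, sum_const, nsmul_eq_mul]
      have := h.unique A k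
      push_cast; linarith
  | add N N' b β β' x x' h h' hd ih ih' =>
      intro hb L
      have e : ∑ n ∈ range L, (x n + x' n) * ∑ i ∈ A, v i n =
          ∑ n ∈ range L, x n * ∑ i ∈ A, v i n + ∑ n ∈ range L, x' n * ∑ i ∈ A, v i n := by
        rw [← sum_add_distrib]; apply sum_congr rfl; intro n _; ring
      rw [e]; push_cast; linarith [ih hb L, ih' hb L]
  | comb N b β β' x x' s t hs ht hst h h' ih ih' =>
      intro hb L
      have e : ∑ n ∈ range L, (s * x n + t * x' n) * ∑ i ∈ A, v i n =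
          s * ∑ n ∈ range L, x n * ∑ i ∈ A, v i n + t * ∑ n ∈ range L, x' n * ∑ i ∈ A, v i n := by
        rw [mul_sum, mul_sum, ← sum_add_distrib]; apply sum_congr rfl; intro n _; ring
      rw [e]
      have h1 := mul_le_mul_of_nonneg_left (ih hb L) hs
      have h2 := mul_le_mul_of_nonneg_left (ih' hb L) ht
      have h3 : (0:ℝ) ≤ N := Nat.cast_nonneg N
      nlinarith
  | solid N b β x x' h h0 hx ih =>
      intro hb L
      refine le_trans (sum_le_sum (fun n _ => ?_)) (ih hb L)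
      exact mul_le_mul_of_nonneg_right (hx n) (hvn n)

lemma sq_le_two_pow (e : ℕ) : e ^ 2 ≤ 2 * 2 ^ e := by
  rcases Nat.lt_or_ge e 3 with h | h
  · interval_cases e <;> norm_num
  · induction e, h using Nat.le_induction with
    | base => norm_num
    | succ e he ih => rw [pow_succ 2 e]; nlinarith

/-- **RIS estimate.** -/
theorem IsRIS.bound {κ : ℕ → ℕ} {v : ℕ → ℕ → ℝ} (h : IsRIS κ v) {A : Finset ℕ} (h3 : 3 ≤ κ 0)
    (hA : (A.card : ℝ) * (4 / 3 * aw (κ 0)) ≤ 1) {z : ℕ → ℝ} (hz : SN 1 3 z) (L : ℕ) :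
    (∑ n ∈ range L, z n * ∑ i ∈ A, v i n) * (Nat.size A.card) ≤ 8 * A.card := by
  obtain ⟨β, hβ⟩ := hz
  obtain ⟨V, X, hV, hV0, hX, hX0, hle⟩ := hβ.flatten' (by norm_num) h3
  set n := A.card with hn
  set e := Nat.size n with he
  have hvn : ∀ m, 0 ≤ ∑ i ∈ A, v i m := fun m => sum_nonneg (fun i _ => h.nonneg i m)
  have hv0 : ∀ m, m < κ 0 → ∑ i ∈ A, v i m = 0 := by
    intro m hm
    apply sum_eq_zero
    intro i _
    have := h.mono (Nat.zero_le i)
    exact h.supp i m (by omega)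
  rcases Nat.eq_zero_or_pos n with h0 | hnpos
  · have : e = 0 := by rw [he, h0]; exact Nat.size_zero
    rw [this, h0]; simp
  have hepos : 0 < e := Nat.size_pos.2 hnpos
  have he2 : 2 ^ (e - 1) ≤ n := Nat.lt_size.1 (by omega)
  have he3 : e ≤ n := by
    have : e - 1 < 2 ^ (e - 1) := Nat.lt_pow_self (by norm_num)
    omega
  have he4 : 2 ^ e ≤ 2 * n := by
    have : 2 ^ e = 2 * 2 ^ (e - 1) := by
      conv_lhs => rw [show e = (e - 1) + 1 by omega]
      rw [pow_succ]; ring
    omega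
  -- the pairings
  have hpV : ∑ m ∈ range L, V m * ∑ i ∈ A, v i m ≤ 2 := by
    have := h.level h3 hA hV le_rfl L
    simpa using this
  have hpX1 : ∀ j ∈ Ico 3 (κ 0), ∑ m ∈ range L, X j m * ∑ i ∈ A, v i m ≤ 2 * PP 3 j := by
    intro j hj
    obtain ⟨γ, hγ⟩ := hX j hj
    have := h.level h3 hA hγ le_rfl L
    simpa using this
  have hpX2 : ∀ j ∈ Ico 3 (κ 0), ∑ m ∈ range L, X j m * ∑ i ∈ A, v i m ≤ n := by
    intro j hj
    have hj' := hj
    simp only [mem_Ico] at hj'
    have e1 : ∑ m ∈ range L, X j m * ∑ i ∈ A, v i m = ∑ i ∈ A, ∑ m ∈ range L, X j m * v i m := by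
      rw [sum_comm]; apply sum_congr rfl; intro n _; rw [mul_sum]
    rw [e1]
    calc ∑ i ∈ A, ∑ m ∈ range L, X j m * v i m ≤ ∑ i ∈ A, (1:ℝ) := by
          apply sum_le_sum
          intro i _
          have hκi : κ 0 ≤ κ i := h.mono (Nat.zero_le i)
          refine h.bdd i _ (((hX j hj).mono_b h3).mono_N ?_) L
          rw [one_mul]
          exact (PP_le hj'.1).trans (NN_mono (by omega))
      _ = n := by simp [hn]
  -- total
  have htot : ∑ m ∈ range L, z m * ∑ i ∈ A, v i m ≤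
      ∑ m ∈ range L, V m * ∑ i ∈ A, v i m +
        ∑ j ∈ Ico 3 (κ 0), aw j * ∑ m ∈ range L, X j m * ∑ i ∈ A, v i m := by
    have e1 : ∑ j ∈ Ico 3 (κ 0), aw j * ∑ m ∈ range L, X j m * ∑ i ∈ A, v i m =
        ∑ m ∈ range L, (∑ j ∈ Ico 3 (κ 0), aw j * X j m) * ∑ i ∈ A, v i m := by
      simp only [mul_sum, sum_mul]
      rw [sum_comm]
      apply sum_congr rfl; intro m _
      rw [sum_comm]
      apply sum_congr rfl; intro i _; apply sum_congr rfl; intro j _; ring
    rw [e1, ← sum_add_distrib]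
    apply sum_le_sum
    intro m _
    by_cases hm : m < κ 0
    · rw [hv0 m hm]; simp
    · rw [← add_mul]
      exact mul_le_mul_of_nonneg_right (hle m (by omega)) (hvn m)
  -- choose J
  set J := Nat.log 4 e with hJ
  have hJ1 : 4 ^ J ≤ e := Nat.pow_log_le_self 4 (by omega)
  have hJ2 : e < 4 ^ (J + 1) := Nat.lt_pow_succ_log_self (by norm_num) e
  have hen : (0:ℝ) ≤ e := Nat.cast_nonneg e
  have hnn : (0:ℝ) ≤ n := Nat.cast_nonneg n
  have hpX3 : ∀ j ∈ Ico 3 (κ 0), (∑ m ∈ range L, X j m * ∑ i ∈ A, v i m) * e ≤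
      6 * n + (if J ≤ j then (e * n : ℝ) else 0) := by
    intro j hj
    have hj' := hj
    simp only [mem_Ico] at hj'
    by_cases hjJ : J ≤ j
    · rw [if_pos hjJ]
      have := mul_le_mul_of_nonneg_right (hpX2 j hj) hen
      nlinarith
    · rw [if_neg hjJ, add_zero]
      push Not at hjJ
      have h1 : PP 3 j ≤ 2 ^ (2 * 4 ^ j) := PP_le_two 3 j hj'.1
      have h2 : 4 * 4 ^ j ≤ e := by
        calc 4 * 4 ^ j = 4 ^ (j + 1) := by ring
          _ ≤ 4 ^ J := Nat.pow_le_pow_right (by norm_num) hjJ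
          _ ≤ e := hJ1
      have h4 : PP 3 j ^ 2 ≤ 2 * n := by
        calc PP 3 j ^ 2 ≤ (2 ^ (2 * 4 ^ j)) ^ 2 := Nat.pow_le_pow_left h1 2
          _ = 2 ^ (4 * 4 ^ j) := by rw [← pow_mul]; congr 1; ring
          _ ≤ 2 ^ e := Nat.pow_le_pow_right (by norm_num) h2
          _ ≤ 2 * n := he4
      have h5 : e ^ 2 ≤ 4 * n := by have := sq_le_two_pow e; omega
      have h6 : (2 * PP 3 j * e) ^ 2 ≤ (6 * n) ^ 2 := by
        calc (2 * PP 3 j * e) ^ 2 = 4 * (PP 3 j ^ 2 * e ^ 2) := by ring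
          _ ≤ 4 * ((2 * n) * (4 * n)) := by gcongr
          _ ≤ (6 * n) ^ 2 := by nlinarith [Nat.zero_le (n * n)]
      have h7 : 2 * PP 3 j * e ≤ 6 * n := (Nat.pow_le_pow_iff_left (by norm_num)).1 h6
      have h8 : (2 * PP 3 j * e : ℝ) ≤ 6 * n := by exact_mod_cast h7
      exact (mul_le_mul_of_nonneg_right (hpX1 j hj) hen).trans h8
  have hsum : (∑ j ∈ Ico 3 (κ 0), aw j * ∑ m ∈ range L, X j m * ∑ i ∈ A, v i m) * e ≤
      n / 8 + 16 / 3 * n := by
    calc (∑ j ∈ Ico 3 (κ 0), aw j * ∑ m ∈ range L, X j m * ∑ i ∈ A, v i m) * e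
        = ∑ j ∈ Ico 3 (κ 0), aw j * ((∑ m ∈ range L, X j m * ∑ i ∈ A, v i m) * e) := by
          rw [sum_mul]; apply sum_congr rfl; intro j _; ring
      _ ≤ ∑ j ∈ Ico 3 (κ 0), aw j * (6 * n + (if J ≤ j then (e * n : ℝ) else 0)) :=
          sum_le_sum (fun j hj => mul_le_mul_of_nonneg_left (hpX3 j hj) (aw_nonneg j))
      _ = (∑ j ∈ Ico 3 (κ 0), aw j) * (6 * n) + (∑ j ∈ (Ico 3 (κ 0)).filter (fun j => J ≤ j), aw j) * (e * n) := by
          rw [sum_filter, sum_mul, sum_mul, ← sum_add_distrib]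
          apply sum_congr rfl; intro j _
          by_cases hj : J ≤ j
          · simp only [hj, if_true]; ring
          · simp only [hj, if_false]; ring
      _ ≤ (4 / 3 * aw 3) * (6 * n) + (4 / 3 * aw J) * (e * n) := by
          apply add_le_add
          · exact mul_le_mul_of_nonneg_right (aw_sum_Ico 3 _) (by positivity)
          · apply mul_le_mul_of_nonneg_right _ (by positivity)
            refine le_trans ?_ (aw_sum_Ico J (κ 0))
            apply sum_le_sum_of_subset_of_nonneg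
            · intro j hj; simp only [mem_filter, mem_Ico] at hj ⊢; omega
            · intro j _ _; exact aw_nonneg j
      _ ≤ n / 8 + 16 / 3 * n := by
          have h1 : aw 3 = 1 / 64 := by unfold aw; norm_num
          have h2 : (e : ℝ) * aw J ≤ 4 := by
            have h4 : (e : ℝ) ≤ 4 * 4 ^ J := by
              have : e ≤ 4 * 4 ^ J := by rw [pow_succ] at hJ2; omega
              exact_mod_cast this
            calc (e : ℝ) * aw J ≤ (4 * 4 ^ J) * aw J := mul_le_mul_of_nonneg_right h4 (aw_nonneg J)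
              _ = 4 * (aw J * 4 ^ J) := by ring
              _ = 4 := by rw [aw_mul]; ring
          rw [h1]
          nlinarith [mul_le_mul_of_nonneg_right h2 hnn]
  have h9 := mul_le_mul_of_nonneg_right htot hen
  have h10 : (∑ m ∈ range L, V m * ∑ i ∈ A, v i m) * e ≤ 2 * n := by
    have h11 := mul_le_mul_of_nonneg_right hpV hen
    have h12 : (e : ℝ) ≤ n := by exact_mod_cast he3
    linarith
  rw [add_mul] at h9
  linarith

end Pool.Agent.H27.Spread
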