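import Pool.Agent.H27.Spread.Seq
import Pool.Agent.H27.Spread.RIS

set_option autoImplicit false

/-! Lower estimates on block sequences. -/

namespace Pool.Agent.H27.Spread
open Finset

/-- the conclusion of `exists_good` -/
def Good (c₁ : ℝ) (z : ℕ → ℕ → ℝ) : Prop :=
  ∀ m N : ℕ, ∃ i, N ≤ i ∧ ∃ v : ℕ → ℝ, (∀ n, 0 ≤ v n) ∧ (∀ n, z i n = 0 → v n = 0) ∧
      (∀ x, SN m 3 x → ∀ L, ∑ n ∈ range L, x n * v n ≤ 1) ∧
      ∃ L, c₁ ≤ ∑ n ∈ range L, z i n * v n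

/-- extraction of a RIS -/
theorem exists_RIS {c₁ : ℝ} {z : ℕ → ℕ → ℝ} (hg : Good c₁ z)
    (hmin : ∀ M, ∃ I, ∀ i, I ≤ i → ∀ n < M, z i n = 0) (hL : ∀ i, ∃ L, ∀ n, L ≤ n → z i n = 0)
    (M₀ N₀ : ℕ) : ∃ (φ κ : ℕ → ℕ) (v : ℕ → ℕ → ℝ), StrictMono φ ∧ N₀ ≤ φ 0 ∧ M₀ ≤ κ 0 ∧ IsRIS κ v ∧
      (∀ j, ∃ L, c₁ ≤ ∑ n ∈ range L, z (φ j) n * v j n) := by
  have H : ∀ M N : ℕ, ∃ (i L : ℕ) (v : ℕ → ℝ), N ≤ i ∧ M ≤ L ∧ (∀ n < M, z i n = 0) ∧
      (∀ n, L ≤ n → z i n = 0) ∧ (∀ n, 0 ≤ v n) ∧ (∀ n, z i n = 0 → v n = 0) ∧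
      (∀ x, SN (NN M) 3 x → ∀ L, ∑ n ∈ range L, x n * v n ≤ 1) ∧
      ∃ L, c₁ ≤ ∑ n ∈ range L, z i n * v n := by
    intro M N
    obtain ⟨I, hI⟩ := hmin M
    obtain ⟨i, hi, v, h1, h2, h3, h4⟩ := hg (NN M) (max N I)
    obtain ⟨L, hLi⟩ := hL i
    exact ⟨i, max M L, v, (le_max_left _ _).trans hi, le_max_left _ _,
      hI i ((le_max_right _ _).trans hi), fun n hn => hLi n ((le_max_right _ _).trans hn), h1, h2, h3, h4⟩
  choose fi fL fv h1 h2 h3 h4 h5 h6 h7 h8 using H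
  set st : ℕ → ℕ × ℕ := fun j => Nat.rec (M₀, N₀) (fun _ s => (fL s.1 s.2, fi s.1 s.2 + 1)) j with hst
  have hst0 : st 0 = (M₀, N₀) := rfl
  have hsts : ∀ j, st (j + 1) = (fL (st j).1 (st j).2, fi (st j).1 (st j).2 + 1) := fun j => rfl
  refine ⟨fun j => fi (st j).1 (st j).2, fun j => (st j).1, fun j => fv (st j).1 (st j).2,
    ?_, ?_, ?_, ⟨?_, ?_, ?_, ?_⟩, ?_⟩
  · apply strictMono_nat_of_lt_succ
    intro j
    have := h1 (st (j + 1)).1 (st (j + 1)).2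
    rw [hsts j] at this ⊢
    dsimp only at this ⊢
    omega
  · exact h1 (st 0).1 (st 0).2
  · exact le_rfl
  · apply monotone_nat_of_le_succ
    intro j
    rw [hsts j]
    exact h2 _ _
  · intro j n; exact h5 _ _ n
  · intro j n hn
    apply h6
    by_cases hlt : n < (st j).1
    · exact h3 _ _ n hlt
    · apply h4
      rw [hsts j] at hn
      dsimp only at hn
      omega
  · intro j x hx L; exact h7 _ _ x hx L
  · intro j; exact h8 _ _

/-- **Lower estimate.** -/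
theorem lower {c₁ : ℝ} (hc₁ : 0 < c₁) {z : ℕ → ℕ → ℝ} (hzn : ∀ i n, 0 ≤ z i n) {φ κ : ℕ → ℕ} {v : ℕ → ℕ → ℝ}
    (hRIS : IsRIS κ v) (hpair : ∀ j, ∃ L, c₁ ≤ ∑ n ∈ range L, z (φ j) n * v j n) (h3 : 3 ≤ κ 0)
    (s A : Finset ℕ) (hAs : A ⊆ s) (hcard : (s.card : ℝ) * (4 / 3 * aw (κ 0)) ≤ 1) {c : ℕ → ℝ}
    (hc : ∀ j ∈ s, 0 ≤ c j) {t : ℝ} (ht : 0 ≤ t) (htc : ∀ j ∈ A, t ≤ c j) {r : ℝ}
    (hr : SR 1 3 r (fun n => ∑ j ∈ s, c j * z (φ j) n)) : t * Nat.size A.card ≤ 8 / c₁ * r := by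
  have hr0 : 0 ≤ r := hr.1
  rcases Nat.eq_zero_or_pos A.card with h0 | hpos
  · rw [h0, Nat.size_zero]; simp; positivity
  have hA : (A.card : ℝ) * (4 / 3 * aw (κ 0)) ≤ 1 := by
    refine le_trans ?_ hcard
    apply mul_le_mul_of_nonneg_right _ (by have := aw_nonneg (κ 0); positivity)
    exact_mod_cast card_le_card hAs
  choose L hL using hpair
  set L' := A.sup L with hL'
  have hL2 : ∀ j ∈ A, c₁ ≤ ∑ n ∈ range L', z (φ j) n * v j n := by
    intro j hj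
    refine (hL j).trans ?_
    apply sum_le_sum_of_subset_of_nonneg
    · intro n hn
      simp only [mem_range] at hn ⊢
      exact lt_of_lt_of_le hn (le_sup (f := L) hj)
    · intro n _ _; exact mul_nonneg (hzn _ _) (hRIS.nonneg _ _)
  obtain ⟨-, y, hy, hzy⟩ := hr
  have h1 := hRIS.bound h3 hA hy L'
  -- lower bound for the pairing
  have h2 : t * (c₁ * A.card) ≤ ∑ n ∈ range L', (∑ j ∈ s, c j * z (φ j) n) * ∑ i ∈ A, v i n := by
    calc t * (c₁ * A.card) = ∑ i ∈ A, t * c₁ := by rw [sum_const, nsmul_eq_mul]; ring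
      _ ≤ ∑ i ∈ A, t * ∑ n ∈ range L', z (φ i) n * v i n :=
          sum_le_sum (fun i hi => mul_le_mul_of_nonneg_left (hL2 i hi) ht)
      _ ≤ ∑ i ∈ A, ∑ n ∈ range L', (∑ j ∈ s, c j * z (φ j) n) * v i n := by
          apply sum_le_sum
          intro i hi
          rw [mul_sum]
          apply sum_le_sum
          intro n _
          rw [← mul_assoc]
          apply mul_le_mul_of_nonneg_right _ (hRIS.nonneg _ _)
          calc t * z (φ i) n ≤ c i * z (φ i) n := mul_le_mul_of_nonneg_right (htc i hi) (hzn _ _)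
            _ ≤ ∑ j ∈ s, c j * z (φ j) n :=
                single_le_sum (f := fun j => c j * z (φ j) n)
                  (fun j hj => mul_nonneg (hc j hj) (hzn _ _)) (hAs hi)
      _ = ∑ n ∈ range L', (∑ j ∈ s, c j * z (φ j) n) * ∑ i ∈ A, v i n := by
          rw [sum_comm]; apply sum_congr rfl; intro n _; rw [mul_sum]
  have h4 : ∑ n ∈ range L', (∑ j ∈ s, c j * z (φ j) n) * ∑ i ∈ A, v i n ≤
      r * ∑ n ∈ range L', y n * ∑ i ∈ A, v i n := by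
    rw [mul_sum]
    apply sum_le_sum
    intro n _
    rw [← mul_assoc]
    exact mul_le_mul_of_nonneg_right (hzy n) (sum_nonneg (fun i _ => hRIS.nonneg i n))
  have h5 := h2.trans h4
  have hcp : (0:ℝ) < A.card := by exact_mod_cast hpos
  have hsz : (0:ℝ) ≤ Nat.size A.card := Nat.cast_nonneg _
  have h6 : t * (c₁ * A.card) * (Nat.size A.card) ≤ r * (8 * A.card) := by
    calc t * (c₁ * A.card) * (Nat.size A.card) ≤
        (r * ∑ n ∈ range L', y n * ∑ i ∈ A, v i n) * Nat.size A.card := mul_le_mul_of_nonneg_right h5 hsz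
      _ = r * ((∑ n ∈ range L', y n * ∑ i ∈ A, v i n) * Nat.size A.card) := by ring
      _ ≤ r * (8 * A.card) := mul_le_mul_of_nonneg_left h1 hr0
  have h7 : (t * Nat.size A.card * c₁) * A.card ≤ (8 * r) * A.card := by linarith
  have h8 := le_of_mul_le_mul_right h7 hcp
  rw [div_mul_eq_mul_div, le_div_iff₀ hc₁]
  exact h8

end Pool.Agent.H27.Spread
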