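import Pool.Agent.H27.Spread.Refl

set_option autoImplicit false

/-! Estimates for spreading models. -/

namespace Pool.Agent.H27.Spread
open Finset Filter Topology

variable {X : Type} [NormedAddCommGroup X] [NormedSpace ℝ X]

/-- `T` is the limit function of `x` -/
def IsSM (x : ℕ → X) (T : (k : ℕ) → (Fin k → ℝ) → ℝ) : Prop :=
  ∀ (k : ℕ) (a : Fin k → ℝ) (ε : ℝ), 0 < ε → ∃ N : ℕ, ∀ n : Fin k → ℕ,
    StrictMono n → (∀ i, N ≤ n i) → |‖∑ i, a i • x (n i)‖ - T k a| < ε

namespace Sp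

lemma exists_block (S : Sp X) {x : ℕ → X} (hx : ∀ n, Tendsto (fun i => S.δ n (x i)) atTop (𝓝 0))
    (M N : ℕ) {η : ℝ} (hη : 0 < η) : ∃ (i L : ℕ) (w : ℕ →₀ ℝ), N ≤ i ∧ M < L ∧
      (∀ n, ¬ (M ≤ n ∧ n < L) → w n = 0) ∧ ‖x i - S.emb w‖ ≤ η := by
  have h1 : Tendsto (fun i => S.P 0 M (x i)) atTop (𝓝 0) := by
    have h2 : Tendsto (fun i => ∑ n ∈ Ico 0 M, S.δ n (x i) • S.e n) atTop
        (𝓝 (∑ n ∈ Ico 0 M, (0:ℝ) • S.e n)) :=
      tendsto_finsetSum _ (fun n _ => (hx n).smul_const _)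
    simp only [zero_smul, sum_const_zero] at h2
    refine h2.congr (fun i => ?_)
    rw [P, _root_.sum_apply]
    apply sum_congr rfl
    intro n _
    rw [ContinuousLinearMap.smulRight_apply]
  have h2 : ∀ᶠ i in atTop, ‖S.P 0 M (x i)‖ < η / 2 := by
    have := h1.norm
    rw [norm_zero] at this
    exact this.eventually (gt_mem_nhds (by linarith))
  obtain ⟨i, hi, hiN⟩ := (h2.and (eventually_ge_atTop N)).exists
  have h3 : ∀ᶠ L in atTop, ‖S.P 0 L (x i) - x i‖ < η / 2 := by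
    have := ((S.P_tendsto (x i)).sub_const (x i)).norm
    rw [sub_self, norm_zero] at this
    exact this.eventually (gt_mem_nhds (by linarith))
  obtain ⟨L, hL, hLM⟩ := (h3.and (eventually_gt_atTop M)).exists
  refine ⟨i, L, S.cut M L (x i), hiN, hLM, fun n hn => ?_, ?_⟩
  · rw [cut_apply, if_neg hn]
  · rw [← P_apply, ← S.P_sub hLM.le]
    have e1 : x i - (S.P 0 L (x i) - S.P 0 M (x i)) = -(S.P 0 L (x i) - x i) + S.P 0 M (x i) := by abel
    rw [e1]
    have := norm_add_le (-(S.P 0 L (x i) - x i)) (S.P 0 M (x i))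
    rw [norm_neg] at this
    linarith

/-- gliding hump -/
lemma exists_blocks (S : Sp X) {x : ℕ → X} (hx : ∀ n, Tendsto (fun i => S.δ n (x i)) atTop (𝓝 0))
    (M₀ N₀ : ℕ) {η : ℕ → ℝ} (hη : ∀ j, 0 < η j) :
    ∃ (ι st : ℕ → ℕ) (w : ℕ → ℕ →₀ ℝ), StrictMono ι ∧ N₀ ≤ ι 0 ∧ StrictMono st ∧ st 0 = M₀ ∧
      (∀ j n, ¬ (st j ≤ n ∧ n < st (j + 1)) → w j n = 0) ∧ ∀ j, ‖x (ι j) - S.emb (w j)‖ ≤ η j := by
  have H : ∀ (j M N : ℕ), ∃ (i L : ℕ) (w : ℕ →₀ ℝ), N ≤ i ∧ M < L ∧
      (∀ n, ¬ (M ≤ n ∧ n < L) → w n = 0) ∧ ‖x i - S.emb w‖ ≤ η j :=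
    fun j M N => S.exists_block hx M N (hη j)
  choose fi fL fw h1 h2 h3 h4 using H
  set st : ℕ → ℕ × ℕ := fun j => Nat.rec (M₀, N₀) (fun j s => (fL j s.1 s.2, fi j s.1 s.2 + 1)) j with hst
  have hsts : ∀ j, st (j + 1) = (fL j (st j).1 (st j).2, fi j (st j).1 (st j).2 + 1) := fun j => rfl
  refine ⟨fun j => fi j (st j).1 (st j).2, fun j => (st j).1, fun j => fw j (st j).1 (st j).2,
    ?_, h1 0 (st 0).1 (st 0).2, ?_, rfl, ?_, fun j => h4 _ _ _⟩
  · apply strictMono_nat_of_lt_succ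
    intro j
    have := h1 (j + 1) (st (j + 1)).1 (st (j + 1)).2
    rw [hsts j] at this ⊢
    dsimp only at this ⊢
    omega
  · apply strictMono_nat_of_lt_succ
    intro j
    rw [hsts j]
    exact h2 _ _ _
  · intro j n hn
    apply h3
    beta_reduce at hn
    rw [hsts j] at hn
    exact hn

lemma windows_unique {st : ℕ → ℕ} (hst : StrictMono st) {i j n : ℕ} (hi : st i ≤ n ∧ n < st (i + 1))
    (hj : st j ≤ n ∧ n < st (j + 1)) : i = j := by
  by_contra hne
  rcases lt_or_gt_of_ne hne with h | h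
  · have := hst.monotone (show i + 1 ≤ j by omega); omega
  · have := hst.monotone (show j + 1 ≤ i by omega); omega

/-- comparison of sums along blocks -/
lemma norm_sum_sub_le (S : Sp X) {x : ℕ → X} {k : ℕ} (a : Fin k → ℝ) (n : Fin k → ℕ) (w : Fin k → ℕ →₀ ℝ)
    {η : ℝ} (h : ∀ i, ‖x (n i) - S.emb (w i)‖ ≤ η) :
    |‖∑ i, a i • x (n i)‖ - gg 1 (∑ i, a i • w i)| ≤ η * ∑ i, |a i| := by
  rw [← S.norm_emb, map_sum]
  refine (abs_norm_sub_norm_le _ _).trans ?_
  rw [← sum_sub_distrib, mul_sum]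
  refine (_root_.norm_sum_le _ _).trans (sum_le_sum (fun i _ => ?_))
  rw [map_smul, ← smul_sub, norm_smul, Real.norm_eq_abs, mul_comm]
  exact mul_le_mul_of_nonneg_right (h i) (abs_nonneg _)

/-- **Upper estimate for spreading models.** -/
theorem sm_upper (S : Sp X) {x : ℕ → X} (hx1 : ∀ n, ‖x n‖ = 1)
    (hx : ∀ n, Tendsto (fun i => S.δ n (x i)) atTop (𝓝 0)) {T : (k : ℕ) → (Fin k → ℝ) → ℝ}
    (hT : IsSM x T) {k : ℕ} (a : Fin k → ℝ) {r : ℝ}
    (hM : ∀ (A : Finset (Fin k)) (t : ℝ), 0 ≤ t → (∀ i ∈ A, t ≤ |a i|) → t * Nat.size A.card ≤ r) :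
    T k a ≤ 458 * r := by
  have hr : 0 ≤ r := by simpa using hM ∅ 0 le_rfl (by simp)
  apply le_of_forall_pos_le_add
  intro ε hε
  -- choose η
  set sa : ℝ := ∑ i, |a i| with hsa
  have hsa0 : 0 ≤ sa := sum_nonneg (fun i _ => abs_nonneg _)
  set η : ℝ := min (1 / 2) (ε / (sa + 1)) with hη
  have hηpos : 0 < η := lt_min (by norm_num) (by positivity)
  have hη1 : η ≤ 1 / 2 := min_le_left _ _
  have hη2 : η * (sa + 1) ≤ ε := by
    have := min_le_right (1 / 2) (ε / (sa + 1))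
    rw [← hη, le_div_iff₀ (by linarith)] at this
    exact this
  obtain ⟨N, hN⟩ := hT k a η hηpos
  obtain ⟨ι, st, w, hι, hι0, hst, hst0, hw, hxw⟩ := S.exists_blocks hx (k + 1) N (η := fun _ => η) (fun _ => hηpos)
  have h1 := hN (fun i => ι i) (fun i j hij => hι hij) (fun i => hι0.trans (hι.monotone (Nat.zero_le _)))
  have h2 := S.norm_sum_sub_le a (fun i => ι i) (fun i => w i) (x := x) (η := η) (fun i => hxw i)
  -- the upper estimate for the blocks
  have h3 : SR 1 3 (229 * (1 + 2 * η) * r) (fun n => ∑ i ∈ (univ : Finset (Fin k)), |a i| * |w i n|) := by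
    apply upper (univ : Finset (Fin k)) (fun i n => |w i n|) (fun i => |a i|) (J := k) (κ := k + 1)
      (by linarith) hr (fun i _ => abs_nonneg _)
    · intro i _
      apply SR_of_gg_lt one_pos
      rw [← S.norm_emb]
      have h4 := hxw i
      have h5 := norm_le_insert' (S.emb (w i)) (x (ι i))
      rw [hx1, norm_sub_rev] at h5
      linarith
    · intro i _ n; exact abs_nonneg _
    · intro i _ j _ hij n
      by_contra hcon
      push Not at hcon
      have hi : st i ≤ n ∧ n < st (i + 1) := by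
        by_contra h; exact hcon.1 (by rw [hw i n h, abs_zero])
      have hj : st j ≤ n ∧ n < st (j + 1) := by
        by_contra h; exact hcon.2 (by rw [hw j n h, abs_zero])
      exact hij (Fin.ext (windows_unique hst hi hj))
    · rw [card_univ, Fintype.card_fin]; exact (Nat.lt_pow_self (by norm_num)).le
    · omega
    · intro i _ n hn
      have h4 : st 0 ≤ st i := hst.monotone (Nat.zero_le _)
      rw [hw i n (by omega), abs_zero]
    · intro A _ t ht htA; exact hM A t ht htA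
  have h4 : gg 1 (∑ i, a i • w i) ≤ 229 * (1 + 2 * η) * r := by
    apply gg_le
    refine h3.le (fun n => ?_)
    rw [Finsupp.finsetSum_apply]
    refine (abs_sum_le_sum_abs _ _).trans (le_of_eq ?_)
    apply sum_congr rfl; intro i _
    rw [Finsupp.smul_apply, smul_eq_mul, abs_mul]
  have h5 : 229 * (1 + 2 * η) * r ≤ 458 * r := by
    apply mul_le_mul_of_nonneg_right _ hr
    linarith
  have h6 := (abs_lt.1 h1).1
  have h7 := (abs_le.1 h2).2
  have h8 : η * (sa + 1) = η * sa + η := by ring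
  rw [← hsa] at h7
  linarith

/-- **Lower estimate for spreading models.** -/
theorem sm_lower (S : Sp X) {x : ℕ → X} (hx1 : ∀ n, ‖x n‖ = 1)
    (hx : ∀ n, Tendsto (fun i => S.δ n (x i)) atTop (𝓝 0)) {T : (k : ℕ) → (Fin k → ℝ) → ℝ}
    (hT : IsSM x T) : ∃ C > 0, ∀ (k : ℕ) (a : Fin k → ℝ) (A : Finset (Fin k)) (t : ℝ), 0 ≤ t →
      (∀ i ∈ A, t ≤ |a i|) → t * Nat.size A.card ≤ C * T k a := by
  obtain ⟨ι, st, w, hι, hι0, hst, hst0, hw, hxw⟩ := S.exists_blocks hx 0 0 (η := fun j => (1 / 4) ^ (j + 1))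
    (fun j => by positivity)
  have hη4 : ∀ j : ℕ, ((1:ℝ) / 4) ^ (j + 1) ≤ 1 / 4 := by
    intro j
    rw [pow_succ]
    have : ((1:ℝ) / 4) ^ j ≤ 1 := pow_le_one₀ (by norm_num) (by norm_num)
    linarith
  set z : ℕ → ℕ → ℝ := fun i n => |w i n| with hz
  have hzn : ∀ i n, 0 ≤ z i n := fun i n => abs_nonneg _
  have hz1 : ∀ i, SR 1 3 2 (z i) := by
    intro i
    apply SR_of_gg_lt one_pos
    rw [← S.norm_emb]
    have h4 := (hxw i).trans (hη4 i)
    have h5 := norm_le_insert' (S.emb (w i)) (x (ι i))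
    rw [hx1, norm_sub_rev] at h5
    linarith
  have hz2 : ∀ i, ¬ SR 1 3 (1 / 2) (z i) := by
    intro i hsr
    have h1 := gg_le hsr
    rw [← S.norm_emb] at h1
    have h4 := (hxw i).trans (hη4 i)
    have h5 := norm_le_insert' (x (ι i)) (S.emb (w i))
    rw [hx1] at h5
    linarith
  have hge : ∀ j, j ≤ st j := fun j => hst.id_le j
  have hmin : ∀ M, ∃ I, ∀ i, I ≤ i → ∀ n < M, z i n = 0 := by
    intro M
    refine ⟨M, fun i hi n hn => ?_⟩
    have := hge i
    simp only [hz]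
    rw [hw i n (by omega), abs_zero]
  have hL : ∀ i, ∃ L, ∀ n, L ≤ n → z i n = 0 := by
    intro i
    refine ⟨st (i + 1), fun n hn => ?_⟩
    simp only [hz]
    rw [hw i n (by omega), abs_zero]
  obtain ⟨c₁, hc₁, hgood⟩ := exists_good (by norm_num) (by norm_num) hzn hmin hz1 hz2 hL
  refine ⟨8 / c₁, by positivity, fun k a A t ht htA => ?_⟩
  apply le_of_forall_pos_le_add
  intro ε hε
  set sa : ℝ := ∑ i, |a i| with hsa
  have hsa0 : 0 ≤ sa := sum_nonneg (fun i _ => abs_nonneg _)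
  set η : ℝ := ε / (8 / c₁ * (sa + 2)) with hη
  have hηpos : 0 < η := by positivity
  have hη2 : 8 / c₁ * (η * (sa + 2)) = ε := by rw [hη]; field_simp
  obtain ⟨N, hN⟩ := hT k a η hηpos
  obtain ⟨M, hM3, hM⟩ := exists_card_bound k
  obtain ⟨j₀, hj₀⟩ := exists_small (r := 1 / 4) (by norm_num) (by norm_num) 1 0 hηpos
  obtain ⟨φ, κ, v, hφ, hφ0, hκ, hRIS, hpair⟩ := exists_RIS hgood hmin hL M (max N j₀)
  have hφN : ∀ j, max N j₀ ≤ φ j := fun j => hφ0.trans (hφ.monotone (Nat.zero_le j))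
  have h1 := hN (fun i => ι (φ i)) (fun i j hij => hι (hφ hij))
    (fun i => ((le_max_left _ _).trans (hφN i)).trans (hι.id_le _))
  have h2 := S.norm_sum_sub_le a (fun i => ι (φ i)) (fun i => w (φ i)) (x := x) (η := η) (fun i => by
    refine (hxw (φ i)).trans ?_
    have h3 := hj₀ (φ i + 1) (((le_max_right _ _).trans (hφN i)).trans (Nat.le_succ _))
    rw [zero_mul, add_zero, mul_one] at h3
    exact h3.le)
  have h3 : gg 1 (∑ i, a i • w (φ i)) < T k a + η * (sa + 2) := by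
    have h6 := (abs_lt.1 h1).2
    have h7 := (abs_le.1 h2).1
    rw [← hsa] at h7
    linarith
  have h4 := SR_of_gg_lt one_pos h3
  set c : ℕ → ℝ := fun j => if h : j < k then |a ⟨j, h⟩| else 0 with hc
  have hcv : ∀ i : Fin k, c i = |a i| := by
    intro i; simp only [hc, i.2, dif_pos]
  have h5 : SR 1 3 (T k a + η * (sa + 2)) (fun n => ∑ j ∈ range k, c j * z (φ j) n) := by
    refine h4.le (fun n => ?_)
    rw [Finset.sum_range, Finsupp.finsetSum_apply]
    by_cases hex : ∃ i : Fin k, w (φ i) n ≠ 0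
    · obtain ⟨i, hi⟩ := hex
      have huniq : ∀ j : Fin k, j ≠ i → w (φ j) n = 0 := by
        intro j hj
        by_contra hcon
        have hi' : st (φ i) ≤ n ∧ n < st (φ i + 1) := by
          by_contra h; exact hi (hw _ n h)
        have hj' : st (φ j) ≤ n ∧ n < st (φ j + 1) := by
          by_contra h; exact hcon (hw _ n h)
        exact hj (Fin.ext (hφ.injective (windows_unique hst hj' hi')))
      rw [sum_eq_single i (fun j _ hj => by simp only [hz]; rw [huniq j hj, abs_zero, mul_zero])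
        (fun h => absurd (mem_univ i) h),
        sum_eq_single i (fun j _ hj => by rw [Finsupp.smul_apply, huniq j hj, smul_zero])
        (fun h => absurd (mem_univ i) h), Finsupp.smul_apply, smul_eq_mul, abs_mul, hcv]
    · push Not at hex
      rw [sum_eq_zero (fun j _ => by simp only [hz]; rw [hex j, abs_zero, mul_zero])]
      exact abs_nonneg _
  have h6 := lower hc₁ hzn hRIS hpair (hM3.trans hκ) (range k) (A.map Fin.valEmbedding) (by
      intro j hj
      simp only [Finset.mem_map, Fin.valEmbedding_apply] at hj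
      obtain ⟨i, _, rfl⟩ := hj
      exact mem_range.2 i.2)
    (by rw [card_range]; exact hM _ hκ) (c := c) (fun j _ => by
      simp only [hc]; split_ifs
      · exact abs_nonneg _
      · exact le_rfl) ht (fun j hj => by
      simp only [Finset.mem_map, Fin.valEmbedding_apply] at hj
      obtain ⟨i, hi, rfl⟩ := hj
      rw [hcv]; exact htA i hi) h5
  rw [card_map] at h6
  rw [mul_add, hη2] at h6
  exact h6

/-- norms decrease when the positions move to the right -/
lemma norm_e_mono (S : Sp X) {k : ℕ} (a : Fin k → ℝ) {n n' : Fin k → ℕ} (hn : StrictMono n)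
    (hn' : StrictMono n') (h : ∀ i, n i ≤ n' i) : ‖∑ i, a i • S.e (n' i)‖ ≤ ‖∑ i, a i • S.e (n i)‖ := by
  classical
  have he : ∀ m : Fin k → ℕ, ∑ i, a i • S.e (m i) = S.emb (∑ i, a i • Finsupp.single (m i) (1:ℝ)) := by
    intro m; rw [map_sum]; apply sum_congr rfl; intro i _; rw [map_smul, e]
  rw [he, he, S.norm_emb, S.norm_emb]
  apply le_csInf (gg_nonempty one_pos _)
  intro r hr
  apply gg_le
  set K : ℕ := univ.sup n' + 1 with hK
  have hKn : ∀ i, n' i < K := fun i => Nat.lt_succ_of_le (le_sup (f := n') (mem_univ i))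
  set f : ℕ → ℕ := fun p => if h : ∃ i, n i = p then n' h.choose else p + K with hf
  have hf1 : ∀ i, f (n i) = n' i := by
    intro i
    have hex : ∃ j, n j = n i := ⟨i, rfl⟩
    simp only [hf, dif_pos hex]
    congr 1
    exact hn.injective hex.choose_spec
  have hf2 : ∀ p, (¬ ∃ i, n i = p) → f p = p + K := by
    intro p hp; simp only [hf, dif_neg hp]
  have hinj : Function.Injective f := by
    intro p q hpq
    by_cases hp : ∃ i, n i = p
    · obtain ⟨i, rfl⟩ := hp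
      by_cases hq : ∃ j, n j = q
      · obtain ⟨j, rfl⟩ := hq
        rw [hf1, hf1] at hpq
        rw [hn'.injective hpq]
      · rw [hf1, hf2 q hq] at hpq
        have := hKn i; omega
    · by_cases hq : ∃ j, n j = q
      · obtain ⟨j, rfl⟩ := hq
        rw [hf1, hf2 p hp] at hpq
        have := hKn j; omega
      · rw [hf2 p hp, hf2 q hq] at hpq; omega
  have hle : ∀ p, p ≤ f p := by
    intro p
    by_cases hp : ∃ i, n i = p
    · obtain ⟨i, rfl⟩ := hp
      rw [hf1]; exact h i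
    · rw [hf2 p hp]; omega
  have hval : ∀ (m : Fin k → ℕ) (p : ℕ), (∑ i, a i • Finsupp.single (m i) (1:ℝ)) p =
      ∑ i, if m i = p then a i else 0 := by
    intro m p
    rw [Finsupp.finsetSum_apply]
    apply sum_congr rfl; intro i _
    rw [Finsupp.smul_apply, Finsupp.single_apply, smul_eq_mul]
    split_ifs <;> simp
  refine SR.push hr hinj hle (fun p => ?_) (fun m hm => ?_)
  · rw [hval, hval]
    congr 1
    apply sum_congr rfl; intro i _
    have : n' i = f p ↔ n i = p := by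
      rw [← hf1 i]; exact hinj.eq_iff
    simp only [this]
  · rw [hval, sum_eq_zero, abs_zero]
    intro i _
    rw [if_neg]
    rw [← hf1 i]; exact hm _

/-- the basis has a spreading model -/
theorem basis_sm (S : Sp X) : ∃ T : (k : ℕ) → (Fin k → ℝ) → ℝ, IsSM S.e T := by
  refine ⟨fun k a => ⨅ n : {n : Fin k → ℕ // StrictMono n}, ‖∑ i, a i • S.e (n.1 i)‖, ?_⟩
  intro k a ε hε
  have : Nonempty {n : Fin k → ℕ // StrictMono n} := ⟨⟨fun i => i, fun i j h => h⟩⟩
  have hbdd : BddBelow (Set.range (fun n : {n : Fin k → ℕ // StrictMono n} => ‖∑ i, a i • S.e (n.1 i)‖)) :=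
    ⟨0, by rintro _ ⟨n, rfl⟩; exact norm_nonneg _⟩
  obtain ⟨⟨n₀, hn₀⟩, hlt⟩ := exists_lt_of_ciInf_lt (show (⨅ n : {n : Fin k → ℕ // StrictMono n},
    ‖∑ i, a i • S.e (n.1 i)‖) < (⨅ n : {n : Fin k → ℕ // StrictMono n},
    ‖∑ i, a i • S.e (n.1 i)‖) + ε by linarith)
  refine ⟨univ.sup n₀, fun n hn hN => ?_⟩
  have h1 : ‖∑ i, a i • S.e (n i)‖ ≤ ‖∑ i, a i • S.e (n₀ i)‖ :=
    S.norm_e_mono a hn₀ hn (fun i => (le_sup (f := n₀) (mem_univ i)).trans (hN i))
  have h2 := ciInf_le hbdd ⟨n, hn⟩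
  dsimp only at h2 hlt ⊢
  rw [abs_lt]
  constructor <;> linarith

end Sp

end Pool.Agent.H27.Spread
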