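import Pool.Agent.H27.Spread.Constr
import Pool.Agent.H27.Spread.Model

set_option autoImplicit false

/-! Packaged properties of the space. -/

namespace Pool.Agent.H27.Spread
open Finset Filter Topology

/-- all spreading models are equivalent -/
theorem sm_equiv {x y : ℕ → XX} {N M : (k : ℕ) → (Fin k → ℝ) → ℝ} (hx1 : ∀ n, ‖x n‖ = 1)
    (hx : ∀ f : XX →L[ℝ] ℝ, Tendsto (fun n => f (x n)) atTop (𝓝 0)) (hN : IsSM x N)
    (hy1 : ∀ n, ‖y n‖ = 1) (hy : ∀ f : XX →L[ℝ] ℝ, Tendsto (fun n => f (y n)) atTop (𝓝 0))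
    (hM : IsSM y M) : ∃ C : ℝ, 0 < C ∧ ∀ (k : ℕ) (a : Fin k → ℝ),
      N k a ≤ C * M k a ∧ M k a ≤ C * N k a := by
  obtain ⟨C₁, hC₁, hl₁⟩ := theSp.sm_lower hx1 (fun n => hx (theSp.δ n)) hN
  obtain ⟨C₂, hC₂, hl₂⟩ := theSp.sm_lower hy1 (fun n => hy (theSp.δ n)) hM
  refine ⟨458 * C₁ + 458 * C₂, by positivity, fun k a => ?_⟩
  have hS0 : 0 ≤ N k a := by
    have := hl₁ k a ∅ 0 le_rfl (by simp)
    simp only [Finset.card_empty, zero_mul] at this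
    nlinarith
  have hT0 : 0 ≤ M k a := by
    have := hl₂ k a ∅ 0 le_rfl (by simp)
    simp only [Finset.card_empty, zero_mul] at this
    nlinarith
  have h1 := theSp.sm_upper hx1 (fun n => hx (theSp.δ n)) hN a (r := C₂ * M k a)
    (fun A t ht hA => hl₂ k a A t ht hA)
  have h2 := theSp.sm_upper hy1 (fun n => hy (theSp.δ n)) hM a (r := C₁ * N k a)
    (fun A t ht hA => hl₁ k a A t ht hA)
  constructor
  · nlinarith [mul_nonneg hC₁.le hT0]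
  · nlinarith [mul_nonneg hC₂.le hS0]

/-- the values on the constant vectors are of logarithmic order -/
theorem sm_const {x : ℕ → XX} {N : (k : ℕ) → (Fin k → ℝ) → ℝ} (hx1 : ∀ n, ‖x n‖ = 1)
    (hx : ∀ f : XX →L[ℝ] ℝ, Tendsto (fun n => f (x n)) atTop (𝓝 0)) (hN : IsSM x N) :
    ∃ C > 0, ∀ m : ℕ, ((m : ℝ) + 1) ≤ C * N (2 ^ m) (fun _ => 1) ∧
      N (2 ^ m) (fun _ => 1) ≤ 458 * ((m : ℝ) + 1) := by
  obtain ⟨C₁, hC₁, hl₁⟩ := theSp.sm_lower hx1 (fun n => hx (theSp.δ n)) hN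
  refine ⟨C₁, hC₁, fun m => ⟨?_, ?_⟩⟩
  · have := hl₁ (2 ^ m) (fun _ => 1) Finset.univ 1 zero_le_one (fun i _ => by simp)
    rw [Finset.card_univ, Fintype.card_fin, Nat.size_pow, one_mul] at this
    push_cast at this
    exact this
  · apply theSp.sm_upper hx1 (fun n => hx (theSp.δ n)) hN
    intro A t ht hA
    have h1 : (Nat.size A.card : ℝ) ≤ m + 1 := by
      have h2 : A.card ≤ 2 ^ m := by
        have := Finset.card_le_univ A
        rwa [Fintype.card_fin] at this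
      have h3 := Nat.size_le_size h2
      rw [Nat.size_pow] at h3
      exact_mod_cast h3
    rcases A.eq_empty_or_nonempty with h0 | ⟨i, hi⟩
    · rw [h0]; simp; positivity
    · have h4 : t ≤ 1 := by simpa using hA i hi
      have h5 : (0:ℝ) ≤ Nat.size A.card := Nat.cast_nonneg _
      nlinarith

/-- not `c₀` -/
theorem sm_not_c0 {x : ℕ → XX} {N : (k : ℕ) → (Fin k → ℝ) → ℝ} (hx1 : ∀ n, ‖x n‖ = 1)
    (hx : ∀ f : XX →L[ℝ] ℝ, Tendsto (fun n => f (x n)) atTop (𝓝 0)) (hN : IsSM x N) {C : ℝ}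
    (h : ∀ k : ℕ, N k (fun _ => 1) ≤ C) : False := by
  obtain ⟨C₁, hC₁, hl⟩ := sm_const hx1 hx hN
  obtain ⟨m, hm⟩ := exists_nat_gt (C₁ * C)
  have h2 := (hl m).1
  have h3 := mul_le_mul_of_nonneg_left (h (2 ^ m)) hC₁.le
  linarith

/-- not `ℓ_p` -/
theorem sm_not_lp {x : ℕ → XX} {N : (k : ℕ) → (Fin k → ℝ) → ℝ} (hx1 : ∀ n, ‖x n‖ = 1)
    (hx : ∀ f : XX →L[ℝ] ℝ, Tendsto (fun n => f (x n)) atTop (𝓝 0)) (hN : IsSM x N) {C p : ℝ}
    (hC : 0 < C) (hp : 1 ≤ p) (h : ∀ k : ℕ, (k : ℝ) ^ (1 / p) ≤ C * N k (fun _ => 1)) : False := by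
  obtain ⟨C₁, hC₁, hl⟩ := sm_const hx1 hx hN
  have hp0 : 0 < p := by linarith
  have hr1 : (1 / 2 : ℝ) ^ (1 / p) < 1 :=
    Real.rpow_lt_one (by norm_num) (by norm_num) (by positivity)
  obtain ⟨n₀, hn₀⟩ := exists_small (r := (1 / 2 : ℝ) ^ (1 / p))
    (by positivity) hr1 (C * 458) (C * 458) one_pos
  have h1 := h (2 ^ n₀)
  have h2 := (hl n₀).2
  have h3 := hn₀ n₀ le_rfl
  have h4 : ((1 / 2 : ℝ) ^ (1 / p)) ^ n₀ * (((2 ^ n₀ : ℕ) : ℝ)) ^ (1 / p) = 1 := by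
    rw [← Real.rpow_natCast, ← Real.rpow_mul (by norm_num), mul_comm (1 / p), Real.rpow_mul (by norm_num),
      Real.rpow_natCast, ← Real.mul_rpow (by positivity) (by positivity)]
    push_cast
    rw [← mul_pow]; norm_num
  have h5 := mul_le_mul_of_nonneg_left (h1.trans (mul_le_mul_of_nonneg_left h2 hC.le))
    (show (0:ℝ) ≤ ((1 / 2 : ℝ) ^ (1 / p)) ^ n₀ by positivity)
  rw [h4] at h5
  linarith

end Pool.Agent.H27.Spread
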