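import Pool.Agent.H27.Spread.Space

set_option autoImplicit false

/-! Bounded completeness and reflexivity. -/

namespace Pool.Agent.H27.Spread
open Finset Filter Topology

variable {X : Type} [NormedAddCommGroup X] [NormedSpace ℝ X]

/-- partial sums -/
noncomputable def pc (c : ℕ → ℝ) (N : ℕ) : ℕ →₀ ℝ := ∑ n ∈ range N, c n • Finsupp.single n (1:ℝ)

lemma pc_apply (c : ℕ → ℝ) (N m : ℕ) : pc c N m = if m < N then c m else 0 := sum_single_apply N c m

/-- `k · (4/3) aw κ ≤ 1` for large `κ` -/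
lemma exists_card_bound (k : ℕ) : ∃ M, 3 ≤ M ∧ ∀ κ, M ≤ κ → (k : ℝ) * (4 / 3 * aw κ) ≤ 1 := by
  refine ⟨k + 3, by omega, fun κ hκ => ?_⟩
  have h1 : aw κ ≤ aw (k + 1) := aw_anti (by omega)
  have h2 : (k : ℝ) * aw (k + 1) ≤ 1 / 4 := by
    rw [aw_succ]
    have h3 : (k : ℝ) ≤ 4 ^ k := by
      have : k < 4 ^ k := Nat.lt_pow_self (by norm_num)
      exact_mod_cast this.le
    have h4 := mul_le_mul_of_nonneg_right h3 (aw_nonneg k)
    have h5 := aw_mul k
    linarith
  have h3 : (k : ℝ) * aw κ ≤ k * aw (k + 1) := mul_le_mul_of_nonneg_left h1 (Nat.cast_nonneg k)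
  linarith

namespace Sp

/-- **Bounded completeness.** -/
theorem bounded_complete (S : Sp X) {c : ℕ → ℝ} {K : ℝ} (hK : ∀ N, gg 1 (pc c N) ≤ K) :
    CauchySeq (fun N => S.emb (pc c N)) := by
  by_contra hcon
  rw [Metric.cauchySeq_iff'] at hcon
  push Not at hcon
  obtain ⟨ε, hε, hcon⟩ := hcon
  choose t ht hdist using hcon
  have hK0 : 0 ≤ K := (gg_nonneg 1 _).trans (hK 0)
  set st : ℕ → ℕ := fun j => Nat.rec 0 (fun _ s => t s) j with hst
  have hsts : ∀ j, st (j + 1) = t (st j) := fun j => rfl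
  have hmono : Monotone st := monotone_nat_of_le_succ (fun j => by rw [hsts]; exact ht _)
  have hlt : ∀ j, st j < st (j + 1) := by
    intro j
    rcases (ht (st j)).eq_or_lt with h | h
    · have := hdist (st j)
      rw [← h, dist_self] at this
      linarith
    · rw [hsts]; exact h
  have hge : ∀ j, j ≤ st j := by
    intro j
    induction j with
    | zero => exact Nat.zero_le _
    | succ j ih => have := hlt j; omega
  -- the blocks
  set z : ℕ → ℕ → ℝ := fun i n => if st i ≤ n ∧ n < st (i + 1) then |c n| else 0 with hz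
  have hzn : ∀ i n, 0 ≤ z i n := by
    intro i n; simp only [hz]; split_ifs
    · exact abs_nonneg _
    · exact le_rfl
  have hzs : ∀ i, z i = fun n => |(pc c (st (i + 1)) - pc c (st i)) n| := by
    intro i; funext n
    have := hlt i
    simp only [hz, Finsupp.sub_apply, pc_apply]
    by_cases h1 : n < st i
    · simp [h1, show n < st (i + 1) by omega, show ¬ (st i ≤ n) by omega]
    · by_cases h2 : n < st (i + 1)
      · simp [h1, h2, show st i ≤ n by omega]
      · simp [h1, h2]
  have hzle : ∀ i n, z i n ≤ |pc c (st (i + 1)) n| := by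
    intro i n
    simp only [hz, pc_apply]
    by_cases h2 : n < st (i + 1)
    · simp only [h2, and_true, if_true]; split_ifs
      · exact le_rfl
      · exact abs_nonneg _
    · simp [h2]
  have hzK : ∀ i, SR 1 3 (K + 1) (z i) := by
    intro i
    refine (SR_of_gg_lt one_pos (w := pc c (st (i + 1))) (lt_of_le_of_lt (hK _) (by linarith))).le (hzle i)
  have hzc : ∀ i, ¬ SR 1 3 (ε / 2) (z i) := by
    intro i hsr
    rw [hzs] at hsr
    have h1 := gg_le hsr
    have h2 := hdist (st i)
    rw [dist_eq_norm, ← hsts, ← map_sub, S.norm_emb] at h2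
    linarith
  have hmin : ∀ M, ∃ I, ∀ i, I ≤ i → ∀ n < M, z i n = 0 := by
    intro M
    refine ⟨M, fun i hi n hn => ?_⟩
    have := hge i
    simp only [hz]
    rw [if_neg (by omega)]
  have hL : ∀ i, ∃ L, ∀ n, L ≤ n → z i n = 0 := by
    intro i
    refine ⟨st (i + 1), fun n hn => ?_⟩
    simp only [hz]
    rw [if_neg (by omega)]
  obtain ⟨c₁, hc₁, hgood⟩ := exists_good (by linarith) (by linarith) hzn hmin hzK hzc hL
  -- contradiction by growth
  have hgrow : ∀ k : ℕ, (Nat.size k : ℝ) ≤ 8 / c₁ * (K + 1) := by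
    intro k
    obtain ⟨M, hM3, hM⟩ := exists_card_bound k
    obtain ⟨φ, κ, v, hφ, -, hκ, hRIS, hpair⟩ := exists_RIS hgood hmin hL M 0
    have hsr : SR 1 3 (K + 1) (fun n => ∑ j ∈ range k, (1:ℝ) * z (φ j) n) := by
      have hT := SR_of_gg_lt one_pos (w := pc c (st (φ k + 1))) (r := K + 1)
        (lt_of_le_of_lt (hK _) (by linarith))
      refine hT.le (fun n => ?_)
      simp only [one_mul]
      by_cases hex : ∃ j ∈ range k, z (φ j) n ≠ 0
      · obtain ⟨j, hj, hjn⟩ := hex
        have hj' : st (φ j) ≤ n ∧ n < st (φ j + 1) := by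
          by_contra h; exact hjn (by simp only [hz]; rw [if_neg h])
        rw [sum_eq_single j]
        · simp only [hz, if_pos hj', pc_apply]
          have : st (φ j + 1) ≤ st (φ k + 1) :=
            hmono (Nat.succ_le_succ (hφ.monotone (mem_range.1 hj).le))
          rw [if_pos (by omega)]
        · intro i hi hij
          simp only [hz]
          rw [if_neg]
          rintro ⟨h1, h2⟩
          rcases lt_or_gt_of_ne hij with h | h
          · have := hmono (show φ i + 1 ≤ φ j by have := hφ h; omega); omega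
          · have := hmono (show φ j + 1 ≤ φ i by have := hφ h; omega); omega
        · intro hcon; exact absurd hj hcon
      · push Not at hex
        rw [sum_eq_zero hex]; exact abs_nonneg _
    have := lower hc₁ hzn hRIS hpair (hM3.trans hκ) (range k) (range k) (Subset.refl _)
      (by rw [card_range]; exact hM _ hκ) (c := fun _ => 1) (fun _ _ => zero_le_one) (t := 1)
      zero_le_one (fun _ _ => le_rfl) hsr
    rw [card_range, one_mul] at this
    exact this
  obtain ⟨m, hm⟩ := exists_nat_gt (8 / c₁ * (K + 1))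
  have h1 := hgrow (2 ^ m)
  rw [Nat.size_pow] at h1
  push_cast at h1
  linarith

/-- **Reflexivity.** -/
theorem reflexive [CompleteSpace X] (S : Sp X) :
    Function.Surjective (NormedSpace.inclusionInDoubleDual ℝ X) := by
  intro Φ
  set c : ℕ → ℝ := fun n => Φ (S.δ n) with hc
  -- the action of Φ on f ∘ P
  have hΦ : ∀ (f : X →L[ℝ] ℝ) (N : ℕ), Φ (f.comp (S.P 0 N)) = f (S.emb (pc c N)) := by
    intro f N
    have h1 : f.comp (S.P 0 N) = ∑ n ∈ range N, f (S.e n) • S.δ n := by
      ext x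
      rw [ContinuousLinearMap.comp_apply, P, _root_.sum_apply, map_sum, _root_.sum_apply,
        ← Finset.range_eq_Ico]
      apply sum_congr rfl
      intro n _
      rw [ContinuousLinearMap.smulRight_apply, map_smul, _root_.smul_apply, smul_eq_mul,
        smul_eq_mul, mul_comm]
    rw [h1, map_sum, pc, map_sum, map_sum]
    apply sum_congr rfl
    intro n _
    rw [map_smul, map_smul, map_smul, smul_eq_mul, smul_eq_mul, hc, e, mul_comm]
  have hnorm : ∀ N, gg 1 (pc c N) ≤ ‖Φ‖ := by
    intro N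
    rw [← S.norm_emb]
    obtain ⟨f, hf1, hf2⟩ := exists_dual_vector'' ℝ (S.emb (pc c N))
    have h1 : f (S.emb (pc c N)) = ‖S.emb (pc c N)‖ := by simpa using hf2
    rw [← h1, ← hΦ]
    have h2 : ‖f.comp (S.P 0 N)‖ ≤ 1 := by
      refine (f.opNorm_comp_le _).trans ?_
      have h3 : ‖S.P 0 N‖ ≤ 1 := ContinuousLinearMap.opNorm_le_bound _ zero_le_one
        (fun x => by rw [one_mul]; exact S.norm_P_le 0 N x)
      calc ‖f‖ * ‖S.P 0 N‖ ≤ 1 * 1 := mul_le_mul hf1 h3 (norm_nonneg _) zero_le_one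
        _ = 1 := one_mul 1
    calc Φ (f.comp (S.P 0 N)) ≤ ‖Φ (f.comp (S.P 0 N))‖ := Real.le_norm_self _
      _ ≤ ‖Φ‖ * ‖f.comp (S.P 0 N)‖ := Φ.le_opNorm _
      _ ≤ ‖Φ‖ * 1 := mul_le_mul_of_nonneg_left h2 (ContinuousLinearMap.opNorm_nonneg Φ)
      _ = ‖Φ‖ := mul_one _
  obtain ⟨x, hx⟩ := cauchySeq_tendsto_of_complete (S.bounded_complete hnorm)
  refine ⟨x, ?_⟩
  ext f
  rw [NormedSpace.dual_def]
  -- both are limits of f (emb (pc c N))
  have h1 : Tendsto (fun N => f (S.emb (pc c N))) atTop (𝓝 (f x)) := (f.continuous.tendsto _).comp hx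
  have h2 : Tendsto (fun N => Φ (f.comp (S.P 0 N))) atTop (𝓝 (Φ f)) := by
    apply (Φ.continuous.tendsto f).comp
    rw [Metric.tendsto_atTop]
    intro ε hε
    obtain ⟨N₀, hN₀⟩ := S.shrinking f (show 0 < ε / 2 by linarith)
    refine ⟨N₀, fun N hN => ?_⟩
    rw [dist_eq_norm]
    refine lt_of_le_of_lt (ContinuousLinearMap.opNorm_le_of_unit_norm (by linarith : 0 ≤ ε / 2) ?_) (by linarith)
    intro y hy
    have h3 := hN₀ N hN y hy.le
    rw [_root_.sub_apply, ContinuousLinearMap.comp_apply, Real.norm_eq_abs, abs_sub_comm, ← map_sub]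
    exact h3
  have h3 : (fun N => Φ (f.comp (S.P 0 N))) = fun N => f (S.emb (pc c N)) := funext (fun N => hΦ f N)
  rw [h3] at h2
  exact tendsto_nhds_unique h1 h2

end Sp

end Pool.Agent.H27.Spread
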