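import Pool.Agent.H27.Spread.Key
import Pool.Agent.H27.Spread.HB

set_option autoImplicit false

/-! Good functionals on block sequences. -/

namespace Pool.Agent.H27.Spread
open Finset

/-- splitting a functional far out into a part of very high level and a part of level `J` -/
lemma split_block {K c : ℝ} (hK : 0 < K) {z : ℕ → ℝ} (hn : ∀ n, 0 ≤ z n) (hz : SR 1 3 K z)
    (hzc : ¬ SR 1 3 c z) {J κ : ℕ} (hJ3 : 3 ≤ J) (hJ : J < κ) (hsupp : ∀ n < κ, z n = 0) :
    (∃ w : ℕ → ℝ, (∀ n, 0 ≤ w n) ∧ (∀ n, w n ≤ z n) ∧ SR 1 J (13 * K) w ∧ ¬ SR 1 3 (c / 2) w) ∨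
    (∃ w : ℕ → ℝ, (∀ n, 0 ≤ w n) ∧ (∀ n, w n ≤ z n) ∧
      SR 1 κ (K * ∑ j ∈ Ico 3 J, aw j * (PP 3 j : ℝ)) w ∧ ¬ SR 1 3 (c / 2) w) := by
  obtain ⟨-, y, ⟨β, hy⟩, hzy⟩ := hz
  obtain ⟨V, X, hV, hV0, hX, hX0, hle⟩ := hy.flatten' (by norm_num) (show 3 ≤ κ by omega)
  set low : ℕ → ℝ := fun n => ∑ j ∈ Ico 3 J, aw j * X j n with hlow
  set high : ℕ → ℝ := fun n => V n + 4 * ∑ j ∈ Ico J κ, aw (j + 1) * X j n with hhigh
  have hlown : ∀ n, 0 ≤ low n := fun n => sum_nonneg (fun j hj => mul_nonneg (aw_nonneg j)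
    ((hX j (by simp only [mem_Ico] at hj ⊢; omega)).nonneg n))
  have hhighn : ∀ n, 0 ≤ high n := fun n => add_nonneg (hV.nonneg n) (mul_nonneg (by norm_num)
    (sum_nonneg (fun j hj => mul_nonneg (aw_nonneg _)
      ((hX j (by simp only [mem_Ico] at hj ⊢; omega)).nonneg n))))
  have s1 : SR 1 κ (∑ j ∈ Ico 3 J, aw j * (PP 3 j : ℝ)) low := by
    apply SR.sum
    intro j hj
    have h1 := (hX j (by simp only [mem_Ico] at hj ⊢; omega)).rho_le
    rw [one_mul] at h1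
    exact h1.smul (aw_nonneg j)
  have s2 : SR 1 J 13 high := by
    have h1 : DD (J + 1) κ (fun n => ∑ j ∈ Ico J κ, aw (j + 1) * X j n) := by
      refine DD.of_succ (fun j hj => ?_) (fun j n hn => hX0 j n hn)
      simp only [mem_Ico] at hj
      refine (hX j (by simp only [mem_Ico]; omega)).mono_N ?_
      rw [one_mul]; exact PP_le (by omega)
    have h2 := ((h1.rho (by omega) (by omega)).mono_b (show J ≤ J + 1 by omega)).smul (c := 4) (by norm_num)
    have h3 : SR 1 J 1 V := (SR.of_SN (⟨_, hV⟩ : SN 1 κ V)).mono_b hJ.le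
    exact (SR.add h3 h2).mono_r (by norm_num)
  have hzle : ∀ n, z n ≤ K * low n + K * high n := by
    intro n
    by_cases hnκ : n < κ
    · rw [hsupp n hnκ]
      have := hlown n; have := hhighn n; positivity
    · have h1 := hle n (by omega)
      rw [← sum_Ico_consecutive (fun j => aw j * X j n) hJ3 hJ.le] at h1
      have e1 : ∑ j ∈ Ico J κ, aw j * X j n = 4 * ∑ j ∈ Ico J κ, aw (j + 1) * X j n := by
        rw [mul_sum]; apply sum_congr rfl; intro j _; rw [aw_four j]; ring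
      rw [e1] at h1
      refine (hzy n).trans ?_
      rw [← mul_add]
      apply mul_le_mul_of_nonneg_left _ hK.le
      simp only [hlow, hhigh]; linarith
  by_cases hH : SR 1 3 (c / 2) (fun n => min (z n) (K * high n))
  · right
    refine ⟨fun n => min (z n) (K * low n), fun n => le_min (hn n) (mul_nonneg hK.le (hlown n)),
      fun n => min_le_left _ _, (s1.smul hK.le).le (fun n => min_le_right _ _), fun hL => ?_⟩
    apply hzc
    refine ((SR.add hL hH).mono_r (by linarith)).le (fun n => ?_)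
    have h1 := hzle n
    have h2 := mul_nonneg hK.le (hlown n)
    have h3 := mul_nonneg hK.le (hhighn n)
    have h4 := hn n
    rcases le_total (z n) (K * low n) with h5 | h5
    · rw [min_eq_left h5]
      have : 0 ≤ min (z n) (K * high n) := le_min h4 h3
      linarith
    · rcases le_total (z n) (K * high n) with h6 | h6
      · rw [min_eq_left h6]
        have : 0 ≤ min (z n) (K * low n) := le_min h4 h2
        linarith
      · rw [min_eq_right h5, min_eq_right h6]; exact h1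
  · left
    exact ⟨fun n => min (z n) (K * high n), fun n => le_min (hn n) (mul_nonneg hK.le (hhighn n)),
      fun n => min_le_left _ _, (s2.smul hK.le).le (fun n => min_le_right _ _) |>.mono_r (by linarith), hH⟩

/-- the high-level parts of a block sequence -/
lemma exists_high {K c : ℝ} (hK : 0 < K) {z : ℕ → ℕ → ℝ} (hn : ∀ i n, 0 ≤ z i n)
    (hmin : ∀ M, ∃ I, ∀ i, I ≤ i → ∀ n < M, z i n = 0) (hz : ∀ i, SR 1 3 K (z i))
    (hzc : ∀ i, ¬ SR 1 3 c (z i)) :
    ∃ C' > 0, ∀ a N : ℕ, ∃ i, N ≤ i ∧ ∃ w : ℕ → ℝ, (∀ n, 0 ≤ w n) ∧ (∀ n, w n ≤ z i n) ∧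
      SR 1 a C' w ∧ ¬ SR 1 3 (c / 2) w := by
  by_cases h : ∀ J, 3 ≤ J → ∀ N, ∃ i, N ≤ i ∧ ∃ w : ℕ → ℝ, (∀ n, 0 ≤ w n) ∧ (∀ n, w n ≤ z i n) ∧
      SR 1 J (13 * K) w ∧ ¬ SR 1 3 (c / 2) w
  · refine ⟨13 * K, by positivity, fun a N => ?_⟩
    obtain ⟨i, hi, w, h1, h2, h3, h4⟩ := h (max a 3) (le_max_right _ _) N
    exact ⟨i, hi, w, h1, h2, h3.mono_b (le_max_left _ _), h4⟩
  · push Not at h
    obtain ⟨J, hJ3, N₀, hN₀⟩ := h
    set D : ℝ := K * ∑ j ∈ Ico 3 J, aw j * (PP 3 j : ℝ) with hD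
    have hDn : 0 ≤ D := mul_nonneg hK.le (sum_nonneg (fun j _ => mul_nonneg (aw_nonneg j) (Nat.cast_nonneg _)))
    refine ⟨D + 1, by linarith, fun a N => ?_⟩
    obtain ⟨I, hI⟩ := hmin (max a (J + 1))
    set i := max N (max N₀ I) with hi
    have hi1 : N ≤ i := le_max_left _ _
    have hi2 : N₀ ≤ i := (le_max_left _ _).trans (le_max_right _ _)
    have hi3 : I ≤ i := (le_max_right _ _).trans (le_max_right _ _)
    have hJκ : J < max a (J + 1) := lt_of_lt_of_le (Nat.lt_succ_self J) (le_max_right _ _)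
    rcases split_block hK (hn i) (hz i) (hzc i) hJ3 hJκ (hI i hi3) with ⟨w, h1, h2, h3, h4⟩ | ⟨w, h1, h2, h3, h4⟩
    · exact absurd (hN₀ i hi2 w h1 h2 h3) h4
    · exact ⟨i, hi1, w, h1, h2, (h3.mono_b (le_max_left _ _)).mono_r (by linarith), h4⟩

/-- **Good functionals.** -/
theorem exists_good {K c : ℝ} (hK : 0 < K) (hc : 0 < c) {z : ℕ → ℕ → ℝ} (hn : ∀ i n, 0 ≤ z i n)
    (hmin : ∀ M, ∃ I, ∀ i, I ≤ i → ∀ n < M, z i n = 0) (hz : ∀ i, SR 1 3 K (z i))
    (hzc : ∀ i, ¬ SR 1 3 c (z i)) (hL : ∀ i, ∃ L, ∀ n, L ≤ n → z i n = 0) :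
    ∃ c₁ > 0, ∀ m N : ℕ, ∃ i, N ≤ i ∧ ∃ v : ℕ → ℝ, (∀ n, 0 ≤ v n) ∧ (∀ n, z i n = 0 → v n = 0) ∧
      (∀ x, SN m 3 x → ∀ L, ∑ n ∈ range L, x n * v n ≤ 1) ∧
      ∃ L, c₁ ≤ ∑ n ∈ range L, z i n * v n := by
  by_cases hflat : ∀ s : ℝ, 0 < s → ∃ N, ∀ i, N ≤ i → ∀ n, z i n ≤ s
  · -- flat case
    obtain ⟨C', hC', hhigh⟩ := exists_high hK hn hmin hz hzc
    obtain ⟨t, ht, s, hs, hkey⟩ := key_claim (c := c / 2 / C') (by positivity)
    refine ⟨C' * t, by positivity, fun m N => ?_⟩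
    obtain ⟨a₀, ha₀⟩ := hkey (max m 1)
    obtain ⟨N₁, hN₁⟩ := hflat (C' * s) (by positivity)
    obtain ⟨i, hi, w, hw0, hwz, hwa, hwc⟩ := hhigh a₀ (max N N₁)
    have hwsn : SN 1 a₀ (fun n => C'⁻¹ * w n) :=
      hwa.to_SN (by positivity) (by rw [inv_mul_cancel₀ hC'.ne']) hw0
    have hws : ∀ n, C'⁻¹ * w n ≤ s := by
      intro n
      rw [inv_mul_le_iff₀ hC']
      exact (hwz n).trans (hN₁ i ((le_max_right _ _).trans hi) n)
    have hnot : ¬ SR (max m 1) 3 t (fun n => C'⁻¹ * w n) := by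
      intro hcon
      have h1 := ha₀ a₀ le_rfl _ hwsn hws hcon
      apply hwc
      have h2 := h1.smul hC'.le
      have e1 : C' * (c / 2 / C') = c / 2 := by field_simp
      rw [e1] at h2
      refine h2.le (fun n => ?_)
      rw [← mul_assoc, mul_inv_cancel₀ hC'.ne', one_mul]
    obtain ⟨L, hLi⟩ := hL i
    have hw0' : ∀ n, L ≤ n → w n = 0 := fun n hn' => le_antisymm ((hwz n).trans (hLi n hn').le) (hw0 n)
    obtain ⟨y, hy0, hya, hyx, hyr⟩ := exists_functional (N := max m 1) (by omega) (L := L)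
      (a := fun n => C'⁻¹ * w n) (fun n => mul_nonneg (by positivity) (hw0 n))
      (fun n hn' => by rw [hw0' n hn', mul_zero]) ht hnot
    refine ⟨i, (le_max_left _ _).trans hi, y, hy0, fun n hn' => ?_, fun x hx L' => ?_, L, ?_⟩
    · apply hya
      have : w n = 0 := le_antisymm ((hwz n).trans hn'.le) (hw0 n)
      rw [this, mul_zero]
    · exact hyx x (hx.mono_N (le_max_left _ _)) L'
    · calc C' * t ≤ C' * ∑ n ∈ range L, C'⁻¹ * w n * y n := mul_le_mul_of_nonneg_left hyr hC'.le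
        _ = ∑ n ∈ range L, w n * y n := by
            rw [mul_sum]; apply sum_congr rfl; intro n _; field_simp
        _ ≤ ∑ n ∈ range L, z i n * y n :=
            sum_le_sum (fun n _ => mul_le_mul_of_nonneg_right (hwz n) (hy0 n))
  · -- some coordinates stay large
    push Not at hflat
    obtain ⟨s, hs, hbig⟩ := hflat
    refine ⟨s, hs, fun m N => ?_⟩
    obtain ⟨i, hi, n₀, hn₀⟩ := hbig N
    refine ⟨i, hi, sg n₀, sg_nonneg n₀, fun n hn' => ?_, fun x hx L => ?_, n₀ + 1, ?_⟩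
    · apply sg_ne; rintro rfl; linarith
    · calc ∑ n ∈ range L, x n * sg n₀ n ≤ ∑ n ∈ range L, sg n₀ n := by
            apply sum_le_sum
            intro n _
            have := hx.le_one (by norm_num) n
            nlinarith [sg_nonneg n₀ n]
        _ ≤ 1 := sum_sg_le _ _
    · rw [sum_eq_single n₀]
      · rw [sg_self, mul_one]; exact hn₀.le
      · intro m _ hm; rw [sg_ne hm, mul_zero]
      · intro h; simp at h

end Pool.Agent.H27.Spread
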