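import Pool.Agent.H27.Spread.DD

set_option autoImplicit false

/-! The upper (substitution) estimate and the right-spreading property. -/

namespace Pool.Agent.H27.Spread
open Finset

/-- substitution -/
theorem subst {κ : ℕ} {x : ℕ → ℕ → ℝ} (hx : ∀ j ∈ Ico 3 κ, SN (NN j) 3 (x j))
    (hx0 : ∀ j ∈ Ico 3 κ, ∀ n < κ, x j n = 0) :
    SR 1 3 25 (fun n => ∑ j ∈ Ico 3 κ, aw j * x j n) := by
  by_cases hκ : κ ≤ 3
  · rw [Ico_eq_empty_of_le hκ]; simpa using SR.zero 1 3 (by norm_num)
  push Not at hκ
  have hfl : ∀ j ∈ Ico 3 κ, ∃ (V : ℕ → ℝ) (X : ℕ → ℕ → ℝ), SN (NN j) κ V ∧ (∀ n < κ, V n = 0) ∧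
      (∀ i ∈ Ico 3 κ, SN (NN j * PP 3 i) κ (X i)) ∧ (∀ i, ∀ n < κ, X i n = 0) ∧
      (∀ n, κ ≤ n → x j n ≤ V n + ∑ i ∈ Ico 3 κ, aw i * X i n) := by
    intro j hj
    obtain ⟨β, hβ⟩ := hx j hj
    obtain ⟨V, X, h1, h2, h3, h4, h5⟩ := hβ.flatten' (by norm_num) hκ.le
    exact ⟨V, X, ⟨_, h1⟩, h2, h3, h4, h5⟩
  choose! V Y hV hV0 hY hY0 hle using hfl
  have s1 : SR 1 3 1 (fun n => ∑ j ∈ Ico 3 κ, aw j * V j n) :=
    SR.of_SN (SN.op (k := κ) hV hV0)
  -- the two double sums
  have s2 : SR 1 3 12 (fun n => 4 * ∑ l ∈ Ico 3 κ, aw (l + 1) * (if l ∈ Ico 3 κ then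
      (fun n => ∑ j ∈ Icc 3 l, aw j * Y j l n) else fun _ => 0) n) := by
    have h1 := DD.of_succ (b := 3) (κ := κ) (X := fun l => if l ∈ Ico 3 κ then
      (fun n => ∑ j ∈ Icc 3 l, aw j * Y j l n) else fun _ => 0) (by
        intro l hl
        simp only [hl, if_true]
        have hl' := hl
        simp only [mem_Ico] at hl'
        refine SN.sum_comb _ _ _ (fun j _ => aw_nonneg j) ?_ (fun j hj => ?_)
        · have := aw_sum_Icc 3 l
          have h2 : aw 3 = 1 / 64 := by unfold aw; norm_num
          rw [h2] at this; linarith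
        · simp only [mem_Icc] at hj
          refine (hY j (by simp only [mem_Ico]; omega) l hl).mono_N ?_
          exact mul_PP_le hl'.1 (NN_mono hj.2)) (by
        intro l m hm
        by_cases hl : l ∈ Ico 3 κ
        · simp only [hl, if_true]
          have hl' := hl
          simp only [mem_Ico] at hl'
          apply sum_eq_zero
          intro j hj
          simp only [mem_Icc] at hj
          rw [hY0 j (by simp only [mem_Ico]; omega) l m hm, mul_zero]
        · simp only [hl, if_false])
    have h2 := ((h1.rho (by norm_num) (by omega)).mono_b (show 3 ≤ 3 + 1 by norm_num)).smul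
      (c := 4) (by norm_num)
    exact h2.mono_r (by norm_num)
  have s3 : SR 1 3 12 (fun n => 4 * ∑ l ∈ Ico 3 κ, aw (l + 1) * (if l ∈ Ico 3 κ then
      (fun n => ∑ i ∈ Ico 3 l, aw i * Y l i n) else fun _ => 0) n) := by
    have h1 := DD.of_succ (b := 3) (κ := κ) (X := fun l => if l ∈ Ico 3 κ then
      (fun n => ∑ i ∈ Ico 3 l, aw i * Y l i n) else fun _ => 0) (by
        intro l hl
        simp only [hl, if_true]
        have hl' := hl
        simp only [mem_Ico] at hl'
        refine SN.sum_comb _ _ _ (fun j _ => aw_nonneg j) (aw_sum_le_one (by norm_num) l) (fun i hi => ?_)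
        · simp only [mem_Ico] at hi
          refine (hY l hl i (by simp only [mem_Ico]; omega)).mono_N ?_
          calc NN l * PP 3 i ≤ NN l * NN l :=
                Nat.mul_le_mul_left _ ((PP_le hi.1).trans (NN_mono (by omega)))
            _ ≤ NN (l + 1) := NN_mul_NN_le le_rfl le_rfl) (by
        intro l m hm
        by_cases hl : l ∈ Ico 3 κ
        · simp only [hl, if_true]
          have hl' := hl
          simp only [mem_Ico] at hl'
          apply sum_eq_zero
          intro i hi
          simp only [mem_Ico] at hi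
          rw [hY0 l hl i m hm, mul_zero]
        · simp only [hl, if_false])
    have h2 := ((h1.rho (by norm_num) (by omega)).mono_b (show 3 ≤ 3 + 1 by norm_num)).smul
      (c := 4) (by norm_num)
    exact h2.mono_r (by norm_num)
  have htot := SR.add s1 (SR.add s2 s3)
  refine (htot.mono_r (by norm_num)).le (fun n => ?_)
  by_cases hn : n < κ
  · rw [sum_eq_zero (fun j hj => by rw [hx0 j hj n hn, mul_zero])]
    have h1 : 0 ≤ ∑ j ∈ Ico 3 κ, aw j * V j n :=
      sum_nonneg (fun j hj => mul_nonneg (aw_nonneg j) ((hV j hj).nonneg n))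
    have h2 : ∀ F : ℕ → ℕ → ℝ, (∀ l ∈ Ico 3 κ, 0 ≤ F l n) →
        0 ≤ 4 * ∑ l ∈ Ico 3 κ, aw (l + 1) * (if l ∈ Ico 3 κ then F l else fun _ => 0) n := by
      intro F hF
      apply mul_nonneg (by norm_num)
      apply sum_nonneg
      intro l hl
      simp only [hl, if_true]
      exact mul_nonneg (aw_nonneg _) (hF l hl)
    have h3 := h2 (fun l n => ∑ j ∈ Icc 3 l, aw j * Y j l n) (by
      intro l hl
      apply sum_nonneg
      intro j hj
      simp only [mem_Icc] at hj
      simp only [mem_Ico] at hl
      exact mul_nonneg (aw_nonneg j) ((hY j (by simp only [mem_Ico]; omega) l (by simp only [mem_Ico]; omega)).nonneg n))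
    have h4 := h2 (fun l n => ∑ i ∈ Ico 3 l, aw i * Y l i n) (by
      intro l hl
      apply sum_nonneg
      intro i hi
      simp only [mem_Ico] at hi hl
      exact mul_nonneg (aw_nonneg i) ((hY l (by simp only [mem_Ico]; omega) i (by simp only [mem_Ico]; omega)).nonneg n))
    exact add_nonneg h1 (add_nonneg h3 h4)
  · push Not at hn
    have h1 : ∑ j ∈ Ico 3 κ, aw j * x j n ≤
        ∑ j ∈ Ico 3 κ, aw j * V j n + ∑ j ∈ Ico 3 κ, ∑ i ∈ Ico 3 κ, aw j * aw i * Y j i n := by
      rw [← sum_add_distrib]
      apply sum_le_sum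
      intro j hj
      have := mul_le_mul_of_nonneg_left (hle j hj n hn) (aw_nonneg j)
      refine this.trans (le_of_eq ?_)
      rw [mul_add, mul_sum]
      congr 1
      apply sum_congr rfl; intro i _; ring
    have e1 : ∑ j ∈ Ico 3 κ, ∑ i ∈ Ico 3 κ, aw j * aw i * Y j i n =
        ∑ j ∈ Ico 3 κ, ∑ i ∈ Ico 3 κ, (if j ≤ i then aw j * aw i * Y j i n else 0) +
        ∑ j ∈ Ico 3 κ, ∑ i ∈ Ico 3 κ, (if i < j then aw j * aw i * Y j i n else 0) := by
      rw [← sum_add_distrib]
      apply sum_congr rfl; intro j _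
      rw [← sum_add_distrib]
      apply sum_congr rfl; intro i _
      by_cases h : j ≤ i
      · simp [h, not_lt.2 h]
      · simp [h, not_le.1 h]
    have e2 : ∑ j ∈ Ico 3 κ, ∑ i ∈ Ico 3 κ, (if j ≤ i then aw j * aw i * Y j i n else 0) =
        4 * ∑ l ∈ Ico 3 κ, aw (l + 1) * (if l ∈ Ico 3 κ then
          (fun n => ∑ j ∈ Icc 3 l, aw j * Y j l n) else fun _ => 0) n := by
      rw [sum_comm, mul_sum]
      apply sum_congr rfl; intro l hl
      simp only [hl, if_true]
      simp only [mem_Ico] at hl
      rw [← sum_filter, show (Ico 3 κ).filter (fun j => j ≤ l) = Icc 3 l by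
        ext j; simp only [mem_filter, mem_Ico, mem_Icc]; omega, mul_sum, mul_sum]
      apply sum_congr rfl; intro j _
      rw [aw_four l]; ring
    have e3 : ∑ j ∈ Ico 3 κ, ∑ i ∈ Ico 3 κ, (if i < j then aw j * aw i * Y j i n else 0) =
        4 * ∑ l ∈ Ico 3 κ, aw (l + 1) * (if l ∈ Ico 3 κ then
          (fun n => ∑ i ∈ Ico 3 l, aw i * Y l i n) else fun _ => 0) n := by
      rw [mul_sum]
      apply sum_congr rfl; intro l hl
      simp only [hl, if_true]
      simp only [mem_Ico] at hl
      rw [← sum_filter, show (Ico 3 κ).filter (fun i => i < l) = Ico 3 l by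
        ext j; simp only [mem_filter, mem_Ico]; omega, mul_sum, mul_sum]
      apply sum_congr rfl; intro j _
      rw [aw_four l]; ring
    rw [e1, e2, e3] at h1
    exact h1

/-- **Upper estimate.** -/
theorem upper {ι : Type*} [DecidableEq ι] (s : Finset ι) (z : ι → ℕ → ℝ) (c : ι → ℝ) {r K : ℝ} (hK : 0 < K)
    (hr : 0 ≤ r) (hc : ∀ i ∈ s, 0 ≤ c i) (hz : ∀ i ∈ s, SR 1 3 K (z i))
    (hzn : ∀ i ∈ s, ∀ n, 0 ≤ z i n)
    (hd : ∀ i ∈ s, ∀ j ∈ s, i ≠ j → ∀ n, z i n = 0 ∨ z j n = 0) {J κ : ℕ}
    (hJ : s.card ≤ 4 ^ J) (hκ : J < κ) (hsupp : ∀ i ∈ s, ∀ n < κ, z i n = 0)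
    (hM : ∀ A ⊆ s, ∀ t : ℝ, 0 ≤ t → (∀ i ∈ A, t ≤ c i) → t * Nat.size A.card ≤ r) :
    SR 1 3 (229 * K * r) (fun n => ∑ i ∈ s, c i * z i n) := by
  classical
  -- coefficients are at most r
  have hcr : ∀ i ∈ s, c i ≤ r := by
    intro i hi
    have := hM {i} (by simpa using hi) (c i) (hc i hi) (by intro j hj; simp at hj; subst hj; exact le_rfl)
    simpa using this
  -- counting
  have hcount : 0 < r → ∀ j : ℕ, (s.filter (fun i => r * aw j ≤ c i)).card ≤ NN j := by
    intro hrpos j
    have h1 := hM (s.filter (fun i => r * aw j ≤ c i)) (filter_subset _ _) (r * aw j)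
      (mul_nonneg hr (aw_nonneg j)) (by intro i hi; exact (mem_filter.1 hi).2)
    have h2 : (Nat.size (s.filter (fun i => r * aw j ≤ c i)).card : ℝ) ≤ 4 ^ j := by
      have h3 : aw j * (Nat.size (s.filter (fun i => r * aw j ≤ c i)).card : ℝ) ≤ 1 := by
        have : r * (aw j * (Nat.size (s.filter (fun i => r * aw j ≤ c i)).card : ℝ)) ≤ r * 1 := by
          rw [← mul_assoc, mul_one]; exact h1
        exact le_of_mul_le_mul_left this hrpos
      have h4 := mul_le_mul_of_nonneg_left h3 (show (0:ℝ) ≤ 4 ^ j by positivity)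
      rw [← mul_assoc, mul_comm (4 ^ j) (aw j), aw_mul, one_mul, mul_one] at h4
      exact h4
    have h5 : Nat.size (s.filter (fun i => r * aw j ≤ c i)).card ≤ 4 ^ j := by exact_mod_cast h2
    exact ((Nat.size_le.1 h5)).le
  rcases hr.eq_or_lt with h0 | hrpos
  · -- all coefficients vanish
    have : (fun n => ∑ i ∈ s, c i * z i n) = fun _ => 0 := by
      funext n
      apply sum_eq_zero
      intro i hi
      have h1 : c i = 0 := le_antisymm (by rw [h0]; exact hcr i hi) (hc i hi)
      rw [h1, zero_mul]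
    rw [this]
    exact SR.zero _ _ (by positivity)
  -- the groups
  set G0 := s.filter (fun i => r * aw 3 ≤ c i) with hG0
  set G : ℕ → Finset ι := fun j => s.filter (fun i => r * aw j ≤ c i ∧ c i < r * aw (j - 1)) with hG
  set GT := s.filter (fun i => c i < r * aw J) with hGT
  have b1 : SR 1 3 (r * (K * (2 * 4 ^ 3))) (fun n => r * ∑ i ∈ G0, z i n) := by
    apply SR.smul _ hr
    apply BN_SR (le_refl 3) (le_refl 3)
    have h1 := SR.sumDisj hK.le G0 (fun _ => 1) z (fun i hi => hz i (mem_of_mem_filter i hi))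
      (fun i hi j hj => hd i (mem_of_mem_filter i hi) j (mem_of_mem_filter j hj))
    refine h1.mono_N ?_
    simpa using hcount hrpos 3
  have b2 : SR 1 3 (4 * r * K * 25) (fun n => 4 * r * K * ∑ j ∈ Ico 3 κ, aw j *
      (if j ∈ Icc 4 J then (fun n => K⁻¹ * ∑ i ∈ G j, z i n) else fun _ => 0) n) := by
    apply SR.smul _ (by positivity)
    apply subst
    · intro j hj
      by_cases hj' : j ∈ Icc 4 J
      · simp only [hj', if_true]
        have h1 := SR.sumDisj hK.le (G j) (fun _ => 1) z (fun i hi => hz i (mem_of_mem_filter i hi))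
          (fun i hi j hj => hd i (mem_of_mem_filter i hi) j (mem_of_mem_filter j hj))
        have h2 : (G j).card ≤ NN j := by
          refine le_trans (card_le_card ?_) (hcount hrpos j)
          intro i hi
          simp only [hG, mem_filter] at hi ⊢
          exact ⟨hi.1, hi.2.1⟩
        have h3 := h1.mono_N (show ∑ i ∈ G j, 1 ≤ NN j by simpa using h2)
        refine h3.to_SN (by positivity) (by rw [inv_mul_cancel₀ hK.ne']) (fun n => ?_)
        exact sum_nonneg (fun i hi => hzn i (mem_of_mem_filter i hi) n)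
      · simp only [hj', if_false]; exact SN.zero _ _
    · intro j hj n hn
      by_cases hj' : j ∈ Icc 4 J
      · simp only [hj', if_true]
        rw [sum_eq_zero (fun i hi => hsupp i (mem_of_mem_filter i hi) n hn), mul_zero]
      · simp only [hj', if_false]
  have b3 : SR 1 3 (r * K) (fun n => r * aw J * ∑ i ∈ GT, z i n) := by
    have h1 := (SR.sum GT (fun _ => K) z (fun i hi => hz i (mem_of_mem_filter i hi))).smul
      (c := r * aw J) (mul_nonneg hr (aw_nonneg J))
    refine h1.mono_r ?_
    rw [sum_const, nsmul_eq_mul]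
    have h2 : (GT.card : ℝ) ≤ 4 ^ J := by
      have : GT.card ≤ 4 ^ J := (card_le_card (filter_subset _ _)).trans hJ
      exact_mod_cast this
    have h3 : aw J * GT.card ≤ 1 := by
      have := mul_le_mul_of_nonneg_left h2 (aw_nonneg J)
      rwa [aw_mul] at this
    calc r * aw J * (GT.card * K) = (r * K) * (aw J * GT.card) := by ring
      _ ≤ (r * K) * 1 := mul_le_mul_of_nonneg_left h3 (by positivity)
      _ = r * K := mul_one _
  refine ((SR.add b1 (SR.add b2 b3)).mono_r (le_of_eq (by ring))).le (fun n => ?_)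
  -- every index is in one of the groups
  have hcover : ∀ i ∈ s, c i * z i n ≤
      (if i ∈ G0 then r * z i n else 0) +
      ((∑ j ∈ Icc 4 J, if i ∈ G j then 4 * r * aw j * z i n else 0) +
       (if i ∈ GT then r * aw J * z i n else 0)) := by
    intro i hi
    have hzi := hzn i hi n
    have hnn : 0 ≤ ∑ j ∈ Icc 4 J, (if i ∈ G j then 4 * r * aw j * z i n else 0) := by
      apply sum_nonneg
      intro j _
      have := aw_nonneg j
      split_ifs <;> positivity
    by_cases h1 : r * aw 3 ≤ c i
    · have : i ∈ G0 := by simp [hG0, hi, h1]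
      rw [if_pos this]
      have h2 : c i * z i n ≤ r * z i n := mul_le_mul_of_nonneg_right (hcr i hi) hzi
      have h3 : 0 ≤ (if i ∈ GT then r * aw J * z i n else 0) := by
        have := aw_nonneg J
        split_ifs <;> positivity
      linarith
    · have hG0' : i ∉ G0 := by simp [hG0, hi, h1]
      rw [if_neg hG0', zero_add]
      by_cases h2 : c i < r * aw J
      · have : i ∈ GT := by simp [hGT, hi, h2]
        rw [if_pos this]
        have h3 : c i * z i n ≤ r * aw J * z i n := mul_le_mul_of_nonneg_right h2.le hzi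
        linarith
      · have hGT' : i ∉ GT := by simp [hGT, hi, h2]
        rw [if_neg hGT', add_zero]
        push Not at h1 h2
        -- find the level
        have hex : ∃ j, r * aw j ≤ c i := ⟨J, h2⟩
        set j := Nat.find hex with hj
        have hj1 : r * aw j ≤ c i := Nat.find_spec hex
        have hjJ : j ≤ J := Nat.find_min' hex h2
        have hj4 : 4 ≤ j := by
          by_contra hcon
          have : aw 3 ≤ aw j := aw_anti (by omega)
          have := mul_le_mul_of_nonneg_left this hr
          linarith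
        have hj2 : c i < r * aw (j - 1) := by
          have := Nat.find_min hex (m := j - 1) (by omega)
          push Not at this; exact this
        have hmem : i ∈ G j := by simp [hG, hi, hj1, hj2]
        refine le_trans ?_ (single_le_sum (f := fun j => if i ∈ G j then 4 * r * aw j * z i n else 0)
          (fun j' _ => by have := aw_nonneg j'; split_ifs <;> positivity) (show j ∈ Icc 4 J by simp [hj4, hjJ]))
        simp only [hmem, if_true]
        apply mul_le_mul_of_nonneg_right _ hzi
        have e1 : aw (j - 1) = 4 * aw j := by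
          have := aw_four (j - 1)
          rwa [show j - 1 + 1 = j by omega] at this
        rw [e1] at hj2
        linarith
  refine (sum_le_sum hcover).trans (le_of_eq ?_)
  rw [sum_add_distrib, sum_add_distrib]
  congr 1
  · rw [← sum_filter, mul_sum]
    apply sum_congr _ (fun _ _ => rfl)
    ext i; simp only [mem_filter, hG0]; tauto
  · congr 1
    · rw [sum_comm, mul_sum]
      have hsub : Icc 4 J ⊆ Ico 3 κ := by
        intro j hj; simp only [mem_Icc, mem_Ico] at hj ⊢; omega
      rw [← sum_subset hsub]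
      · apply sum_congr rfl
        intro j hj
        simp only [hj, if_true]
        rw [← sum_filter]
        have e1 : s.filter (fun i => i ∈ G j) = G j := by
          ext i; simp only [mem_filter, hG]; tauto
        rw [e1, ← mul_sum]
        field_simp
      · intro j _ hj
        simp only [hj, if_false, mul_zero]
    · rw [← sum_filter, mul_sum]
      apply sum_congr _ (fun _ _ => rfl)
      ext i; simp only [mem_filter, hGT]; tauto

/-- **Right-spreading.** -/
theorem GS.push {N b : ℕ} {β x : ℕ → ℝ} (h : GS N b β x) {f : ℕ → ℕ} (hf : Function.Injective f)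
    (hf2 : ∀ n, n ≤ f n) : SN N b (Function.extend f x (fun _ => 0)) := by
  have hval : ∀ (g : ℕ → ℝ) (m : ℕ), (∀ n, f n ≠ m) → Function.extend f g (fun _ => 0) m = 0 := by
    intro g m hm
    rw [Function.extend_apply']
    rintro ⟨n, hn⟩; exact hm n hn
  induction h with
  | zero N b =>
      have : Function.extend f (fun _ => (0:ℝ)) (fun _ => 0) = fun _ => 0 := by
        funext m
        by_cases hm : ∃ n, f n = m
        · obtain ⟨n, rfl⟩ := hm; rw [hf.extend_apply]
        · exact hval _ m (fun n hn => hm ⟨n, hn⟩)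
      rw [this]; exact SN.zero N b
  | single b n =>
      have : Function.extend f (sg n) (fun _ => 0) = sg (f n) := by
        funext m
        by_cases hm : ∃ n, f n = m
        · obtain ⟨k, rfl⟩ := hm
          rw [hf.extend_apply]
          by_cases hk : k = n
          · subst hk; simp [sg_self]
          · rw [sg_ne hk, sg_ne (fun h => hk (hf h))]
        · rw [hval _ m (fun n hn => hm ⟨n, hn⟩), sg_ne (fun h => hm ⟨n, h.symm⟩)]
      rw [this]; exact SN.single b _
  | op b k B X h h0 ih =>
      have : Function.extend f (fun n => ∑ j ∈ Ico b k, aw j * X j n) (fun _ => 0) =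
          fun m => ∑ j ∈ Ico b k, aw j * Function.extend f (X j) (fun _ => 0) m := by
        funext m
        by_cases hm : ∃ n, f n = m
        · obtain ⟨n, rfl⟩ := hm
          simp only [hf.extend_apply]
        · rw [hval _ m (fun n hn => hm ⟨n, hn⟩), sum_eq_zero]
          intro j _
          rw [hval _ m (fun n hn => hm ⟨n, hn⟩), mul_zero]
      rw [this]
      refine SN.op ih (fun j hj m hm => ?_)
      by_cases hm' : ∃ n, f n = m
      · obtain ⟨n, rfl⟩ := hm'
        rw [hf.extend_apply]
        exact h0 j hj n (by have := hf2 n; omega)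
      · exact hval _ m (fun n hn => hm' ⟨n, hn⟩)
  | add N N' b β β' x x' h h' hd ih ih' =>
      have : Function.extend f (fun n => x n + x' n) (fun _ => 0) =
          fun m => Function.extend f x (fun _ => 0) m + Function.extend f x' (fun _ => 0) m := by
        funext m
        by_cases hm : ∃ n, f n = m
        · obtain ⟨n, rfl⟩ := hm
          simp only [hf.extend_apply]
        · rw [hval _ m (fun n hn => hm ⟨n, hn⟩), hval _ m (fun n hn => hm ⟨n, hn⟩),
            hval _ m (fun n hn => hm ⟨n, hn⟩), add_zero]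
      rw [this]
      refine SN.add ih ih' (fun m => ?_)
      by_cases hm : ∃ n, f n = m
      · obtain ⟨n, rfl⟩ := hm
        simp only [hf.extend_apply]; exact hd n
      · left; exact hval _ m (fun n hn => hm ⟨n, hn⟩)
  | comb N b β β' x x' s t hs ht hst h h' ih ih' =>
      have : Function.extend f (fun n => s * x n + t * x' n) (fun _ => 0) =
          fun m => s * Function.extend f x (fun _ => 0) m + t * Function.extend f x' (fun _ => 0) m := by
        funext m
        by_cases hm : ∃ n, f n = m
        · obtain ⟨n, rfl⟩ := hm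
          simp only [hf.extend_apply]
        · rw [hval _ m (fun n hn => hm ⟨n, hn⟩), hval _ m (fun n hn => hm ⟨n, hn⟩),
            hval _ m (fun n hn => hm ⟨n, hn⟩)]; ring
      rw [this]
      exact SN.comb hs ht hst ih ih'
  | solid N b β x x' h h0 hx ih =>
      refine ih.solid (fun m => ?_) (fun m => ?_)
      · by_cases hm : ∃ n, f n = m
        · obtain ⟨n, rfl⟩ := hm
          rw [hf.extend_apply]; exact h0 n
        · rw [hval _ m (fun n hn => hm ⟨n, hn⟩)]
      · by_cases hm : ∃ n, f n = m
        · obtain ⟨n, rfl⟩ := hm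
          rw [hf.extend_apply, hf.extend_apply]; exact hx n
        · rw [hval _ m (fun n hn => hm ⟨n, hn⟩), hval _ m (fun n hn => hm ⟨n, hn⟩)]

/-- right-spreading for `SR` -/
theorem SR.push {N b : ℕ} {r : ℝ} {x x' : ℕ → ℝ} (h : SR N b r x) {f : ℕ → ℕ}
    (hf : Function.Injective f) (hf2 : ∀ n, n ≤ f n) (h1 : ∀ n, x' (f n) = x n)
    (h2 : ∀ m, (∀ n, f n ≠ m) → x' m = 0) : SR N b r x' := by
  obtain ⟨hr, y, ⟨β, hy⟩, hxy⟩ := h
  refine ⟨hr, _, hy.push hf hf2, fun m => ?_⟩
  by_cases hm : ∃ n, f n = m
  · obtain ⟨n, rfl⟩ := hm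
    rw [hf.extend_apply, h1]; exact hxy n
  · have h3 : ∀ n, f n ≠ m := fun n hn => hm ⟨n, hn⟩
    rw [h2 m h3, Function.extend_apply' _ _ _ (by rintro ⟨n, hn⟩; exact h3 n hn), mul_zero]

end Pool.Agent.H27.Spread
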