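import Pool.Agent.H27.Spread.Lower
import Pool.Agent.H27.Spread.Upper

set_option autoImplicit false

/-! Banach spaces whose norm on finitely supported vectors is the gauge `gg 1`. -/

namespace Pool.Agent.H27.Spread
open Finset Filter Topology

lemma gg_mono {N : ℕ} (hN : 0 < N) {w w' : ℕ →₀ ℝ} (h : ∀ n, |w n| ≤ |w' n|) : gg N w ≤ gg N w' := by
  apply le_csInf (gg_nonempty hN w')
  intro r hr
  exact gg_le (SR.le hr h)

lemma abs_le_gg (w : ℕ →₀ ℝ) (n : ℕ) : |w n| ≤ gg 1 w := by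
  apply le_csInf (gg_nonempty one_pos w)
  rintro r ⟨hr, y, hy, hw⟩
  refine (hw n).trans ?_
  have := hy.le_one (by norm_num) n
  nlinarith

lemma gg_single (n : ℕ) : gg 1 (Finsupp.single n (1:ℝ)) = 1 := by
  apply le_antisymm
  · apply gg_le
    refine (SR.of_SN (SN.single 3 n)).le (fun m => ?_)
    by_cases h : m = n
    · subst h; simp [sg_self]
    · rw [Finsupp.single_eq_of_ne h, sg_ne h, abs_zero]
  · have := abs_le_gg (Finsupp.single n (1:ℝ)) n
    simpa using this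

/-- A Banach space whose norm on a dense copy of `c₀₀` is the gauge. -/
structure Sp (X : Type) [NormedAddCommGroup X] [NormedSpace ℝ X] where
  emb : (ℕ →₀ ℝ) →ₗ[ℝ] X
  norm_emb : ∀ a, ‖emb a‖ = gg 1 a
  dense : DenseRange emb
  δ : ℕ → (X →L[ℝ] ℝ)
  δ_emb : ∀ n a, δ n (emb a) = a n

variable {X : Type} [NormedAddCommGroup X] [NormedSpace ℝ X]

namespace Sp

/-- basis vectors -/
noncomputable def e (S : Sp X) (n : ℕ) : X := S.emb (Finsupp.single n 1)

lemma norm_e (S : Sp X) (n : ℕ) : ‖S.e n‖ = 1 := by rw [e, S.norm_emb, gg_single]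

/-- coordinates in `[s,t)` -/
noncomputable def cut (S : Sp X) (s t : ℕ) (x : X) : ℕ →₀ ℝ := ∑ n ∈ Ico s t, S.δ n x • Finsupp.single n (1:ℝ)

lemma cut_apply (S : Sp X) (s t : ℕ) (x : X) (m : ℕ) :
    S.cut s t x m = if s ≤ m ∧ m < t then S.δ m x else 0 := by
  rw [cut, Finsupp.finsetSum_apply]
  simp only [Finsupp.smul_apply, smul_eq_mul, Finsupp.single_apply, mul_ite, mul_one, mul_zero]
  rw [sum_ite_eq']
  simp

/-- the projection on `[s,t)` -/
noncomputable def P (S : Sp X) (s t : ℕ) : X →L[ℝ] X := ∑ n ∈ Ico s t, (S.δ n).smulRight (S.e n)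

lemma P_apply (S : Sp X) (s t : ℕ) (x : X) : S.P s t x = S.emb (S.cut s t x) := by
  rw [P, cut, map_sum, _root_.sum_apply]
  apply sum_congr rfl
  intro n _
  rw [ContinuousLinearMap.smulRight_apply, map_smul, e]

lemma norm_P_le (S : Sp X) (s t : ℕ) (x : X) : ‖S.P s t x‖ ≤ ‖x‖ := by
  have hcl : IsClosed {x : X | ‖S.P s t x‖ ≤ ‖x‖} :=
    isClosed_le ((S.P s t).continuous.norm) continuous_norm
  refine S.dense.induction_on (p := fun x => ‖S.P s t x‖ ≤ ‖x‖) x hcl (fun a => ?_)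
  rw [P_apply, S.norm_emb, S.norm_emb]
  apply gg_mono one_pos
  intro n
  rw [cut_apply]
  split_ifs
  · rw [S.δ_emb]
  · simp

lemma P_emb (S : Sp X) (a : ℕ →₀ ℝ) : ∃ N₀, ∀ N, N₀ ≤ N → S.P 0 N (S.emb a) = S.emb a := by
  refine ⟨a.support.sup id + 1, fun N hN => ?_⟩
  rw [P_apply]
  congr 1
  ext m
  rw [cut_apply, S.δ_emb]
  by_cases hm : a m = 0
  · simp [hm]
  · have h1 : m ≤ a.support.sup id := le_sup (f := id) (Finsupp.mem_support_iff.2 hm)
    have : m < N := by omega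
    simp [this]

lemma P_tendsto (S : Sp X) (x : X) : Tendsto (fun N => S.P 0 N x) atTop (𝓝 x) := by
  rw [Metric.tendsto_atTop]
  intro ε hε
  obtain ⟨a, ha⟩ := S.dense.exists_dist_lt x (show 0 < ε / 2 by linarith)
  obtain ⟨N₀, hN₀⟩ := S.P_emb a
  refine ⟨N₀, fun N hN => ?_⟩
  have h1 := hN₀ N hN
  have h2 : S.P 0 N x - x = S.P 0 N (x - S.emb a) + (S.emb a - x) := by
    rw [map_sub, h1]; abel
  rw [dist_eq_norm, h2]
  rw [dist_eq_norm] at ha
  have h3 := S.norm_P_le 0 N (x - S.emb a)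
  have h4 : ‖S.emb a - x‖ = ‖x - S.emb a‖ := norm_sub_rev _ _
  have := norm_add_le (S.P 0 N (x - S.emb a)) (S.emb a - x)
  linarith

lemma P_sub (S : Sp X) {s t : ℕ} (h : s ≤ t) (x : X) : S.P 0 t x - S.P 0 s x = S.P s t x := by
  have : S.P 0 s x + S.P s t x = S.P 0 t x := by
    simp only [P, _root_.sum_apply]
    exact sum_Ico_consecutive _ (Nat.zero_le s) h
  rw [← this]; abel

lemma δ_P (S : Sp X) (s t n : ℕ) (x : X) : S.δ n (S.P s t x) = if s ≤ n ∧ n < t then S.δ n x else 0 := by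
  rw [P_apply, S.δ_emb, cut_apply]

/-- sums of `k` disjoint vectors of norm `< 2` -/
lemma norm_sum_le (S : Sp X) {k e : ℕ} (hk : k ≤ 2 ^ e) (w : ℕ → ℕ →₀ ℝ) (hw : ∀ i < k, ‖S.emb (w i)‖ ≤ 1)
    (hd : ∀ i < k, ∀ j < k, i ≠ j → ∀ n, w i n = 0 ∨ w j n = 0) :
    ‖∑ i ∈ range k, S.emb (w i)‖ ≤ 2 * (128 + 8 * e) := by
  rw [← map_sum, S.norm_emb]
  apply gg_le
  have h1 := SR.sumDisj (N := fun _ => 1) (b := 3) (r := 2) (by norm_num) (range k) (X := fun i n => |w i n|)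
    (fun i hi => by
      apply SR_of_gg_lt one_pos
      rw [← S.norm_emb]
      have := hw i (mem_range.1 hi); linarith)
    (fun i hi j hj hne n => by
      rcases hd i (mem_range.1 hi) j (mem_range.1 hj) hne n with h | h
      · left; simp [h]
      · right; simp [h])
  have h2 := BN'_SR (show ∑ i ∈ range k, 1 ≤ 2 ^ e by simpa using hk) h1
  refine h2.le (fun n => ?_)
  rw [Finsupp.finsetSum_apply]
  exact abs_sum_le_sum_abs _ _

/-- **Shrinking.** -/
theorem shrinking (S : Sp X) (f : X →L[ℝ] ℝ) {ε : ℝ} (hε : 0 < ε) :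
    ∃ N₀, ∀ N, N₀ ≤ N → ∀ x, ‖x‖ ≤ 1 → |f (x - S.P 0 N x)| ≤ ε := by
  by_contra hcon
  push Not at hcon
  -- blocks
  have H : ∀ N₀, ∃ (t : ℕ) (w : ℕ →₀ ℝ), N₀ ≤ t ∧ (∀ n, ¬ (N₀ ≤ n ∧ n < t) → w n = 0) ∧
      ‖S.emb w‖ ≤ 1 ∧ ε / 2 ≤ f (S.emb w) := by
    intro N₀
    obtain ⟨N, hN, x, hx, hfx⟩ := hcon N₀
    have h1 : Tendsto (fun M => |f (S.P 0 M x - S.P 0 N x)|) atTop (𝓝 |f (x - S.P 0 N x)|) := by
      apply Tendsto.abs
      exact (f.continuous.tendsto _).comp ((S.P_tendsto x).sub_const _)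
    have h2 : ∀ᶠ M in atTop, ε / 2 < |f (S.P 0 M x - S.P 0 N x)| :=
      h1.eventually (lt_mem_nhds (by linarith))
    obtain ⟨M, hM, hMN⟩ := (h2.and (eventually_ge_atTop N)).exists
    rw [S.P_sub hMN] at hM
    have h3 : ‖S.P N M x‖ ≤ 1 := (S.norm_P_le N M x).trans hx
    rcases le_or_gt 0 (f (S.P N M x)) with h4 | h4
    · refine ⟨M, S.cut N M x, hN.trans hMN, fun n hn => ?_, ?_, ?_⟩
      · rw [cut_apply, if_neg (by omega)]
      · rw [← P_apply]; exact h3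
      · rw [← P_apply, ← abs_of_nonneg h4]; exact hM.le
    · refine ⟨M, -S.cut N M x, hN.trans hMN, fun n hn => ?_, ?_, ?_⟩
      · rw [Finsupp.neg_apply, cut_apply, if_neg (by omega), neg_zero]
      · rw [map_neg, norm_neg, ← P_apply]; exact h3
      · rw [map_neg, map_neg, ← P_apply, ← abs_of_neg h4]; exact hM.le
  choose t w ht hw hwn hfw using H
  set st : ℕ → ℕ := fun j => Nat.rec 0 (fun _ s => t s) j with hst
  have hsts : ∀ j, st (j + 1) = t (st j) := fun j => rfl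
  have hmono : Monotone st := monotone_nat_of_le_succ (fun j => by rw [hsts]; exact ht _)
  -- growth contradiction
  have hgrow : ∀ m : ℕ, (2 ^ m : ℝ) * (ε / 2) ≤ ‖f‖ * (2 * (128 + 8 * m)) := by
    intro m
    have h1 := S.norm_sum_le (k := 2 ^ m) (e := m) le_rfl (fun i => w (st i)) (fun i _ => hwn _)
      (fun i _ j _ hne n => by
        by_contra hboth
        push Not at hboth
        have hi : st i ≤ n ∧ n < t (st i) := by
          by_contra h; exact hboth.1 (hw _ n h)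
        have hj : st j ≤ n ∧ n < t (st j) := by
          by_contra h; exact hboth.2 (hw _ n h)
        rw [← hsts] at hi hj
        rcases lt_or_gt_of_ne hne with h | h
        · have := hmono (show i + 1 ≤ j by omega); omega
        · have := hmono (show j + 1 ≤ i by omega); omega)
    have h2 := f.le_opNorm (∑ i ∈ range (2 ^ m), S.emb (w (st i)))
    have h3 : (2 ^ m : ℝ) * (ε / 2) ≤ f (∑ i ∈ range (2 ^ m), S.emb (w (st i))) := by
      rw [map_sum]
      calc (2 ^ m : ℝ) * (ε / 2) = ∑ i ∈ range (2 ^ m), ε / 2 := by simp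
        _ ≤ ∑ i ∈ range (2 ^ m), f (S.emb (w (st i))) := sum_le_sum (fun i _ => hfw _)
    calc (2 ^ m : ℝ) * (ε / 2) ≤ f (∑ i ∈ range (2 ^ m), S.emb (w (st i))) := h3
      _ ≤ ‖f (∑ i ∈ range (2 ^ m), S.emb (w (st i)))‖ := Real.le_norm_self _
      _ ≤ ‖f‖ * ‖∑ i ∈ range (2 ^ m), S.emb (w (st i))‖ := h2
      _ ≤ ‖f‖ * (2 * (128 + 8 * m)) := mul_le_mul_of_nonneg_left h1 (norm_nonneg _)
  obtain ⟨n₀, hn₀⟩ := exists_small (r := 1 / 2) (by norm_num) (by norm_num) (‖f‖ * 256) (‖f‖ * 16)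
    (show 0 < ε / 2 by linarith)
  have h1 := hn₀ n₀ le_rfl
  have h2 := hgrow n₀
  have h3 : (1 / 2 : ℝ) ^ n₀ * (2 ^ n₀ * (ε / 2)) = ε / 2 := by
    rw [← mul_assoc, ← mul_pow]; norm_num
  have h4 := mul_le_mul_of_nonneg_left h2 (show (0:ℝ) ≤ (1 / 2) ^ n₀ by positivity)
  rw [h3] at h4
  have h5 : (1 / 2 : ℝ) ^ n₀ * (‖f‖ * (2 * (128 + 8 * n₀))) = (1 / 2) ^ n₀ * (‖f‖ * 256 + ‖f‖ * 16 * n₀) := by ring
  rw [h5] at h4
  linarith

/-- the basis is weakly null -/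
theorem e_weakly_null (S : Sp X) (f : X →L[ℝ] ℝ) : Tendsto (fun n => f (S.e n)) atTop (𝓝 0) := by
  rw [Metric.tendsto_atTop]
  intro ε hε
  obtain ⟨N₀, hN₀⟩ := S.shrinking f (show 0 < ε / 2 by linarith)
  refine ⟨N₀, fun n hn => ?_⟩
  have h1 := hN₀ n hn (S.e n) (S.norm_e n).le
  have h2 : S.P 0 n (S.e n) = 0 := by
    rw [P_apply]
    have : S.cut 0 n (S.e n) = 0 := by
      ext m
      rw [cut_apply]
      split_ifs with h
      · rw [e, S.δ_emb, Finsupp.single_eq_of_ne (by omega)]; rfl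
      · rfl
    rw [this, map_zero]
  rw [h2, sub_zero] at h1
  rw [dist_zero_right]
  exact lt_of_le_of_lt h1 (by linarith)

end Sp

end Pool.Agent.H27.Spread
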